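import Pool.Agent.TH468.Final

set_option autoImplicit false
set_option linter.unusedSectionVars false

/-!
# The final statement
-/

namespace Pool.Agent.TH468

open Finset

/-- two vertices with `t` common neighbours inside `S` give a copy of the complete bipartite
graph -/
lemma contained_of_common {n t : ℕ} (G : SimpleGraph (Fin n)) (S : Finset (Fin n))
    (a1 a2 : Fin n) (h1 : a1 ∈ S) (h2 : a2 ∈ S) (hne : a1 ≠ a2) (T : Finset (Fin n))
    (hT : T ⊆ S) (hTc : T.card = t) (hadj : ∀ w ∈ T, G.Adj a1 w ∧ G.Adj a2 w) :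
    (completeBipartiteGraph (Fin 2) (Fin t)).IsContained (G.induce (S : Set (Fin n))) := by
  classical
  obtain ⟨e, he, hmem⟩ := exists_inj_of_le_card hTc.ge
  let f : Fin 2 ⊕ Fin t → (S : Set (Fin n)) := fun x => match x with
    | Sum.inl i => if i = 0 then ⟨a1, by exact_mod_cast h1⟩ else ⟨a2, by exact_mod_cast h2⟩
    | Sum.inr j => ⟨e j, by exact_mod_cast hT (hmem j)⟩
  have hadj1 : ∀ (i : Fin 2) (j : Fin t), G.Adj (f (Sum.inl i)).1 (f (Sum.inr j)).1 := by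
    intro i j
    have hj := hadj (e j) (hmem j)
    by_cases hi : i = 0
    · simp only [f, hi, if_true]; exact hj.1
    · simp only [f, hi, if_false]; exact hj.2
  have hinj : Function.Injective f := by
    intro x y hxy
    rcases x with i | i <;> rcases y with j | j
    · have hv := congrArg Subtype.val hxy
      by_cases hi : i = 0 <;> by_cases hj : j = 0
      · rw [hi, hj]
      · simp only [f, hi, hj, if_true, if_false] at hv; exact absurd hv hne
      · simp only [f, hi, hj, if_true, if_false] at hv; exact absurd hv.symm hne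
      · have : i = j := by omega
        rw [this]
    · exfalso
      have := hadj1 i j
      rw [hxy] at this
      exact G.loopless.irrefl _ this
    · exfalso
      have := hadj1 j i
      rw [hxy] at this
      exact G.loopless.irrefl _ this
    · have hv := congrArg Subtype.val hxy
      have : e i = e j := hv
      rw [he this]
  refine ⟨⟨⟨f, ?_⟩, hinj⟩⟩
  intro x y hxy
  rw [SimpleGraph.comap_adj]
  rcases x with i | i <;> rcases y with j | j
  · simp at hxy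
  · exact hadj1 i j
  · exact (hadj1 j i).symm
  · simp at hxy

lemma reduce {N n m t : ℕ} (hnq : n ≤ N) (G' : SimpleGraph (Fin N)) (hG' : G'.CliqueFree 4)
    (hS' : ∀ S : Finset (Fin N), S.card = m →
      ∃ c1 ∈ S, ∃ c2 ∈ S, c1 ≠ c2 ∧ ∃ T ⊆ S, T.card = t ∧ ∀ w ∈ T, G'.Adj c1 w ∧ G'.Adj c2 w) :
    ∃ G : SimpleGraph (Fin n), G.CliqueFree 4 ∧ ∀ S : Finset (Fin n),
      (completeBipartiteGraph (Fin 2) (Fin t)).Free (G.induce (S : Set (Fin n))) →
        S.card < m := by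
  classical
  set φ : Fin n ↪ Fin N := Fin.castLEEmb hnq with hφ
  refine ⟨G'.comap φ, ?_, ?_⟩
  · exact hG'.comap ⟨(SimpleGraph.Embedding.comap φ G').toCopy⟩
  · intro S hfree
    by_contra hcon
    push Not at hcon
    obtain ⟨S0, hS0, hS0c⟩ := Finset.exists_subset_card_eq hcon
    obtain ⟨c1, hc1, c2, hc2, hne, T, hT, hTc, hadj⟩ := hS' (S0.map φ) (by
      rw [card_map]; exact hS0c)
    obtain ⟨a1, ha1, rfl⟩ := mem_map.mp hc1
    obtain ⟨a2, ha2, rfl⟩ := mem_map.mp hc2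
    apply hfree
    have hT2 : ∀ w ∈ T, ∃ v ∈ S0, φ v = w := by
      intro w hw
      obtain ⟨v, hv, hvw⟩ := mem_map.mp (hT hw)
      exact ⟨v, hv, hvw⟩
    refine contained_of_common (G'.comap φ) S a1 a2 (hS0 ha1) (hS0 ha2)
      (fun hh => hne (by rw [hh])) (univ.filter (fun v => φ v ∈ T)) ?_ ?_ ?_
    · intro v hv
      simp only [mem_filter, mem_univ, true_and] at hv
      obtain ⟨v', hv', hvv⟩ := hT2 _ hv
      have := φ.injective hvv
      rw [← this]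
      exact hS0 hv'
    · rw [← hTc, ← card_map φ]
      congr 1
      ext w
      simp only [mem_map, mem_filter, mem_univ, true_and]
      constructor
      · rintro ⟨v, hv, rfl⟩; exact hv
      · intro hw
        obtain ⟨v, _, hvw⟩ := hT2 w hw
        exact ⟨v, by rw [hvw]; exact hw, hvw⟩
    · intro w hw
      simp only [mem_filter, mem_univ, true_and] at hw
      exact hadj _ hw

lemma root_pow (n : ℕ) : ((n : ℝ) ^ ((1 : ℝ) / 1000)) ^ 1000 = n := by
  rw [← Real.rpow_natCast, ← Real.rpow_mul (by positivity)]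
  norm_num

lemma root_pow' (n : ℕ) :
    ((n : ℝ) ^ ((1 : ℝ) / 1000)) ^ 499 = (n : ℝ) ^ ((1 : ℝ) / 2 - 1 / 1000) := by
  rw [← Real.rpow_natCast, ← Real.rpow_mul (by positivity)]
  norm_num

lemma exists_q (n q0 : ℕ) (hn : 1 ≤ n) : ∃ q : ℕ, q0 ≤ q ∧ n ≤ q ^ 1000 ∧
    12 * (q : ℝ) ^ 499 ≤ 12 * ((q0 : ℝ) + 2) ^ 499 * (n : ℝ) ^ ((1 : ℝ) / 2 - 1 / 1000) := by
  have hn1 : (1 : ℝ) ≤ n := by exact_mod_cast hn
  have hroot1 : (1 : ℝ) ≤ (n : ℝ) ^ ((1 : ℝ) / 1000) := Real.one_le_rpow hn1 (by norm_num)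
  refine ⟨⌈(n : ℝ) ^ ((1 : ℝ) / 1000)⌉₊ + q0, Nat.le_add_left _ _, ?_, ?_⟩
  · have hqn : (n : ℝ) ^ ((1 : ℝ) / 1000) ≤ ((⌈(n : ℝ) ^ ((1 : ℝ) / 1000)⌉₊ + q0 : ℕ) : ℝ) := by
      push_cast
      have := Nat.le_ceil ((n : ℝ) ^ ((1 : ℝ) / 1000))
      have h2 : (0 : ℝ) ≤ q0 := by positivity
      linarith
    have : (n : ℝ) ≤ ((⌈(n : ℝ) ^ ((1 : ℝ) / 1000)⌉₊ + q0 : ℕ) : ℝ) ^ 1000 := by
      calc (n : ℝ) = ((n : ℝ) ^ ((1 : ℝ) / 1000)) ^ 1000 := (root_pow n).symm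
        _ ≤ _ := pow_le_pow_left₀ (by positivity) hqn _
    exact_mod_cast this
  · have hqup : ((⌈(n : ℝ) ^ ((1 : ℝ) / 1000)⌉₊ + q0 : ℕ) : ℝ)
        ≤ ((q0 : ℝ) + 2) * (n : ℝ) ^ ((1 : ℝ) / 1000) := by
      push_cast
      have h1 := (Nat.ceil_lt_add_one (a := (n : ℝ) ^ ((1 : ℝ) / 1000)) (by positivity)).le
      have h2 : (0 : ℝ) ≤ q0 := by positivity
      nlinarith
    have h3 : ((⌈(n : ℝ) ^ ((1 : ℝ) / 1000)⌉₊ + q0 : ℕ) : ℝ) ^ 499
        ≤ (((q0 : ℝ) + 2) * (n : ℝ) ^ ((1 : ℝ) / 1000)) ^ 499 :=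
      pow_le_pow_left₀ (by positivity) hqup _
    calc 12 * ((⌈(n : ℝ) ^ ((1 : ℝ) / 1000)⌉₊ + q0 : ℕ) : ℝ) ^ 499
        ≤ 12 * (((q0 : ℝ) + 2) * (n : ℝ) ^ ((1 : ℝ) / 1000)) ^ 499 :=
          mul_le_mul_of_nonneg_left h3 (by norm_num)
      _ = 12 * ((q0 : ℝ) + 2) ^ 499 * (n : ℝ) ^ ((1 : ℝ) / 2 - 1 / 1000) := by
          rw [mul_pow, root_pow', mul_assoc]

theorem main :
    ∃ c : ℝ, 0 < c ∧ ∀ t : ℕ, 2 ≤ t → ∃ C : ℝ, 0 < C ∧ ∀ n : ℕ,
      ∃ G : SimpleGraph (Fin n), G.CliqueFree 4 ∧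
        ∀ S : Finset (Fin n),
          (completeBipartiteGraph (Fin 2) (Fin t)).Free (G.induce (S : Set (Fin n))) →
            (S.card : ℝ) ≤ C * (n : ℝ) ^ ((1 : ℝ) / 2 - c) := by
  refine ⟨1 / 1000, by norm_num, fun t ht => ?_⟩
  obtain ⟨q0, hq0⟩ := main_large t (le_trans (by norm_num) ht)
  refine ⟨12 * ((q0 : ℝ) + 2) ^ 499, mul_pos (by norm_num) (pow_pos (by positivity) _),
    fun n => ?_⟩
  rcases Nat.eq_zero_or_pos n with hn | hn
  · subst hn
    refine ⟨⊥, ?_, ?_⟩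
    · intro s hs
      have h1 := hs.card_eq
      have h2 : s = ∅ := by
        ext x; exact Fin.elim0 x
      rw [h2] at h1
      simp at h1
    · intro S _
      have h2 : S = ∅ := by
        ext x; exact Fin.elim0 x
      rw [h2]
      simp only [card_empty, Nat.cast_zero]
      exact mul_nonneg (mul_nonneg (by norm_num) (pow_nonneg (by positivity) _))
        (Real.rpow_nonneg le_rfl _)
  obtain ⟨q, hq1, hq2, hq3⟩ := exists_q n q0 hn
  obtain ⟨G', hG', hS'⟩ := hq0 q hq1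
  obtain ⟨G, hG, hS⟩ := reduce hq2 G' hG' hS'
  refine ⟨G, hG, fun S hfree => ?_⟩
  have hlt := (hS S hfree).le
  have hlt' : (S.card : ℝ) ≤ ((12 * q ^ 499 : ℕ) : ℝ) := Nat.cast_le.mpr hlt
  rw [Nat.cast_mul, Nat.cast_pow, Nat.cast_ofNat] at hlt'
  exact hlt'.trans hq3

end Pool.Agent.TH468
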