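import Pool.Agent.TH468.Struct

set_option autoImplicit false
set_option linter.unusedSectionVars false

/-!
# The coin stage
-/

namespace Pool.Agent.TH468

open Finset

noncomputable section

section indep

variable {V W : Type*} [Fintype V] [DecidableEq V] [Fintype W]

/-- events with pairwise separate supports -/
lemma pr_indep {ι : Type*} [DecidableEq ι] (F : ι → Finset V) (B : ι → (V → W) → Prop)
    (β : ℝ) (hβ : 0 ≤ β) (U : Finset ι)
    (hloc : ∀ i ∈ U, ∀ j ∈ U, i ≠ j → ∀ ω a, B i ω → B i ((F j).piecewise a ω))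
    (hcond : ∀ i ∈ U, ∀ ω, pr (fun a => B i ((F i).piecewise a ω)) ≤ β) :
    pr (fun ω => ∀ i ∈ U, B i ω) ≤ β ^ U.card := by
  induction U using Finset.induction_on with
  | empty => simp [pr_le_one]
  | insert a s has ih =>
    rw [card_insert_of_notMem has]
    have ih' := ih (fun i hi j hj => hloc i (mem_insert_of_mem hi) j (mem_insert_of_mem hj))
      (fun i hi => hcond i (mem_insert_of_mem hi))
    have h1 : pr (fun ω => (∀ i ∈ s, B i ω) ∧ B a ω) ≤ β * pr (fun ω => ∀ i ∈ s, B i ω) := by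
      apply pr_and_le (F a)
      · intro ω b h i hi
        exact hloc i (mem_insert_of_mem hi) a (mem_insert_self _ _)
          (fun hh => has (hh ▸ hi)) ω b (h i hi)
      · intro ω _
        exact hcond a (mem_insert_self _ _) ω
    have h2 : pr (fun ω => ∀ i ∈ insert a s, B i ω) ≤ pr (fun ω => (∀ i ∈ s, B i ω) ∧ B a ω) := by
      apply pr_mono
      intro ω h
      exact ⟨fun i hi => h i (mem_insert_of_mem hi), h a (mem_insert_self _ _)⟩
    calc _ ≤ _ := h2
      _ ≤ _ := h1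
      _ ≤ β * β ^ s.card := mul_le_mul_of_nonneg_left ih' hβ
      _ = _ := by ring

lemma pr_not {Ω : Type*} [Fintype Ω] [Nonempty Ω] (A : Ω → Prop) :
    pr (fun ω => ¬ A ω) = 1 - pr A := by
  have hne : (Fintype.card Ω : ℝ) ≠ 0 := by exact_mod_cast Fintype.card_ne_zero
  unfold pr
  have : ∀ ω, ind (¬ A ω) = 1 - ind (A ω) := by
    intro ω
    by_cases h : A ω
    · rw [ind_of h, ind_not (by simpa using h)]; norm_num
    · rw [ind_not h, ind_of h]; norm_num
  simp_rw [this]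
  rw [sum_sub_distrib, sub_div]
  simp [hne]

/-- probability of a prescribed pattern -/
lemma pr_pattern [Nonempty W] (F : Finset V) (π : V → W) :
    pr (fun a : V → W => ∀ v ∈ F, a v = π v) = (1 / (Fintype.card W : ℝ)) ^ F.card := by
  classical
  have hW : (Fintype.card W : ℝ) ≠ 0 := by exact_mod_cast Fintype.card_ne_zero
  have h := pr_pi (V := V) (W := W) (fun v => if v ∈ F then {π v} else univ)
  have h1 : (fun a : V → W => ∀ v, a v ∈ (if v ∈ F then ({π v} : Finset W) else univ))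
      = (fun a : V → W => ∀ v ∈ F, a v = π v) := by
    funext a
    apply propext
    constructor
    · intro hh v hv
      have := hh v
      rw [if_pos hv] at this
      simpa using this
    · intro hh v
      by_cases hv : v ∈ F
      · rw [if_pos hv]; simpa using hh v hv
      · rw [if_neg hv]; simp
  rw [h1] at h
  rw [h]
  have h2 : ∀ v, (((if v ∈ F then ({π v} : Finset W) else univ).card : ℝ) / (Fintype.card W : ℝ))
      = if v ∈ F then 1 / (Fintype.card W : ℝ) else 1 := by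
    intro v
    by_cases hv : v ∈ F
    · simp [hv]
    · simp [hv, hW]
  simp_rw [h2]
  rw [prod_ite]
  simp

end indep

variable {n h r l : ℕ} {k K : ℕ} {ω : Fin n → Lab h r l} (C : Covers k ω)

/-- the arcs which survive the coins `ξ` -/
def Dadj (ξ : Fin n × Fin n → Bool) (c w : Fin n) : Prop :=
  arr ω c w ∧ ξ (c, w) = true ∧ ∀ v ∈ C.cov c w, ξ (c, v) = false

/-- the graph defined by the coins `ξ` -/
def Gr (ξ : Fin n × Fin n → Bool) : SimpleGraph (Fin n) where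
  Adj u v := Dadj C ξ u v ∨ Dadj C ξ v u
  symm := ⟨fun _ _ hh => hh.symm⟩
  loopless := ⟨fun _ hh => by rcases hh with hh | hh <;> exact lt_irrefl _ hh.1.1⟩

lemma Gr_adj {ξ : Fin n × Fin n → Bool} {u v : Fin n} :
    (Gr C ξ).Adj u v ↔ Dadj C ξ u v ∨ Dadj C ξ v u := Iff.rfl

lemma raw_of_adj {ξ : Fin n × Fin n → Bool} {u v : Fin n} (hh : (Gr C ξ).Adj u v) :
    raw ω u v := by
  rcases hh with hh | hh
  · exact Or.inl hh.1
  · exact Or.inr hh.1

lemma Dadj_of_adj {ξ : Fin n × Fin n → Bool} {u v : Fin n} (hh : (Gr C ξ).Adj u v)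
    (hlt : v < u) : Dadj C ξ u v := by
  rcases hh with hh | hh
  · exact hh
  · exact absurd (hlt.trans hh.1.1) (lt_irrefl _)

lemma Gr_cliqueFree (ξ : Fin n × Fin n → Bool) : (Gr C ξ).CliqueFree 4 := by
  intro s hs
  rw [SimpleGraph.isNClique_iff] at hs
  obtain ⟨hcl, hcard⟩ := hs
  have hne : s.Nonempty := by
    rw [← card_pos, hcard]; norm_num
  set c := s.max' hne with hc
  have hcs : c ∈ s := s.max'_mem hne
  have h3 : (s.erase c).card = 3 := by rw [card_erase_of_mem hcs, hcard]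
  obtain ⟨w, z, u, hwz, hwu, hzu, hs3⟩ := Finset.card_eq_three.mp h3
  have hw : w ∈ s.erase c := by rw [hs3]; simp
  have hz : z ∈ s.erase c := by rw [hs3]; simp
  have hu : u ∈ s.erase c := by rw [hs3]; simp
  have lt_c : ∀ v ∈ s.erase c, v < c := by
    intro v hv
    exact lt_of_le_of_ne (s.le_max' v (mem_erase.mp hv).2) (mem_erase.mp hv).1
  have adj : ∀ a ∈ s, ∀ b ∈ s, a ≠ b → (Gr C ξ).Adj a b := by
    intro a ha b hb hab
    exact hcl ha hb hab
  have hws := (mem_erase.mp hw).2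
  have hzs := (mem_erase.mp hz).2
  have hus := (mem_erase.mp hu).2
  have dw := Dadj_of_adj C (adj c hcs w hws (mem_erase.mp hw).1.symm) (lt_c w hw)
  have dz := Dadj_of_adj C (adj c hcs z hzs (mem_erase.mp hz).1.symm) (lt_c z hz)
  have du := Dadj_of_adj C (adj c hcs u hus (mem_erase.mp hu).1.symm) (lt_c u hu)
  have hLE : LE ω c w z u := ⟨dz.1, du.1, raw_of_adj C (adj w hws z hzs hwz),
    raw_of_adj C (adj w hws u hus hwu), raw_of_adj C (adj z hzs u hus hzu)⟩
  rcases C.covers c w dw.1 z u hLE with hh | hh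
  · have e1 := dw.2.2 z hh
    have e2 := dz.2.1
    rw [e1] at e2; exact Bool.false_ne_true e2
  · have e1 := dw.2.2 u hh
    have e2 := du.2.1
    rw [e1] at e2; exact Bool.false_ne_true e2

/-- both arcs from the pair to `w` survive -/
def Both (ξ : Fin n × Fin n → Bool) (c1 c2 w : Fin n) : Prop := Dadj C ξ c1 w ∧ Dadj C ξ c2 w

/-- coordinates which decide `Both` -/
def bsupp (c1 c2 w : Fin n) : Finset (Fin n × Fin n) := {c1, c2} ×ˢ supp C c1 c2 w

lemma both_local {c1 c2 w : Fin n} {ξ ξ' : Fin n × Fin n → Bool}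
    (hh : ∀ x ∈ bsupp C c1 c2 w, ξ x = ξ' x) (hb : Both C ξ c1 c2 w) : Both C ξ' c1 c2 w := by
  obtain ⟨⟨a1, a2, a3⟩, ⟨b1, b2, b3⟩⟩ := hb
  have m1 : ∀ v ∈ supp C c1 c2 w, (c1, v) ∈ bsupp C c1 c2 w := by
    intro v hv; unfold bsupp; rw [mem_product]; exact ⟨by simp, hv⟩
  have m2 : ∀ v ∈ supp C c1 c2 w, (c2, v) ∈ bsupp C c1 c2 w := by
    intro v hv; unfold bsupp; rw [mem_product]; exact ⟨by simp, hv⟩
  have s0 : w ∈ supp C c1 c2 w := by simp [supp]
  have s1 : ∀ v ∈ C.cov c1 w, v ∈ supp C c1 c2 w := by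
    intro v hv; simp [supp, hv]
  have s2 : ∀ v ∈ C.cov c2 w, v ∈ supp C c1 c2 w := by
    intro v hv; simp [supp, hv]
  refine ⟨⟨a1, ?_, ?_⟩, ⟨b1, ?_, ?_⟩⟩
  · rw [← hh _ (m1 w s0)]; exact a2
  · intro v hv; rw [← hh _ (m1 v (s1 v hv))]; exact a3 v hv
  · rw [← hh _ (m2 w s0)]; exact b2
  · intro v hv; rw [← hh _ (m2 v (s2 v hv))]; exact b3 v hv

/-- failure probability of one vertex -/
def bb (k : ℕ) : ℝ := 1 - (1 / 2 : ℝ) ^ (2 * (1 + 4 * k))

lemma bb_nonneg : 0 ≤ bb k := by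
  unfold bb
  have : (1 / 2 : ℝ) ^ (2 * (1 + 4 * k)) ≤ 1 := pow_le_one₀ (by norm_num) (by norm_num)
  linarith

lemma both_pr {c1 c2 w : Fin n} (h1 : arr ω c1 w) (h2 : arr ω c2 w)
    (ξ : Fin n × Fin n → Bool) :
    pr (fun a => ¬ Both C ((bsupp C c1 c2 w).piecewise a ξ) c1 c2 w) ≤ bb k := by
  rw [pr_not (fun a => Both C ((bsupp C c1 c2 w).piecewise a ξ) c1 c2 w)]
  unfold bb
  have hcard : (bsupp C c1 c2 w).card ≤ 2 * (1 + 4 * k) := by
    unfold bsupp
    rw [card_product]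
    have e1 : ({c1, c2} : Finset (Fin n)).card ≤ 2 := card_le_two
    exact Nat.mul_le_mul e1 (supp_card C c1 c2 w)
  have hpat := pr_pattern (V := Fin n × Fin n) (W := Bool) (bsupp C c1 c2 w)
    (fun x => if x.2 = w then true else false)
  have hle : pr (fun a : Fin n × Fin n → Bool => ∀ v ∈ bsupp C c1 c2 w,
      a v = (if v.2 = w then true else false))
      ≤ pr (fun a => Both C ((bsupp C c1 c2 w).piecewise a ξ) c1 c2 w) := by
    apply pr_mono
    intro a ha
    have m1 : ∀ v ∈ supp C c1 c2 w, (c1, v) ∈ bsupp C c1 c2 w := by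
      intro v hv; unfold bsupp; rw [mem_product]; exact ⟨by simp, hv⟩
    have m2 : ∀ v ∈ supp C c1 c2 w, (c2, v) ∈ bsupp C c1 c2 w := by
      intro v hv; unfold bsupp; rw [mem_product]; exact ⟨by simp, hv⟩
    have s0 : w ∈ supp C c1 c2 w := by simp [supp]
    have s1 : ∀ v ∈ C.cov c1 w, v ∈ supp C c1 c2 w := by
      intro v hv; simp [supp, hv]
    have s2 : ∀ v ∈ C.cov c2 w, v ∈ supp C c1 c2 w := by
      intro v hv; simp [supp, hv]
    refine ⟨⟨h1, ?_, ?_⟩, ⟨h2, ?_, ?_⟩⟩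
    · rw [Finset.piecewise_eq_of_mem _ _ _ (m1 w s0), ha _ (m1 w s0)]; simp
    · intro v hv
      rw [Finset.piecewise_eq_of_mem _ _ _ (m1 v (s1 v hv)), ha _ (m1 v (s1 v hv))]
      simp [cov_ne C hv]
    · rw [Finset.piecewise_eq_of_mem _ _ _ (m2 w s0), ha _ (m2 w s0)]; simp
    · intro v hv
      rw [Finset.piecewise_eq_of_mem _ _ _ (m2 v (s2 v hv)), ha _ (m2 v (s2 v hv))]
      simp [cov_ne C hv]
  rw [hpat] at hle
  have h3 : (1 / 2 : ℝ) ^ (2 * (1 + 4 * k)) ≤ (1 / (Fintype.card Bool : ℝ)) ^ (bsupp C c1 c2 w).card := by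
    rw [Fintype.card_bool]
    push_cast
    exact pow_le_pow_of_le_one (by norm_num) (by norm_num) hcard
  linarith

lemma pairs_fail {S : Finset (Fin n)} {m t J : ℕ} (p : Pairs C S m (t * J)) :
    pr (fun ξ : Fin n × Fin n → Bool => ∀ a, ¬ ∃ T ⊆ p.I a, T.card = t ∧
      ∀ w ∈ T, Both C ξ (p.c1 a) (p.c2 a) w)
      ≤ (t : ℝ) ^ m * bb k ^ (m * J) := by
  classical
  have he : ∀ a, ∃ e : Fin t × Fin J → Fin n, Function.Injective e ∧ ∀ x, e x ∈ p.I a := by
    intro a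
    obtain ⟨e, he, hmem⟩ := exists_inj_of_le_card (p.big a)
    exact ⟨fun x => e (finProdFinEquiv x), fun x y hxy => finProdFinEquiv.injective (he hxy),
      fun x => hmem _⟩
  choose e he1 he2 using he
  have h1 : pr (fun ξ : Fin n × Fin n → Bool => ∀ a, ¬ ∃ T ⊆ p.I a, T.card = t ∧
      ∀ w ∈ T, Both C ξ (p.c1 a) (p.c2 a) w)
      ≤ pr (fun ξ : Fin n × Fin n → Bool => ∃ β : Fin m → Fin t,
        ∀ x ∈ (univ : Finset (Fin m × Fin J)),
          ¬ Both C ξ (p.c1 x.1) (p.c2 x.1) (e x.1 (β x.1, x.2))) := by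
    apply pr_mono
    intro ξ hξ
    have hb : ∀ a, ∃ b : Fin t, ∀ s : Fin J, ¬ Both C ξ (p.c1 a) (p.c2 a) (e a (b, s)) := by
      intro a
      by_contra hcon
      push Not at hcon
      choose s hs using hcon
      apply hξ a
      refine ⟨univ.image (fun b => e a (b, s b)), ?_, ?_, ?_⟩
      · intro w hw
        obtain ⟨b, _, rfl⟩ := mem_image.mp hw
        exact he2 a _
      · rw [card_image_of_injective, card_univ, Fintype.card_fin]
        intro b b' hbb
        have := he1 a hbb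
        exact (Prod.mk.inj this).1
      · intro w hw
        obtain ⟨b, _, rfl⟩ := mem_image.mp hw
        exact hs b
    choose β hβ using hb
    exact ⟨β, fun x _ => hβ x.1 x.2⟩
  refine h1.trans ?_
  have h2 : ∀ β : Fin m → Fin t, pr (fun ξ : Fin n × Fin n → Bool =>
        ∀ x ∈ (univ : Finset (Fin m × Fin J)),
          ¬ Both C ξ (p.c1 x.1) (p.c2 x.1) (e x.1 (β x.1, x.2))) ≤ bb k ^ (m * J) := by
    intro β
    have := pr_indep (V := Fin n × Fin n) (W := Bool) (ι := Fin m × Fin J)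
      (fun x => bsupp C (p.c1 x.1) (p.c2 x.1) (e x.1 (β x.1, x.2)))
      (fun x ξ => ¬ Both C ξ (p.c1 x.1) (p.c2 x.1) (e x.1 (β x.1, x.2)))
      (bb k) bb_nonneg univ ?_ ?_
    · rw [card_univ, Fintype.card_prod, Fintype.card_fin, Fintype.card_fin] at this
      exact this
    · intro x _ y _ hxy ξ a hx hcon
      apply hx
      refine both_local C ?_ hcon
      intro v hv
      apply Finset.piecewise_eq_of_notMem
      intro hv'
      unfold bsupp at hv hv'
      rw [mem_product] at hv hv'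
      by_cases hxy1 : x.1 = y.1
      · have hxy2 : x.2 ≠ y.2 := fun hh => hxy (Prod.ext hxy1 hh)
        have hne : e x.1 (β x.1, x.2) ≠ e y.1 (β y.1, y.2) := by
          rw [hxy1]
          intro hh
          have := he1 _ hh
          exact hxy2 (Prod.mk.inj this).2
        have hd := p.disj x.1 _ (he2 x.1 (β x.1, x.2)) (e y.1 (β y.1, y.2))
          (by rw [hxy1]; exact he2 y.1 (β y.1, y.2)) hne
        have hv2 := hv'.2
        rw [← hxy1] at hv2
        rw [← hxy1] at hd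
        exact (Finset.disjoint_left.mp hd) hv.2 hv2
      · have hv1 := hv.1
        have hv1' := hv'.1
        rw [mem_insert, mem_singleton] at hv1 hv1'
        rcases hv1 with hv1 | hv1 <;> rcases hv1' with hv1' | hv1'
        · exact hxy1 (p.inj1 (hv1.symm.trans hv1'))
        · exact p.ne _ _ (hv1.symm.trans hv1')
        · exact p.ne _ _ (hv1'.symm.trans hv1)
        · exact hxy1 (p.inj2 (hv1.symm.trans hv1'))
    · intro x _ ξ
      exact both_pr C (p.arr1 x.1 _ (he2 _ _)) (p.arr2 x.1 _ (he2 _ _)) ξ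
  have := pr_exists_le_const _ _ h2
  rw [Fintype.card_fun, Fintype.card_fin, Fintype.card_fin] at this
  exact_mod_cast this

/-- the outcome of the coin stage -/
theorem coin_stage {M K5 k1 s2 L t J : ℕ} (h1 : PropR1 (4 * M) L k1 s2 ω) (h2 : PropR2 k ω)
    (h3 : PropR3 K ω)
    (hK : 1 ≤ K) (h5 : PropR5 K5 ω) (hL : Dc k K * (t * J) + 2 * (k1 * K5) ≤ L)
    (hsmall : ((n : ℝ) ^ 12) ^ M * (((t : ℝ) * bb k ^ J) ^ 2) ^ M < 1) :
    ∃ G : SimpleGraph (Fin n), G.CliqueFree 4 ∧ ∀ S : Finset (Fin n), S.card = 12 * M →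
      ∃ c1 ∈ S, ∃ c2 ∈ S, c1 ≠ c2 ∧ ∃ T ⊆ S, T.card = t ∧ ∀ w ∈ T, G.Adj c1 w ∧ G.Adj c2 w := by
  classical
  obtain ⟨C⟩ := exists_covers h2
  have hD : 0 < Dc k K := by unfold Dc; positivity
  have hp : ∀ S : Finset (Fin n), S.card = 12 * M → Nonempty (Pairs C S (2 * M) (t * J)) :=
    fun S hS => exists_pairs C h1 h3 hK h5 hL hD S hS
  have hfail : ∀ S ∈ (univ : Finset (Fin n)).powersetCard (12 * M),
      pr (fun ξ : Fin n × Fin n → Bool => ¬ ∃ c1 ∈ S, ∃ c2 ∈ S, c1 ≠ c2 ∧ ∃ T ⊆ S,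
        T.card = t ∧ ∀ w ∈ T, Both C ξ c1 c2 w) ≤ (t : ℝ) ^ (2 * M) * bb k ^ (2 * M * J) := by
    intro S hS
    obtain ⟨p⟩ := hp S (mem_powersetCard.mp hS).2
    refine le_trans (pr_mono ?_) (pairs_fail C p)
    intro ξ hξ a hcon
    obtain ⟨T, hT, hTc, hTb⟩ := hcon
    exact hξ ⟨p.c1 a, p.mem1 a, p.c2 a, p.mem2 a, p.ne a a, T,
      fun w hw => p.sub a w (hT hw), hTc, hTb⟩
  have hunion := pr_exists_mem_le_const _ _ _ hfail
  have hlt : pr (fun ξ : Fin n × Fin n → Bool => ∃ S ∈ (univ : Finset (Fin n)).powersetCard (12 * M),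
      ¬ ∃ c1 ∈ S, ∃ c2 ∈ S, c1 ≠ c2 ∧ ∃ T ⊆ S,
        T.card = t ∧ ∀ w ∈ T, Both C ξ c1 c2 w) < 1 := by
    refine lt_of_le_of_lt hunion (lt_of_le_of_lt ?_ hsmall)
    rw [card_powersetCard, card_univ, Fintype.card_fin]
    have e1 : ((n.choose (12 * M) : ℕ) : ℝ) ≤ ((n : ℝ) ^ 12) ^ M := by
      rw [← pow_mul]
      exact_mod_cast Nat.choose_le_pow n (12 * M)
    have e2 : (t : ℝ) ^ (2 * M) * bb k ^ (2 * M * J) = (((t : ℝ) * bb k ^ J) ^ 2) ^ M := by
      rw [← pow_mul, mul_pow, ← pow_mul]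
      congr 2
      ring
    rw [e2]
    apply mul_le_mul_of_nonneg_right e1
    positivity
  obtain ⟨ξ, hξ⟩ := exists_not_of_pr_lt_one hlt
  refine ⟨Gr C ξ, Gr_cliqueFree C ξ, ?_⟩
  intro S hS
  by_contra hcon
  apply hξ
  refine ⟨S, mem_powersetCard.mpr ⟨subset_univ _, hS⟩, ?_⟩
  rintro ⟨c1, hc1, c2, hc2, hne, T, hT, hTc, hTb⟩
  exact hcon ⟨c1, hc1, c2, hc2, hne, T, hT, hTc, fun w hw => ⟨Or.inl (hTb w hw).1,
    Or.inl (hTb w hw).2⟩⟩

end

end Pool.Agent.TH468
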