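import Pool.Agent.TH468.Good

set_option autoImplicit false
set_option linter.unusedSectionVars false

/-!
# Collisions: two vertices of a set share a label which is common to many older vertices
-/

namespace Pool.Agent.TH468

open Finset

noncomputable section

variable {N n h r l : ℕ}

/-- the first `L` elements -/
lemma rank_card (A : Finset (Fin N)) (L : ℕ) :
    (A.filter (fun i => (A.filter (· < i)).card < L)).card = min L A.card := by
  induction A using Finset.induction_on_max with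
  | empty => simp
  | insert a s ha ih =>
    have has : a ∉ s := fun h => lt_irrefl _ (ha a h)
    have h1 : ∀ i ∈ s, (insert a s).filter (· < i) = s.filter (· < i) := by
      intro i hi
      rw [filter_insert, if_neg (not_lt.mpr (ha i hi).le)]
    have h2 : (insert a s).filter (· < a) = s := by
      rw [filter_insert, if_neg (lt_irrefl a)]
      exact filter_true_of_mem ha
    have h3 : s.filter (fun i => ((insert a s).filter (· < i)).card < L)
        = s.filter (fun i => (s.filter (· < i)).card < L) := by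
      apply filter_congr
      intro i hi
      rw [h1 i hi]
    rw [filter_insert, h2, h3, card_insert_of_notMem has]
    by_cases hL : s.card < L
    · rw [if_pos hL, card_insert_of_notMem (by simp [has]), ih]
      omega
    · rw [if_neg hL, ih]
      omega

/-- number of earlier occurrences of a label -/
def cnt (a : Fin N → Lab h r l) (P : Fin l) (i : Fin N) : ℕ :=
  (univ.filter (fun j => j < i ∧ P ∈ LY (a j))).card

/-- labels which occurred fewer than `L` times before `i` -/
def useen (L : ℕ) (a : Fin N → Lab h r l) (i : Fin N) : Finset (Fin l) :=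
  univ.filter (fun P => cnt a P i < L)

/-- labels which occur at least `L` times -/
def gset (L : ℕ) (a : Fin N → Lab h r l) : Finset (Fin l) :=
  univ.filter (fun P => L ≤ (univ.filter (fun j => P ∈ LY (a j))).card)

/-- first `L` occurrences of a label -/
def tset (L : ℕ) (a : Fin N → Lab h r l) (P : Fin l) : Finset (Fin N) :=
  univ.filter (fun i => P ∈ LY (a i) ∧ cnt a P i < L)

/-- first-kind labels of the first `L` occurrences -/
def fset (L : ℕ) (a : Fin N → Lab h r l) (P : Fin l) : Finset (Fin l) :=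
  (tset L a P).biUnion (fun i => LX (a i))

lemma tset_card (L : ℕ) (a : Fin N → Lab h r l) (P : Fin l) :
    (tset L a P).card = min L (univ.filter (fun j => P ∈ LY (a j))).card := by
  rw [← rank_card]
  have hc : ∀ i : Fin N, cnt a P i
      = ((univ.filter (fun j => P ∈ LY (a j))).filter (· < i)).card := by
    intro i
    unfold cnt
    congr 1
    ext j
    simp [and_comm]
  congr 1
  ext i
  unfold tset
  rw [mem_filter, mem_filter, mem_filter, hc i]
  simp

lemma tset_card_le (L : ℕ) (a : Fin N → Lab h r l) (P : Fin l) :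
    (tset L a P).card ≤ L := by
  rw [tset_card]; exact min_le_left _ _

lemma tset_card_eq {L : ℕ} {a : Fin N → Lab h r l} {P : Fin l} (hP : P ∈ gset L a) :
    (tset L a P).card = L := by
  rw [tset_card]
  simp only [gset, mem_filter, mem_univ, true_and] at hP
  exact min_eq_left hP

lemma fset_card_le (L : ℕ) (a : Fin N → Lab h r l) (P : Fin l) :
    (fset L a P).card ≤ L * h := by
  unfold fset
  refine card_biUnion_le.trans ?_
  calc ∑ i ∈ tset L a P, (LX (a i)).card ≤ ∑ _i ∈ tset L a P, h :=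
        sum_le_sum (fun i _ => card_LX_le _)
    _ = (tset L a P).card * h := by simp
    _ ≤ _ := Nat.mul_le_mul_right _ (tset_card_le L a P)

/-- bad event for the older set -/
def bad1 (L s1 : ℕ) (a : Fin N → Lab h r l) (i : Fin N) : Prop :=
  l ≤ 2 * (useen L a i).card ∧ (LY (a i) ∩ useen L a i).card ≤ s1

lemma useen_congr {L : ℕ} {a a' : Fin N → Lab h r l} {i : Fin N}
    (hh : ∀ j, j < i → a j = a' j) : useen L a i = useen L a' i := by
  unfold useen cnt
  apply filter_congr
  intro P _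
  have : (univ.filter (fun j => j < i ∧ P ∈ LY (a j)))
      = (univ.filter (fun j => j < i ∧ P ∈ LY (a' j))) := by
    apply filter_congr
    intro j _
    constructor
    · rintro ⟨h1, h2⟩; rw [hh j h1] at h2; exact ⟨h1, h2⟩
    · rintro ⟨h1, h2⟩; rw [← hh j h1] at h2; exact ⟨h1, h2⟩
  rw [this]

open Classical in
lemma claimA {M L s1 : ℕ} (a : Fin (4 * M) → Lab h r l) (hg : 2 * (gset L a).card < l)
    (hL : l * L < (s1 + 1) * (3 * M)) :
    M ≤ (univ.filter (fun i => bad1 L s1 a i)).card := by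
  by_contra hcon
  push Not at hcon
  have hU : ∀ i, l ≤ 2 * (useen L a i).card := by
    intro i
    have h1 : (gset L a)ᶜ ⊆ useen L a i := by
      intro P hP
      simp only [gset, useen, mem_compl, mem_filter, mem_univ, true_and, not_le] at hP ⊢
      refine lt_of_le_of_lt ?_ hP
      unfold cnt
      apply card_le_card
      intro j hj
      simp only [mem_filter, mem_univ, true_and] at hj ⊢
      exact hj.2
    have h2 := card_le_card h1
    rw [card_compl, Fintype.card_fin] at h2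
    omega
  have h3 : 3 * M < (univ.filter (fun i => ¬ bad1 L s1 a i)).card := by
    have := card_filter_add_card_filter_not (s := (univ : Finset (Fin (4 * M))))
      (fun i => bad1 L s1 a i)
    rw [card_univ, Fintype.card_fin] at this
    omega
  have h4 : ∀ i ∈ univ.filter (fun i => ¬ bad1 L s1 a i), s1 + 1 ≤ (LY (a i) ∩ useen L a i).card := by
    intro i hi
    simp only [mem_filter, mem_univ, true_and, bad1, not_and, not_le] at hi
    exact hi (hU i)
  have h5 : (s1 + 1) * (3 * M) ≤ ∑ i, (LY (a i) ∩ useen L a i).card := by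
    calc (s1 + 1) * (3 * M) ≤ (s1 + 1) * (univ.filter (fun i => ¬ bad1 L s1 a i)).card :=
          Nat.mul_le_mul_left _ h3.le
      _ = ∑ i ∈ univ.filter (fun i => ¬ bad1 L s1 a i), (s1 + 1) := by simp [mul_comm]
      _ ≤ ∑ i ∈ univ.filter (fun i => ¬ bad1 L s1 a i), (LY (a i) ∩ useen L a i).card :=
          sum_le_sum h4
      _ ≤ _ := sum_le_sum_of_subset (subset_univ _)
  have h6 : ∑ i, (LY (a i) ∩ useen L a i).card = ∑ P, (tset L a P).card := by
    have e1 : ∀ i, (LY (a i) ∩ useen L a i).card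
        = ∑ P : Fin l, if P ∈ LY (a i) ∧ cnt a P i < L then 1 else 0 := by
      intro i
      rw [← card_filter]
      congr 1
      ext P
      simp [useen]
    have e2 : ∀ P, (tset L a P).card
        = ∑ i : Fin (4 * M), if P ∈ LY (a i) ∧ cnt a P i < L then 1 else 0 := by
      intro P
      rw [← card_filter]
      rfl
    simp_rw [e1, e2]
    exact sum_comm
  have h7 : ∑ P, (tset L a P).card ≤ l * L := by
    calc ∑ P, (tset L a P).card ≤ ∑ _P : Fin l, L := sum_le_sum (fun P _ => tset_card_le L a P)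
      _ = l * L := by simp
  omega

/-- no label of the vertex is attached to many of its other labels -/
def cleanL (k1 : ℕ) (F : Fin l → Finset (Fin l)) (x : Lab h r l) : Prop :=
  ∀ P ∈ LX x, (LX x ∩ F P).card ≤ k1

/-- clean with many labels in `G` -/
def richL (k1 s2 : ℕ) (G : Finset (Fin l)) (F : Fin l → Finset (Fin l)) (x : Lab h r l) : Prop :=
  cleanL k1 F x ∧ s2 < (LX x ∩ G).card

open Classical in
/-- labels in `G` of earlier rich vertices -/
def est (k1 s2 : ℕ) (G : Finset (Fin l)) (F : Fin l → Finset (Fin l)) (b : Fin N → Lab h r l)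
    (i : Fin N) : Finset (Fin l) :=
  (univ.filter (fun j => j < i ∧ richL k1 s2 G F (b j))).biUnion (fun j => LX (b j) ∩ G)

lemma est_congr {k1 s2 : ℕ} {G : Finset (Fin l)} {F : Fin l → Finset (Fin l)}
    {b b' : Fin N → Lab h r l} {i : Fin N}
    (hh : ∀ j, j < i → b j = b' j) : est k1 s2 G F b i = est k1 s2 G F b' i := by
  classical
  ext P
  unfold est
  simp only [mem_biUnion, mem_filter, mem_univ, true_and]
  constructor
  · rintro ⟨j, ⟨h1, h2⟩, h3⟩
    rw [hh j h1] at h2 h3
    exact ⟨j, ⟨h1, h2⟩, h3⟩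
  · rintro ⟨j, ⟨h1, h2⟩, h3⟩
    rw [← hh j h1] at h2 h3
    exact ⟨j, ⟨h1, h2⟩, h3⟩

/-- bad event for the newer set; `E` is the size of the established set of labels -/
def bad2 (k1 s2 E : ℕ) (G : Finset (Fin l)) (F : Fin l → Finset (Fin l))
    (b : Fin N → Lab h r l) (i : Fin N) : Prop :=
  ¬ cleanL k1 F (b i) ∨ (LX (b i) ∩ G).card ≤ s2 ∨
    (E ≤ (est k1 s2 G F b i).card ∧ ∀ P ∈ LX (b i), P ∉ est k1 s2 G F b i)

open Classical in
lemma claimB {M k1 s2 : ℕ} (G : Finset (Fin l)) (F : Fin l → Finset (Fin l))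
    (b : Fin (4 * M) → Lab h r l)
    (hno : ∀ i j, i ≠ j → richL k1 s2 G F (b i) → richL k1 s2 G F (b j) →
      ∀ P ∈ G, ¬ (P ∈ LX (b i) ∧ P ∈ LX (b j))) :
    M ≤ (univ.filter (fun i => bad2 k1 s2 ((s2 + 1) * M) G F b i)).card := by
  set R := univ.filter (fun i => richL k1 s2 G F (b i)) with hR
  have hnr : ∀ i, i ∉ R → bad2 k1 s2 ((s2 + 1) * M) G F b i := by
    intro i hi
    by_cases hc : cleanL k1 F (b i)
    · right; left
      by_contra hlt
      push Not at hlt
      exact hi (by rw [hR, mem_filter]; exact ⟨mem_univ _, hc, hlt⟩)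
    · exact Or.inl hc
  by_cases hcase : R.card ≤ 3 * M
  · have h1 : Rᶜ ⊆ univ.filter (fun i => bad2 k1 s2 ((s2 + 1) * M) G F b i) := by
      intro i hi
      simp only [mem_filter, mem_univ, true_and]
      exact hnr i (by simpa using hi)
    have h2 := card_le_card h1
    rw [card_compl, Fintype.card_fin] at h2
    omega
  · push Not at hcase
    have h1 : R.filter (fun i => ¬ (R.filter (· < i)).card < M)
        ⊆ univ.filter (fun i => bad2 k1 s2 ((s2 + 1) * M) G F b i) := by
      intro i hi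
      simp only [mem_filter, not_lt] at hi
      obtain ⟨hiR, hrank⟩ := hi
      have hiR' : richL k1 s2 G F (b i) := by simpa [hR] using hiR
      simp only [mem_filter, mem_univ, true_and]
      right; right
      constructor
      · unfold est
        have e1 : (univ.filter (fun j => j < i ∧ richL k1 s2 G F (b j))) = R.filter (· < i) := by
          ext j; simp [hR, and_comm]
        rw [e1, card_biUnion]
        · calc (s2 + 1) * M ≤ (s2 + 1) * (R.filter (· < i)).card := Nat.mul_le_mul_left _ hrank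
            _ = ∑ _j ∈ R.filter (· < i), (s2 + 1) := by simp [mul_comm]
            _ ≤ _ := by
              apply sum_le_sum
              intro j hj
              have : richL k1 s2 G F (b j) := by simpa [hR] using (mem_filter.mp hj).1
              exact this.2
        · intro j hj j' hj' hne
          have r1 : richL k1 s2 G F (b j) := by simpa [hR] using (mem_filter.mp hj).1
          have r2 : richL k1 s2 G F (b j') := by simpa [hR] using (mem_filter.mp hj').1
          have hdis : Disjoint (LX (b j) ∩ G) (LX (b j') ∩ G) := by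
            rw [Finset.disjoint_left]
            intro P hP hP'
            rw [mem_inter] at hP hP'
            exact hno j j' hne r1 r2 P hP.2 ⟨hP.1, hP'.1⟩
          exact hdis
      · intro P hP hPe
        unfold est at hPe
        simp only [mem_biUnion, mem_filter, mem_univ, true_and, mem_inter] at hPe
        obtain ⟨j, ⟨hj1, hj2⟩, hj3, hj4⟩ := hPe
        exact hno i j (ne_of_gt hj1) hiR' hj2 P hj4 ⟨hP, hj3⟩
    have h2 := card_le_card h1
    have h3 := rank_card R M
    have h4 := card_filter_add_card_filter_not (s := R)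
      (fun i => (R.filter (· < i)).card < M)
    rw [h3] at h4
    have h5 : min M R.card ≤ M := min_le_left _ _
    omega

section bounds

variable [NeZero l]

/-- counting lemma: many bad events are unlikely -/
lemma pr_count_rel (v : Fin N → Fin n) (A : (Fin n → Lab h r l) → Prop)
    (bad : Fin N → (Fin n → Lab h r l) → Prop) (β : ℝ) (hβ : 0 ≤ β) (M : ℕ)
    (hA : ∀ i, ∀ ω x, A ω → A (Function.update ω (v i) x))
    (hloc : ∀ i j, i < j → ∀ ω x, bad i ω → bad i (Function.update ω (v j) x))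
    (hcond : ∀ i, ∀ ω, A ω → pr (fun x : Lab h r l => bad i (Function.update ω (v i) x)) ≤ β) :
    pr (fun ω => A ω ∧ ∃ U : Finset (Fin N), U.card = M ∧ ∀ i ∈ U, bad i ω) ≤ 2 ^ N * β ^ M := by
  have h1 : pr (fun ω => A ω ∧ ∃ U : Finset (Fin N), U.card = M ∧ ∀ i ∈ U, bad i ω)
      ≤ pr (fun ω => ∃ U ∈ (univ : Finset (Fin N)).powersetCard M, (A ω ∧ ∀ i ∈ U, bad i ω)) := by
    apply pr_mono
    rintro ω ⟨hω, U, hU, hb⟩
    exact ⟨U, mem_powersetCard.mpr ⟨subset_univ _, hU⟩, hω, hb⟩
  refine h1.trans ?_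
  refine (pr_exists_mem_le_const _ _ (β ^ M) ?_).trans ?_
  · intro U hU
    have hUc := (mem_powersetCard.mp hU).2
    have := pr_chain_single_rel v A bad (fun _ => β) (fun _ => hβ) U
      (fun i _ => hA i) (fun i _ j _ => hloc i j) (fun i _ => hcond i)
    rw [prod_const, hUc] at this
    calc _ ≤ _ := this
      _ ≤ β ^ M * 1 := mul_le_mul_of_nonneg_left (pr_le_one _) (pow_nonneg hβ _)
      _ = _ := mul_one _
  · apply mul_le_mul_of_nonneg_right _ (pow_nonneg hβ _)
    rw [card_powersetCard, card_univ, Fintype.card_fin]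
    exact_mod_cast Nat.choose_le_two_pow N M

/-- conditional probability for the older set -/
def b1 (r l s1 : ℕ) : ℝ := (l : ℝ) ^ s1 * (((l : ℝ) / 2 + s1) / (l : ℝ)) ^ r

lemma b1_nonneg {s1 : ℕ} : 0 ≤ b1 r l s1 := by unfold b1; positivity

lemma pr_bad1 (s1 : ℕ) (U : Finset (Fin l)) (hU : l ≤ 2 * U.card) :
    pr (fun x : Lab h r l => (LY x ∩ U).card ≤ s1) ≤ b1 r l s1 := by
  have h0 : pr (fun x : Lab h r l => (LY x ∩ U).card ≤ s1)
      ≤ pr (fun x : Lab h r l => (fun y : Fin r → Fin l => (univ.image y ∩ U).card ≤ s1) x.2) :=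
    pr_mono (fun x hx => hx)
  rw [pr_snd (fun y : Fin r → Fin l => (univ.image y ∩ U).card ≤ s1)] at h0
  refine h0.trans ((pr_few_labels s1 U).trans ?_)
  rw [Fintype.card_fin, Fintype.card_fin]
  unfold b1
  apply mul_le_mul_of_nonneg_left _ (by positivity)
  have hUl : (U.card : ℝ) ≤ l := by
    have := card_le_univ U
    rw [Fintype.card_fin] at this
    exact_mod_cast this
  have hU' : (l : ℝ) ≤ 2 * U.card := by exact_mod_cast hU
  apply pow_le_pow_left₀
  · apply div_nonneg _ (by positivity)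
    have : (0:ℝ) ≤ s1 := by positivity
    linarith
  · apply div_le_div_of_nonneg_right _ (by positivity)
    linarith

/-- conditional probability for the newer set -/
def b2 (h l L s2 k1 E : ℕ) : ℝ :=
  (h : ℝ) * ((h : ℝ) * ((L : ℝ) * (h : ℝ)) / (l : ℝ)) ^ k1 +
    ((l : ℝ) ^ s2 * (((l : ℝ) / 2 + s2) / (l : ℝ)) ^ h + (1 - (E : ℝ) / (l : ℝ)) ^ h)

lemma pr_bad2 (L s2 k1 E : ℕ) (hE : E ≤ l) (G : Finset (Fin l)) (hG : l ≤ 2 * G.card)
    (F : Fin l → Finset (Fin l)) (hF : ∀ P, (F P).card ≤ L * h) (Est : Finset (Fin l)) :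
    pr (fun x : Lab h r l => ¬ cleanL k1 F x ∨ (LX x ∩ G).card ≤ s2 ∨
      (E ≤ Est.card ∧ ∀ P ∈ LX x, P ∉ Est)) ≤ b2 h l L s2 k1 E := by
  have hl : (0:ℝ) < l := by
    have := NeZero.pos l
    exact_mod_cast this
  refine (pr_or_le _ _).trans (add_le_add ?_ ((pr_or_le _ _).trans (add_le_add ?_ ?_)))
  · have h0 : pr (fun x : Lab h r l => ¬ cleanL k1 F x)
      ≤ pr (fun x : Lab h r l => (fun y : Fin h → Fin l =>
        ∃ P ∈ univ.image y, k1 + 1 ≤ (univ.image y ∩ F P).card) x.1) := by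
      apply pr_mono
      intro x hx
      unfold cleanL at hx
      push Not at hx
      exact hx
    rw [pr_fst (fun y : Fin h → Fin l =>
        ∃ P ∈ univ.image y, k1 + 1 ≤ (univ.image y ∩ F P).card)] at h0
    refine h0.trans ((pr_unclean k1 F ((L : ℝ) * h) (fun P => by exact_mod_cast hF P)
      (by positivity)).trans ?_)
    rw [Fintype.card_fin, Fintype.card_fin]
  · have h0 : pr (fun x : Lab h r l => (LX x ∩ G).card ≤ s2)
      ≤ pr (fun x : Lab h r l => (fun y : Fin h → Fin l => (univ.image y ∩ G).card ≤ s2) x.1) :=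
      pr_mono (fun x hx => hx)
    rw [pr_fst (fun y : Fin h → Fin l => (univ.image y ∩ G).card ≤ s2)] at h0
    refine h0.trans ((pr_few_labels s2 G).trans ?_)
    rw [Fintype.card_fin, Fintype.card_fin]
    apply mul_le_mul_of_nonneg_left _ (by positivity)
    have hUl : (G.card : ℝ) ≤ l := by
      have := card_le_univ G
      rw [Fintype.card_fin] at this
      exact_mod_cast this
    have hU' : (l : ℝ) ≤ 2 * G.card := by exact_mod_cast hG
    apply pow_le_pow_left₀
    · apply div_nonneg _ (by positivity)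
      have : (0:ℝ) ≤ s2 := by positivity
      linarith
    · apply div_le_div_of_nonneg_right _ (by positivity)
      linarith
  · by_cases hEst : E ≤ Est.card
    · have h0 : pr (fun x : Lab h r l => E ≤ Est.card ∧ ∀ P ∈ LX x, P ∉ Est)
        ≤ pr (fun x : Lab h r l => (fun y : Fin h → Fin l => ∀ j, y j ∉ Est) x.1) := by
        apply pr_mono
        rintro x ⟨_, hx⟩ j
        exact hx _ (mem_LX.mpr ⟨j, rfl⟩)
      rw [pr_fst (fun y : Fin h → Fin l => ∀ j, y j ∉ Est)] at h0
      refine h0.trans ?_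
      rw [pr_avoid, Fintype.card_fin, Fintype.card_fin]
      have hUl : (Est.card : ℝ) ≤ l := by
        have := card_le_univ Est
        rw [Fintype.card_fin] at this
        exact_mod_cast this
      have hE' : (E : ℝ) ≤ Est.card := by exact_mod_cast hEst
      apply pow_le_pow_left₀
      · apply div_nonneg _ hl.le
        linarith
      · rw [sub_div, div_self hl.ne']
        have : (E : ℝ) / l ≤ (Est.card : ℝ) / l := div_le_div_of_nonneg_right hE' hl.le
        linarith
    · rw [pr_of_false (by intro x hx; exact hEst hx.1)]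
      apply pow_nonneg
      have : (E : ℝ) / l ≤ 1 := by
        rw [div_le_one hl]; exact_mod_cast hE
      linarith

/-- the collision property -/
def PropR1 (N L k1 s2 : ℕ) (ω : Fin n → Lab h r l) : Prop :=
  ∀ σ τ : Fin N → Fin n, Function.Injective σ → Function.Injective τ → (∀ i j, σ i ≠ τ j) →
    ∃ i j, i ≠ j ∧ richL k1 s2 (gset L (ω ∘ σ)) (fset L (ω ∘ σ)) (ω (τ i)) ∧
      richL k1 s2 (gset L (ω ∘ σ)) (fset L (ω ∘ σ)) (ω (τ j)) ∧
      ∃ P ∈ gset L (ω ∘ σ), P ∈ LX (ω (τ i)) ∧ P ∈ LX (ω (τ j))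

lemma update_comp_of_ne {N : ℕ} (σ : Fin N → Fin n) (v : Fin n) (hv : ∀ i, σ i ≠ v)
    (ω : Fin n → Lab h r l) (x : Lab h r l) : (Function.update ω v x) ∘ σ = ω ∘ σ := by
  funext i
  simp [Function.update_of_ne (hv i)]

lemma prR1_config {M : ℕ} (L k1 s1 s2 : ℕ) (hL : l * L < (s1 + 1) * (3 * M))
    (hE : (s2 + 1) * M ≤ l)
    (σ τ : Fin (4 * M) → Fin n) (hσ : Function.Injective σ) (hτ : Function.Injective τ)
    (hστ : ∀ i j, σ i ≠ τ j) :
    pr (fun ω : Fin n → Lab h r l => ¬ ∃ i j, i ≠ j ∧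
      richL k1 s2 (gset L (ω ∘ σ)) (fset L (ω ∘ σ)) (ω (τ i)) ∧
      richL k1 s2 (gset L (ω ∘ σ)) (fset L (ω ∘ σ)) (ω (τ j)) ∧
      ∃ P ∈ gset L (ω ∘ σ), P ∈ LX (ω (τ i)) ∧ P ∈ LX (ω (τ j)))
    ≤ 2 ^ (4 * M) * (b1 r l s1) ^ M + 2 ^ (4 * M) * (b2 h l L s2 k1 ((s2 + 1) * M)) ^ M := by
  classical
  have h1 : pr (fun ω : Fin n → Lab h r l => ¬ ∃ i j, i ≠ j ∧
      richL k1 s2 (gset L (ω ∘ σ)) (fset L (ω ∘ σ)) (ω (τ i)) ∧
      richL k1 s2 (gset L (ω ∘ σ)) (fset L (ω ∘ σ)) (ω (τ j)) ∧
      ∃ P ∈ gset L (ω ∘ σ), P ∈ LX (ω (τ i)) ∧ P ∈ LX (ω (τ j)))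
      ≤ pr (fun ω : Fin n → Lab h r l =>
        (True ∧ ∃ U : Finset (Fin (4 * M)), U.card = M ∧ ∀ i ∈ U, bad1 L s1 (ω ∘ σ) i) ∨
        (l ≤ 2 * (gset L (ω ∘ σ)).card ∧ ∃ U : Finset (Fin (4 * M)), U.card = M ∧ ∀ i ∈ U,
          bad2 k1 s2 ((s2 + 1) * M) (gset L (ω ∘ σ)) (fset L (ω ∘ σ)) (ω ∘ τ) i)) := by
    apply pr_mono
    intro ω hω
    by_cases hg : 2 * (gset L (ω ∘ σ)).card < l
    · left
      obtain ⟨U, hU, hUc⟩ := Finset.exists_subset_card_eq (claimA (s1 := s1) (ω ∘ σ) hg hL)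
      exact ⟨trivial, U, hUc, fun i hi => (mem_filter.mp (hU hi)).2⟩
    · right
      push Not at hg
      refine ⟨hg, ?_⟩
      have hB := claimB (M := M) (k1 := k1) (s2 := s2) (gset L (ω ∘ σ)) (fset L (ω ∘ σ)) (ω ∘ τ) (by
        intro i j hij h1 h2 P hP h3
        apply hω
        exact ⟨i, j, hij, h1, h2, P, hP, h3⟩)
      obtain ⟨U, hU, hUc⟩ := Finset.exists_subset_card_eq hB
      exact ⟨U, hUc, fun i hi => (mem_filter.mp (hU hi)).2⟩
  refine h1.trans ((pr_or_le _ _).trans (add_le_add ?_ ?_))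
  · apply pr_count_rel σ (fun _ => True) (fun i ω => bad1 L s1 (ω ∘ σ) i) _ b1_nonneg
    · intro _ _ _ _; trivial
    · intro i j hij ω x hω
      have hne : σ i ≠ σ j := fun hh => (ne_of_lt hij) (hσ hh)
      have e1 : useen L ((Function.update ω (σ j) x) ∘ σ) i = useen L (ω ∘ σ) i := by
        apply useen_congr
        intro i' hi'
        have hne' : σ i' ≠ σ j := fun hh => (ne_of_lt (hi'.trans hij)) (hσ hh)
        simp [Function.update_of_ne hne']
      unfold bad1 at hω ⊢
      rw [e1]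
      simpa [Function.update_of_ne hne] using hω
    · intro i ω _
      have e1 : ∀ x, useen L ((Function.update ω (σ i) x) ∘ σ) i = useen L (ω ∘ σ) i := by
        intro x
        apply useen_congr
        intro i' hi'
        have hne' : σ i' ≠ σ i := fun hh => (ne_of_lt hi') (hσ hh)
        simp [Function.update_of_ne hne']
      simp only [bad1, e1, Function.comp_apply, Function.update_self]
      by_cases hU : l ≤ 2 * (useen L (ω ∘ σ) i).card
      · refine le_trans (pr_mono ?_) (pr_bad1 (h := h) (r := r) s1 _ hU)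
        intro x hx; exact hx.2
      · rw [pr_of_false (by intro x hx; exact hU hx.1)]
        exact b1_nonneg
  · have hb2 : 0 ≤ b2 h l L s2 k1 ((s2 + 1) * M) := by
      have hl : (0:ℝ) < l := by
        have := NeZero.pos l
        exact_mod_cast this
      unfold b2
      have : (((s2 + 1) * M : ℕ) : ℝ) / l ≤ 1 := by
        rw [div_le_one hl]; exact_mod_cast hE
      have h3 : 0 ≤ (1 - (((s2 + 1) * M : ℕ) : ℝ) / l) ^ h := pow_nonneg (by linarith) _
      positivity
    apply pr_count_rel τ (fun ω => l ≤ 2 * (gset L (ω ∘ σ)).card)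
      (fun i ω => bad2 k1 s2 ((s2 + 1) * M) (gset L (ω ∘ σ)) (fset L (ω ∘ σ)) (ω ∘ τ) i) _ hb2
    · intro i ω x hω
      rw [update_comp_of_ne σ (τ i) (fun j => hστ j i)]
      exact hω
    · intro i j hij ω x hω
      rw [update_comp_of_ne σ (τ j) (fun i => hστ i j)]
      have hne : τ i ≠ τ j := fun hh => (ne_of_lt hij) (hτ hh)
      have e1 : est k1 s2 (gset L (ω ∘ σ)) (fset L (ω ∘ σ)) ((Function.update ω (τ j) x) ∘ τ) i
          = est k1 s2 (gset L (ω ∘ σ)) (fset L (ω ∘ σ)) (ω ∘ τ) i := by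
        apply est_congr
        intro i' hi'
        have hne' : τ i' ≠ τ j := fun hh => (ne_of_lt (hi'.trans hij)) (hτ hh)
        simp [Function.update_of_ne hne']
      unfold bad2 at hω ⊢
      rw [e1]
      simpa [Function.update_of_ne hne] using hω
    · intro i ω hω
      have e0 : ∀ x, (Function.update ω (τ i) x) ∘ σ = ω ∘ σ :=
        fun x => update_comp_of_ne σ (τ i) (fun j => hστ j i) ω x
      have e1 : ∀ x, est k1 s2 (gset L (ω ∘ σ)) (fset L (ω ∘ σ)) ((Function.update ω (τ i) x) ∘ τ) i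
          = est k1 s2 (gset L (ω ∘ σ)) (fset L (ω ∘ σ)) (ω ∘ τ) i := by
        intro x
        apply est_congr
        intro i' hi'
        have hne' : τ i' ≠ τ i := fun hh => (ne_of_lt hi') (hτ hh)
        simp [Function.update_of_ne hne']
      simp only [bad2, e0, e1, Function.comp_apply, Function.update_self]
      exact pr_bad2 (h := h) (r := r) L s2 k1 ((s2 + 1) * M) hE (gset L (ω ∘ σ)) hω
        (fset L (ω ∘ σ)) (fset_card_le L (ω ∘ σ)) _

lemma prR1 {M : ℕ} (L k1 s1 s2 : ℕ) (hL : l * L < (s1 + 1) * (3 * M))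
    (hE : (s2 + 1) * M ≤ l) :
    pr (fun ω : Fin n → Lab h r l => ¬ PropR1 (4 * M) L k1 s2 ω)
    ≤ (n : ℝ) ^ (4 * M) * ((n : ℝ) ^ (4 * M) *
      (2 ^ (4 * M) * (b1 r l s1) ^ M + 2 ^ (4 * M) * (b2 h l L s2 k1 ((s2 + 1) * M)) ^ M)) := by
  have h1 : pr (fun ω : Fin n → Lab h r l => ¬ PropR1 (4 * M) L k1 s2 ω)
      ≤ pr (fun ω : Fin n → Lab h r l => ∃ σ : Fin (4 * M) → Fin n, ∃ τ : Fin (4 * M) → Fin n,
        ((Function.Injective σ ∧ Function.Injective τ ∧ ∀ i j, σ i ≠ τ j) ∧ ¬ ∃ i j, i ≠ j ∧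
      richL k1 s2 (gset L (ω ∘ σ)) (fset L (ω ∘ σ)) (ω (τ i)) ∧
      richL k1 s2 (gset L (ω ∘ σ)) (fset L (ω ∘ σ)) (ω (τ j)) ∧
      ∃ P ∈ gset L (ω ∘ σ), P ∈ LX (ω (τ i)) ∧ P ∈ LX (ω (τ j)))) := by
    apply pr_mono
    intro ω hω
    unfold PropR1 at hω
    push Not at hω
    obtain ⟨σ, τ, g1, g2, g3, g4⟩ := hω
    refine ⟨σ, τ, ⟨g1, g2, g3⟩, ?_⟩
    rintro ⟨i, j, k1, k2, k3, P, k4, k5, k6⟩
    exact g4 i j k1 k2 k3 P k4 k5 k6
  refine h1.trans ?_
  have hb2 : 0 ≤ b2 h l L s2 k1 ((s2 + 1) * M) := by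
    have hl : (0:ℝ) < l := by
      have := NeZero.pos l
      exact_mod_cast this
    unfold b2
    have : (((s2 + 1) * M : ℕ) : ℝ) / l ≤ 1 := by
      rw [div_le_one hl]; exact_mod_cast hE
    have h3 : 0 ≤ (1 - (((s2 + 1) * M : ℕ) : ℝ) / l) ^ h := pow_nonneg (by linarith) _
    positivity
  have hnn : 0 ≤ 2 ^ (4 * M) * (b1 r l s1) ^ M + 2 ^ (4 * M) * (b2 h l L s2 k1 ((s2 + 1) * M)) ^ M := by
    have := b1_nonneg (r := r) (l := l) (s1 := s1)
    positivity
  have e1 : ∀ σ τ : Fin (4 * M) → Fin n, pr (fun ω : Fin n → Lab h r l =>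
        ((Function.Injective σ ∧ Function.Injective τ ∧ ∀ i j, σ i ≠ τ j) ∧ ¬ ∃ i j, i ≠ j ∧
      richL k1 s2 (gset L (ω ∘ σ)) (fset L (ω ∘ σ)) (ω (τ i)) ∧
      richL k1 s2 (gset L (ω ∘ σ)) (fset L (ω ∘ σ)) (ω (τ j)) ∧
      ∃ P ∈ gset L (ω ∘ σ), P ∈ LX (ω (τ i)) ∧ P ∈ LX (ω (τ j))))
      ≤ 2 ^ (4 * M) * (b1 r l s1) ^ M + 2 ^ (4 * M) * (b2 h l L s2 k1 ((s2 + 1) * M)) ^ M := by
    intro σ τ
    by_cases hst : Function.Injective σ ∧ Function.Injective τ ∧ ∀ i j, σ i ≠ τ j
    · refine le_trans (pr_mono ?_) (prR1_config L k1 s1 s2 hL hE σ τ hst.1 hst.2.1 hst.2.2)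
      intro ω hω; exact hω.2
    · rw [pr_of_false (by intro ω hω; exact hst hω.1)]
      exact hnn
  have e2 : ∀ σ : Fin (4 * M) → Fin n, pr (fun ω : Fin n → Lab h r l => ∃ τ : Fin (4 * M) → Fin n,
        ((Function.Injective σ ∧ Function.Injective τ ∧ ∀ i j, σ i ≠ τ j) ∧ ¬ ∃ i j, i ≠ j ∧
      richL k1 s2 (gset L (ω ∘ σ)) (fset L (ω ∘ σ)) (ω (τ i)) ∧
      richL k1 s2 (gset L (ω ∘ σ)) (fset L (ω ∘ σ)) (ω (τ j)) ∧
      ∃ P ∈ gset L (ω ∘ σ), P ∈ LX (ω (τ i)) ∧ P ∈ LX (ω (τ j))))
      ≤ (n : ℝ) ^ (4 * M) *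
        (2 ^ (4 * M) * (b1 r l s1) ^ M + 2 ^ (4 * M) * (b2 h l L s2 k1 ((s2 + 1) * M)) ^ M) := by
    intro σ
    have := pr_exists_le_const _ _ (e1 σ)
    rw [Fintype.card_fun, Fintype.card_fin, Fintype.card_fin] at this
    push_cast at this
    exact_mod_cast this
  have := pr_exists_le_const _ _ e2
  rw [Fintype.card_fun, Fintype.card_fin, Fintype.card_fin] at this
  exact_mod_cast this

end bounds

end

end Pool.Agent.TH468
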