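import Pool.Agent.TH468.Coin

set_option autoImplicit false
set_option linter.unusedSectionVars false

/-!
# Choice of the parameters
-/

namespace Pool.Agent.TH468

open Finset Filter

noncomputable section

lemma inv_pow_le {x : ℝ} (hx : 10 ≤ x) {m : ℕ} (hm : 1 ≤ m) : (x ^ m)⁻¹ ≤ 1 / 10 := by
  have h1 : x ≤ x ^ m := by
    calc x = x ^ 1 := (pow_one x).symm
      _ ≤ x ^ m := pow_le_pow_right₀ (by linarith) hm
  rw [inv_eq_one_div]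
  exact one_div_le_one_div_of_le (by norm_num) (hx.trans h1)

lemma exp_cond : ∃ q0 : ℕ, ∀ q : ℕ, q0 ≤ q → (q : ℝ) ^ 10600 * (3 / 5 : ℝ) ^ q ≤ 1 := by
  have h := tendsto_pow_const_mul_const_pow_of_abs_lt_one 10600 (r := (3 / 5 : ℝ))
    (by rw [abs_of_pos] <;> norm_num)
  have h1 := (h.eventually (ge_mem_nhds (by norm_num : (0:ℝ) < 1)))
  obtain ⟨q0, hq0⟩ := eventually_atTop.mp h1
  exact ⟨q0, fun q hq => hq0 q hq⟩

lemma coin_cond (t : ℕ) (ht : 1 ≤ t) : ∃ q0 : ℕ, ∀ q : ℕ, q0 ≤ q →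
    (q : ℝ) ^ 12000 * ((t : ℝ) * bb 5 ^ (q / (2 * (Dc 5 2600 * t)))) ^ 2 < 1 := by
  set D : ℕ := 2 * (Dc 5 2600 * t) with hD
  have hDpos : 0 < D := by
    rw [hD]; unfold Dc; positivity
  set β : ℝ := bb 5 ^ 2 with hβ
  have hb0 : 0 ≤ bb 5 := bb_nonneg
  have hb1 : bb 5 < 1 := by unfold bb; norm_num
  have hβ0 : 0 ≤ β := by positivity
  have hβ1 : β < 1 := by rw [hβ]; exact pow_lt_one₀ hb0 hb1 (by norm_num)
  have h := tendsto_pow_const_mul_const_pow_of_abs_lt_one 12000 (r := β)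
    (by rw [abs_of_nonneg hβ0]; exact hβ1)
  -- want: (D (J+1))^12000 t^2 β^J < 1
  have hc : (0:ℝ) < 1 / ((2 * D : ℝ) ^ 12000 * (t : ℝ) ^ 2) := by positivity
  obtain ⟨J0, hJ0⟩ := eventually_atTop.mp (h.eventually (gt_mem_nhds hc))
  refine ⟨D * (J0 + 1), fun q hq => ?_⟩
  set J := q / D with hJ
  have hJ1 : J0 + 1 ≤ J := by
    rw [hJ, Nat.le_div_iff_mul_le hDpos]
    linarith [mul_comm D (J0 + 1)]
  have hJq : q < D * (J + 1) := by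
    rw [hJ]
    exact Nat.lt_mul_div_succ q hDpos
  have h2 := hJ0 J (by omega)
  have hq' : (q : ℝ) ≤ 2 * D * J := by
    have e1 : (q : ℝ) ≤ D * (J + 1) := by exact_mod_cast hJq.le
    have e2 : (1 : ℝ) ≤ J := by exact_mod_cast (by omega : 1 ≤ J)
    have e3 : (0 : ℝ) ≤ D := by positivity
    nlinarith
  have h3 : (q : ℝ) ^ 12000 ≤ (2 * D * J : ℝ) ^ 12000 := pow_le_pow_left₀ (by positivity) hq' _
  have h4 : ((t : ℝ) * bb 5 ^ J) ^ 2 = (t : ℝ) ^ 2 * β ^ J := by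
    rw [hβ, mul_pow, ← pow_mul, ← pow_mul, mul_comm J 2]
  rw [h4]
  have h5 : 0 < (2 * D : ℝ) ^ 12000 * (t : ℝ) ^ 2 := by positivity
  rw [lt_div_iff₀ h5] at h2
  calc (q : ℝ) ^ 12000 * ((t : ℝ) ^ 2 * β ^ J) ≤ (2 * D * J : ℝ) ^ 12000 * ((t : ℝ) ^ 2 * β ^ J) :=
        mul_le_mul_of_nonneg_right h3 (by positivity)
    _ = (J : ℝ) ^ 12000 * β ^ J * ((2 * D : ℝ) ^ 12000 * (t : ℝ) ^ 2) := by
        rw [mul_pow]; ring
    _ < 1 := h2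

lemma half_frac {x : ℝ} {a b : ℕ} (hx : 10 ≤ x) (hab : a + 1 ≤ b) :
    ((x ^ b) / 2 + x ^ a) / (x ^ b) ≤ 3 / 5 := by
  have hxp : 0 < x := by linarith
  rw [div_le_iff₀ (by positivity)]
  have h1 : 10 * x ^ a ≤ x ^ b := by
    calc 10 * x ^ a ≤ x * x ^ a := mul_le_mul_of_nonneg_right hx (by positivity)
      _ = x ^ (a + 1) := by ring
      _ ≤ x ^ b := pow_le_pow_right₀ (by linarith) hab
  linarith

/-- `(x^513)^(q^c) * ((1/2 + small))^(q^(c+1))` is tiny -/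
lemma term_bound (q : ℕ) (c : ℕ) (hc : c + 1 ≤ 513) (hq : 10 ≤ q)
    (hexp : (q : ℝ) ^ 10600 * (3 / 5 : ℝ) ^ q ≤ 1) :
    ((q : ℝ) ^ 513) ^ (q ^ c) * ((((q : ℝ) ^ 513) / 2 + (q : ℝ) ^ c) / ((q : ℝ) ^ 513)) ^ (q ^ (c + 1))
      ≤ ((q : ℝ) ^ 10001)⁻¹ := by
  have hx : (10 : ℝ) ≤ q := by exact_mod_cast hq
  have hxp : (0 : ℝ) < q := by linarith
  have h1 := half_frac (a := c) (b := 513) hx hc
  have h0 : 0 ≤ ((((q : ℝ) ^ 513) / 2 + (q : ℝ) ^ c) / ((q : ℝ) ^ 513)) := by positivity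
  have h2 : ((((q : ℝ) ^ 513) / 2 + (q : ℝ) ^ c) / ((q : ℝ) ^ 513)) ^ (q ^ (c + 1))
      ≤ (3 / 5 : ℝ) ^ (q ^ (c + 1)) := pow_le_pow_left₀ h0 h1 _
  have h3 : (q : ℝ) ^ 513 * (3 / 5 : ℝ) ^ q ≤ ((q : ℝ) ^ 10001)⁻¹ := by
    rw [← one_div, le_div_iff₀ (by positivity)]
    calc (q : ℝ) ^ 513 * (3 / 5 : ℝ) ^ q * (q : ℝ) ^ 10001
        = (q : ℝ) ^ 10514 * (3 / 5 : ℝ) ^ q := by ring
      _ ≤ (q : ℝ) ^ 10600 * (3 / 5 : ℝ) ^ q := by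
        apply mul_le_mul_of_nonneg_right _ (by positivity)
        exact pow_le_pow_right₀ (by linarith) (by norm_num)
      _ ≤ 1 := hexp
  have h4 : ((q : ℝ) ^ 10001)⁻¹ ≤ 1 := (inv_pow_le hx (by norm_num)).trans (by norm_num)
  calc _ ≤ ((q : ℝ) ^ 513) ^ (q ^ c) * (3 / 5 : ℝ) ^ (q ^ (c + 1)) :=
        mul_le_mul_of_nonneg_left h2 (by positivity)
    _ = ((q : ℝ) ^ 513 * (3 / 5 : ℝ) ^ q) ^ (q ^ c) := by
        rw [mul_pow, ← pow_mul (3 / 5 : ℝ), show q ^ (c + 1) = q * q ^ c from by ring]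
    _ ≤ (((q : ℝ) ^ 10001)⁻¹) ^ (q ^ c) := pow_le_pow_left₀ (by positivity) h3 _
    _ ≤ (((q : ℝ) ^ 10001)⁻¹) ^ 1 := by
        apply pow_le_pow_of_le_one (by positivity) h4
        exact Nat.one_le_pow _ _ (by omega)
    _ = _ := pow_one _

lemma b1_bound (q : ℕ) (hq : 10 ≤ q)
    (hexp : (q : ℝ) ^ 10600 * (3 / 5 : ℝ) ^ q ≤ 1) :
    b1 (q ^ 16) (q ^ 513) (q ^ 15) ≤ ((q : ℝ) ^ 10000)⁻¹ := by
  have h := term_bound q 15 (by norm_num) hq hexp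
  have hx : (10 : ℝ) ≤ q := by exact_mod_cast hq
  have hxp : (0 : ℝ) < q := by linarith
  unfold b1
  push_cast
  refine h.trans ?_
  apply inv_anti₀ (by positivity)
  exact pow_le_pow_right₀ (by linarith) (by norm_num)

lemma b2_bound (q : ℕ) (hq : 10 ≤ q)
    (hexp : (q : ℝ) ^ 10600 * (3 / 5 : ℝ) ^ q ≤ 1) :
    b2 (q ^ 8) (q ^ 513) q (q ^ 7) 21 ((q ^ 7 + 1) * q ^ 499) ≤ ((q : ℝ) ^ 10000)⁻¹ := by
  have h := term_bound q 7 (by norm_num) hq hexp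
  have hx : (10 : ℝ) ≤ q := by exact_mod_cast hq
  have hxp : (0 : ℝ) < q := by linarith
  unfold b2
  push_cast
  have t1 : (q : ℝ) ^ 8 * ((q : ℝ) ^ 8 * ((q : ℝ) * (q : ℝ) ^ 8) / (q : ℝ) ^ 513) ^ 21
      ≤ ((q : ℝ) ^ 10001)⁻¹ := by
    have e1 : (q : ℝ) ^ 8 * ((q : ℝ) * (q : ℝ) ^ 8) / (q : ℝ) ^ 513 = ((q : ℝ) ^ 496)⁻¹ := by
      rw [div_eq_iff (by positivity), inv_mul_eq_div, eq_div_iff (by positivity)]
      ring
    rw [e1, inv_pow, ← pow_mul, ← div_eq_mul_inv, div_le_iff₀ (by positivity),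
      inv_mul_eq_div, le_div_iff₀ (by positivity), ← pow_add]
    exact pow_le_pow_right₀ (by linarith) (by norm_num)
  have t3 : (1 - ((q : ℝ) ^ 7 + 1) * (q : ℝ) ^ 499 / (q : ℝ) ^ 513) ^ (q ^ 8)
      ≤ ((q : ℝ) ^ 10001)⁻¹ := by
    have e0 : ((q : ℝ) ^ 7)⁻¹ ≤ ((q : ℝ) ^ 7 + 1) * (q : ℝ) ^ 499 / (q : ℝ) ^ 513 := by
      rw [le_div_iff₀ (by positivity), inv_mul_eq_div, div_le_iff₀ (by positivity)]
      calc (q : ℝ) ^ 513 = (q : ℝ) ^ 7 * (q : ℝ) ^ 499 * (q : ℝ) ^ 7 := by ring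
        _ ≤ ((q : ℝ) ^ 7 + 1) * (q : ℝ) ^ 499 * (q : ℝ) ^ 7 := by gcongr; linarith
    have e00 : ((q : ℝ) ^ 7 + 1) * (q : ℝ) ^ 499 / (q : ℝ) ^ 513 ≤ 1 := by
      rw [div_le_one (by positivity)]
      have e2 : (q : ℝ) ^ 7 + 1 ≤ (q : ℝ) ^ 14 := by
        have e3 : (1:ℝ) ≤ (q : ℝ) ^ 7 := one_le_pow₀ (by linarith)
        have e4 : (q : ℝ) ^ 14 = (q : ℝ) ^ 7 * (q : ℝ) ^ 7 := by ring
        have e5 : (2:ℝ) ≤ (q : ℝ) ^ 7 := by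
          calc (2:ℝ) ≤ q := by linarith
            _ = (q:ℝ) ^ 1 := (pow_one _).symm
            _ ≤ _ := pow_le_pow_right₀ (by linarith) (by norm_num)
        nlinarith
      calc ((q : ℝ) ^ 7 + 1) * (q : ℝ) ^ 499 ≤ (q : ℝ) ^ 14 * (q : ℝ) ^ 499 := by gcongr
        _ = _ := by ring
    have e1 : (1 - ((q : ℝ) ^ 7 + 1) * (q : ℝ) ^ 499 / (q : ℝ) ^ 513)
        ≤ Real.exp (-((q : ℝ) ^ 7)⁻¹) := by
      have := Real.add_one_le_exp (-((q : ℝ) ^ 7)⁻¹)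
      linarith
    calc _ ≤ (Real.exp (-((q : ℝ) ^ 7)⁻¹)) ^ (q ^ 8) := pow_le_pow_left₀ (by linarith) e1 _
      _ = Real.exp (-(q : ℝ)) := by
        rw [← Real.exp_nat_mul]
        congr 1
        push_cast
        field_simp
      _ = (Real.exp (-1)) ^ q := by
        rw [← Real.exp_nat_mul]; congr 1; ring
      _ ≤ (3 / 5 : ℝ) ^ q := by
        apply pow_le_pow_left₀ (Real.exp_nonneg _)
        rw [Real.exp_neg]
        have := Real.exp_one_gt_d9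
        rw [inv_le_comm₀ (Real.exp_pos 1) (by norm_num)]
        norm_num
        linarith
      _ ≤ ((q : ℝ) ^ 10600)⁻¹ := by
        rw [← one_div, le_div_iff₀ (by positivity)]
        linarith
      _ ≤ _ := by
        apply inv_anti₀ (by positivity)
        exact pow_le_pow_right₀ (by linarith) (by norm_num)
  have hsum : 3 * ((q : ℝ) ^ 10001)⁻¹ ≤ ((q : ℝ) ^ 10000)⁻¹ := by
    rw [show (10001 : ℕ) = 10000 + 1 from rfl, pow_succ, mul_inv]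
    have e1 : (q : ℝ)⁻¹ ≤ 1 / 3 := by
      rw [inv_eq_one_div]
      exact one_div_le_one_div_of_le (by norm_num) (by linarith)
    have e2 : 0 ≤ ((q : ℝ) ^ 10000)⁻¹ := by positivity
    nlinarith
  linarith

lemma R1_bound (q : ℕ) (hq : 20 ≤ q)
    (hexp : (q : ℝ) ^ 10600 * (3 / 5 : ℝ) ^ q ≤ 1) :
    ((q ^ 1000 : ℕ) : ℝ) ^ (4 * q ^ 499) * (((q ^ 1000 : ℕ) : ℝ) ^ (4 * q ^ 499) *
      (2 ^ (4 * q ^ 499) * (b1 (q ^ 16) (q ^ 513) (q ^ 15)) ^ (q ^ 499) +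
        2 ^ (4 * q ^ 499) * (b2 (q ^ 8) (q ^ 513) q (q ^ 7) 21 ((q ^ 7 + 1) * q ^ 499)) ^ (q ^ 499)))
      ≤ 1 / 10 := by
  have hx : (20 : ℝ) ≤ q := by exact_mod_cast hq
  have hxp : (0 : ℝ) < q := by linarith
  have e1 := b1_bound q (by omega) hexp
  have e2 := b2_bound q (by omega) hexp
  have hq0 : 0 < q := by omega
  have hNZ : NeZero (q ^ 513) := ⟨by positivity⟩
  have e3 : 0 ≤ b1 (q ^ 16) (q ^ 513) (q ^ 15) := b1_nonneg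
  have e4 : 0 ≤ b2 (q ^ 8) (q ^ 513) q (q ^ 7) 21 ((q ^ 7 + 1) * q ^ 499) := by
    unfold b2
    have : (((q ^ 7 + 1) * q ^ 499 : ℕ) : ℝ) / ((q ^ 513 : ℕ) : ℝ) ≤ 1 := by
      push_cast
      rw [div_le_one (by positivity)]
      have e2 : (q : ℝ) ^ 7 + 1 ≤ (q : ℝ) ^ 14 := by
        have e3 : (1:ℝ) ≤ (q : ℝ) ^ 7 := one_le_pow₀ (by linarith)
        have e4 : (q : ℝ) ^ 14 = (q : ℝ) ^ 7 * (q : ℝ) ^ 7 := by ring
        have e5 : (2:ℝ) ≤ (q : ℝ) ^ 7 := by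
          calc (2:ℝ) ≤ q := by linarith
            _ = (q:ℝ) ^ 1 := (pow_one _).symm
            _ ≤ _ := pow_le_pow_right₀ (by linarith) (by norm_num)
        nlinarith
      calc ((q : ℝ) ^ 7 + 1) * (q : ℝ) ^ 499 ≤ (q : ℝ) ^ 14 * (q : ℝ) ^ 499 := by gcongr
        _ = _ := by ring
    have h3 : 0 ≤ (1 - (((q ^ 7 + 1) * q ^ 499 : ℕ) : ℝ) / ((q ^ 513 : ℕ) : ℝ)) ^ (q ^ 8) :=
      pow_nonneg (by linarith) _
    positivity
  set M := q ^ 499 with hM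
  have hM1 : 1 ≤ M := Nat.one_le_pow _ _ (by omega)
  set δ : ℝ := ((q : ℝ) ^ 10000)⁻¹ with hδ
  have hδ0 : 0 ≤ δ := by positivity
  have f1 : (b1 (q ^ 16) (q ^ 513) (q ^ 15)) ^ M ≤ δ ^ M := pow_le_pow_left₀ e3 e1 _
  have f2 : (b2 (q ^ 8) (q ^ 513) q (q ^ 7) 21 ((q ^ 7 + 1) * M)) ^ M ≤ δ ^ M :=
    pow_le_pow_left₀ e4 e2 _
  push_cast
  have g0 : 16 * ((q : ℝ) ^ 1000) ^ 8 * δ ≤ (q : ℝ)⁻¹ := by
    rw [hδ, ← div_eq_mul_inv, div_le_iff₀ (by positivity)]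
    calc 16 * ((q : ℝ) ^ 1000) ^ 8 ≤ (q : ℝ) * ((q : ℝ) ^ 1000) ^ 8 := by gcongr; linarith
      _ = (q : ℝ) ^ 8001 := by ring
      _ ≤ (q : ℝ) ^ 9999 := pow_le_pow_right₀ (by linarith) (by norm_num)
      _ = (q : ℝ)⁻¹ * (q : ℝ) ^ 10000 := by
        rw [inv_mul_eq_div, eq_div_iff (by positivity)]; ring
  have g1 : (q : ℝ)⁻¹ ≤ 1 / 20 := by
    rw [inv_eq_one_div]
    exact one_div_le_one_div_of_le (by norm_num) hx
  calc ((q : ℝ) ^ 1000) ^ (4 * M) * (((q : ℝ) ^ 1000) ^ (4 * M) *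
      (2 ^ (4 * M) * (b1 (q ^ 16) (q ^ 513) (q ^ 15)) ^ M +
        2 ^ (4 * M) * (b2 (q ^ 8) (q ^ 513) q (q ^ 7) 21 ((q ^ 7 + 1) * M)) ^ M))
      ≤ ((q : ℝ) ^ 1000) ^ (4 * M) * (((q : ℝ) ^ 1000) ^ (4 * M) *
      (2 ^ (4 * M) * δ ^ M + 2 ^ (4 * M) * δ ^ M)) := by gcongr
    _ = 2 * (16 * ((q : ℝ) ^ 1000) ^ 8 * δ) ^ M := by
        rw [mul_pow, mul_pow, show (16:ℝ) = 2 ^ 4 by norm_num, ← pow_mul (2:ℝ) 4 M,
          ← pow_mul ((q : ℝ) ^ 1000) 8 M,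
          show 8 * M = 4 * M + 4 * M by ring, pow_add]
        ring
    _ ≤ 2 * ((q : ℝ)⁻¹) ^ M := by gcongr
    _ ≤ 2 * ((q : ℝ)⁻¹) ^ 1 := by
        apply mul_le_mul_of_nonneg_left _ (by norm_num)
        exact pow_le_pow_of_le_one (by positivity) (by linarith) hM1
    _ ≤ 1 / 10 := by rw [pow_one]; linarith

/-- existence of labels with all the properties -/
lemma exists_labels (q : ℕ) (hq : 20 ≤ q)
    (hexp : (q : ℝ) ^ 10600 * (3 / 5 : ℝ) ^ q ≤ 1) :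
    ∃ ω : Fin (q ^ 1000) → Lab (q ^ 8) (q ^ 16) (q ^ 513),
      PropR1 (4 * q ^ 499) q 21 (q ^ 7) ω ∧ PropR2 5 ω ∧ PropR3 2600 ω ∧ PropR4 ω ∧
        PropR5 520 ω := by
  have hq0 : 0 < q := by omega
  have hNZ : NeZero (q ^ 513) := ⟨by positivity⟩
  have hx : (20 : ℝ) ≤ q := by exact_mod_cast hq
  have hxp : (0 : ℝ) < q := by linarith
  have hpp : pp (q ^ 8) (q ^ 16) (q ^ 513) = ((q : ℝ) ^ 489)⁻¹ := by
    unfold pp
    push_cast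
    rw [div_eq_iff (by positivity), inv_mul_eq_div, eq_div_iff (by positivity)]
    ring
  have a1 := prR1 (n := q ^ 1000) (h := q ^ 8) (r := q ^ 16) (l := q ^ 513) (M := q ^ 499)
    q 21 (q ^ 15) (q ^ 7) (by
      calc q ^ 513 * q = q ^ 15 * q ^ 499 := by ring
        _ < (q ^ 15 + 1) * (3 * q ^ 499) := by
          have e1 : 0 < q ^ 499 := by positivity
          have e2 : q ^ 15 * q ^ 499 < (q ^ 15 + 1) * q ^ 499 :=
            Nat.mul_lt_mul_of_pos_right (Nat.lt_succ_self _) e1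
          have e3 : (q ^ 15 + 1) * q ^ 499 ≤ (q ^ 15 + 1) * (3 * q ^ 499) :=
            Nat.mul_le_mul_left _ (by omega)
          omega) (by
      calc (q ^ 7 + 1) * q ^ 499 ≤ q ^ 14 * q ^ 499 := by
            apply Nat.mul_le_mul_right
            calc q ^ 7 + 1 ≤ q ^ 7 + q ^ 7 := by
                  have : 1 ≤ q ^ 7 := Nat.one_le_pow _ _ hq0
                  omega
              _ = 2 * q ^ 7 := by ring
              _ ≤ q * q ^ 7 := Nat.mul_le_mul_right _ (by omega)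
              _ = q ^ 8 := by ring
              _ ≤ q ^ 14 := Nat.pow_le_pow_right hq0 (by norm_num)
        _ = q ^ 513 := by ring)
  have a1' := a1.trans (R1_bound q hq hexp)
  have a2 := prR2 (n := q ^ 1000) (h := q ^ 8) (r := q ^ 16) (l := q ^ 513) 5
  have a2' : ((q ^ 1000 : ℕ) : ℝ) * (((q ^ 1000 : ℕ) : ℝ) * (((q ^ 1000 : ℕ) : ℝ) ^ 5 *
      (((q ^ 1000 : ℕ) : ℝ) ^ 5 * (pp (q ^ 8) (q ^ 16) (q ^ 513) ^ 5) ^ 5))) ≤ 1 / 10 := by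
    rw [hpp]
    push_cast
    have e1 : (q : ℝ) ^ 1000 * ((q : ℝ) ^ 1000 * (((q : ℝ) ^ 1000) ^ 5 *
        (((q : ℝ) ^ 1000) ^ 5 * ((((q : ℝ) ^ 489)⁻¹) ^ 5) ^ 5))) = ((q : ℝ) ^ 225)⁻¹ := by
      rw [inv_pow, inv_pow, ← pow_mul, ← pow_mul, ← pow_mul, ← mul_assoc, ← mul_assoc, ← mul_assoc,
        ← div_eq_mul_inv, div_eq_iff (by positivity), inv_mul_eq_div, eq_div_iff (by positivity)]
      ring
    rw [e1]
    exact inv_pow_le (by linarith) (by norm_num)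
  have a4 := prR4 (n := q ^ 1000) (h := q ^ 8) (r := q ^ 16) (l := q ^ 513)
  have a4' : ((q ^ 1000 : ℕ) : ℝ) * (((q ^ 1000 : ℕ) : ℝ) *
      (((q ^ 16 : ℕ) : ℝ) * ((q ^ 16 : ℕ) : ℝ) / ((q ^ 513 : ℕ) : ℝ)) ^ 5) ≤ 1 / 10 := by
    push_cast
    have e0 : (q : ℝ) ^ 16 * (q : ℝ) ^ 16 / (q : ℝ) ^ 513 = ((q : ℝ) ^ 481)⁻¹ := by
      rw [div_eq_iff (by positivity), inv_mul_eq_div, eq_div_iff (by positivity)]
      ring
    have e1 : (q : ℝ) ^ 1000 * ((q : ℝ) ^ 1000 * (((q : ℝ) ^ 481)⁻¹) ^ 5) = ((q : ℝ) ^ 405)⁻¹ := by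
      rw [inv_pow, ← pow_mul, ← mul_assoc,
        ← div_eq_mul_inv, div_eq_iff (by positivity), inv_mul_eq_div, eq_div_iff (by positivity)]
      ring
    rw [e0, e1]
    exact inv_pow_le (by linarith) (by norm_num)
  have a3 := prR3 (n := q ^ 1000) (h := q ^ 8) (r := q ^ 16) (l := q ^ 513) 2600
  have a3' : ((q ^ 1000 : ℕ) : ℝ) * (((q ^ 1000 : ℕ) : ℝ) * (((q ^ 513 : ℕ) : ℝ) *
      (((q ^ 1000 : ℕ) : ℝ) ^ 2600 * qq (q ^ 8) (q ^ 16) (q ^ 513) ^ 2600))) ≤ 1 / 10 := by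
    have hqq : ((q ^ 1000 : ℕ) : ℝ) * qq (q ^ 8) (q ^ 16) (q ^ 513) ≤ (q : ℝ)⁻¹ := by
      unfold qq
      rw [hpp]
      push_cast
      have e1 : (q : ℝ) ^ 16 / (q : ℝ) ^ 513 = ((q : ℝ) ^ 497)⁻¹ := by
        rw [div_eq_iff (by positivity), inv_mul_eq_div, eq_div_iff (by positivity)]
        ring
      have e2 : (q : ℝ) ^ 8 / (q : ℝ) ^ 513 = ((q : ℝ) ^ 505)⁻¹ := by
        rw [div_eq_iff (by positivity), inv_mul_eq_div, eq_div_iff (by positivity)]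
        ring
      rw [e1, e2]
      have e3 : (((q : ℝ) ^ 489)⁻¹) ^ 2 ≤ ((q : ℝ) ^ 505)⁻¹ := by
        rw [inv_pow, ← pow_mul]
        apply inv_anti₀ (by positivity)
        exact pow_le_pow_right₀ (by linarith) (by norm_num)
      calc (q : ℝ) ^ 1000 * (((q : ℝ) ^ 497)⁻¹ * ((((q : ℝ) ^ 489)⁻¹) ^ 2 + 4 * ((q : ℝ) ^ 505)⁻¹))
          ≤ (q : ℝ) ^ 1000 * (((q : ℝ) ^ 497)⁻¹ * (((q : ℝ) ^ 505)⁻¹ + 4 * ((q : ℝ) ^ 505)⁻¹)) := by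
            gcongr
        _ = 5 * ((q : ℝ) ^ 2)⁻¹ := by
            have e4 : (q : ℝ) ^ 1000 = (q : ℝ) ^ 497 * (q : ℝ) ^ 505 / (q : ℝ) ^ 2 := by
              rw [eq_div_iff (by positivity)]; ring
            rw [e4]
            field_simp
            ring
        _ ≤ (q : ℝ)⁻¹ := by
            rw [pow_two, mul_inv]
            have e5 : (q : ℝ)⁻¹ ≤ 1 / 20 := by
              rw [inv_eq_one_div]
              exact one_div_le_one_div_of_le (by norm_num) hx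
            have e6 : 0 ≤ (q : ℝ)⁻¹ := by positivity
            nlinarith
    have hqq0 : 0 ≤ qq (q ^ 8) (q ^ 16) (q ^ 513) := qq_nonneg
    calc _ = ((q ^ 1000 : ℕ) : ℝ) * (((q ^ 1000 : ℕ) : ℝ) * (((q ^ 513 : ℕ) : ℝ) *
        (((q ^ 1000 : ℕ) : ℝ) * qq (q ^ 8) (q ^ 16) (q ^ 513)) ^ 2600)) := by rw [mul_pow]
      _ ≤ ((q ^ 1000 : ℕ) : ℝ) * (((q ^ 1000 : ℕ) : ℝ) * (((q ^ 513 : ℕ) : ℝ) *
        ((q : ℝ)⁻¹) ^ 2600)) := by gcongr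
      _ = ((q : ℝ) ^ 87)⁻¹ := by
        push_cast
        rw [inv_pow, ← mul_assoc, ← mul_assoc, ← div_eq_mul_inv, div_eq_iff (by positivity),
          inv_mul_eq_div, eq_div_iff (by positivity)]
        ring
      _ ≤ _ := inv_pow_le (by linarith) (by norm_num)
  have a5 := prR5 (n := q ^ 1000) (h := q ^ 8) (r := q ^ 16) (l := q ^ 513) 520
  have a5' : ((q ^ 513 : ℕ) : ℝ) * (((q ^ 513 : ℕ) : ℝ) * (((q ^ 1000 : ℕ) : ℝ) ^ 520 *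
      ((((q ^ 8 : ℕ) : ℝ) / ((q ^ 513 : ℕ) : ℝ)) * (((q ^ 16 : ℕ) : ℝ) / ((q ^ 513 : ℕ) : ℝ))) ^ 520))
      ≤ 1 / 10 := by
    push_cast
    have e1 : (q : ℝ) ^ 8 / (q : ℝ) ^ 513 * ((q : ℝ) ^ 16 / (q : ℝ) ^ 513) = ((q : ℝ) ^ 1002)⁻¹ := by
      rw [div_mul_div_comm, div_eq_iff (by positivity), inv_mul_eq_div, eq_div_iff (by positivity)]
      ring
    have e2 : (q : ℝ) ^ 513 * ((q : ℝ) ^ 513 * (((q : ℝ) ^ 1000) ^ 520 *
        (((q : ℝ) ^ 1002)⁻¹) ^ 520)) = ((q : ℝ) ^ 14)⁻¹ := by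
      rw [inv_pow, ← pow_mul, ← pow_mul, ← mul_assoc, ← mul_assoc,
        ← div_eq_mul_inv, div_eq_iff (by positivity), inv_mul_eq_div, eq_div_iff (by positivity)]
      ring
    rw [e1, e2]
    exact inv_pow_le (by linarith) (by norm_num)
  have hall : pr (fun ω : Fin (q ^ 1000) → Lab (q ^ 8) (q ^ 16) (q ^ 513) =>
      ¬ PropR1 (4 * q ^ 499) q 21 (q ^ 7) ω ∨ (¬ PropR2 5 ω ∨ ((PropR4 ω ∧ ¬ PropR3 2600 ω) ∨
        (¬ PropR4 ω ∨ ¬ PropR5 520 ω)))) < 1 := by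
    refine lt_of_le_of_lt ((pr_or_le _ _).trans (add_le_add a1' ((pr_or_le _ _).trans
      (add_le_add (a2.trans a2') ((pr_or_le _ _).trans (add_le_add (a3.trans a3')
        ((pr_or_le _ _).trans (add_le_add (a4.trans a4') (a5.trans a5'))))))))) ?_
    norm_num
  obtain ⟨ω, hω⟩ := exists_not_of_pr_lt_one hall
  push Not at hω
  obtain ⟨g1, g2, g3, g4, g5⟩ := hω
  exact ⟨ω, g1, g2, g3 g4, g4, g5⟩

theorem main_large (t : ℕ) (ht : 1 ≤ t) : ∃ q0 : ℕ, ∀ q : ℕ, q0 ≤ q →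
    ∃ G : SimpleGraph (Fin (q ^ 1000)), G.CliqueFree 4 ∧ ∀ S : Finset (Fin (q ^ 1000)),
      S.card = 12 * q ^ 499 →
      ∃ c1 ∈ S, ∃ c2 ∈ S, c1 ≠ c2 ∧ ∃ T ⊆ S, T.card = t ∧ ∀ w ∈ T, G.Adj c1 w ∧ G.Adj c2 w := by
  obtain ⟨qa, ha⟩ := exp_cond
  obtain ⟨qb, hb⟩ := coin_cond t ht
  refine ⟨max (max qa qb) 50000, fun q hq => ?_⟩
  have hq1 : qa ≤ q := le_trans (le_max_left _ _) (le_trans (le_max_left _ _) hq)
  have hq2 : qb ≤ q := le_trans (le_max_right _ _) (le_trans (le_max_left _ _) hq)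
  have hq3 : 50000 ≤ q := le_trans (le_max_right _ _) hq
  obtain ⟨ω, g1, g2, g3, g4, g5⟩ := exists_labels q (by omega) (ha q hq1)
  have hcc := hb q hq2
  set J := q / (2 * (Dc 5 2600 * t)) with hJ
  refine coin_stage (M := q ^ 499) (t := t) (J := J) g1 g2 g3 (by norm_num) g5 ?_ ?_
  · have e1 : 2 * (Dc 5 2600 * t) * J ≤ q := by
      rw [hJ]; exact Nat.mul_div_le q _
    have e2 : 2 * (Dc 5 2600 * (t * J)) ≤ q := by
      calc 2 * (Dc 5 2600 * (t * J)) = 2 * (Dc 5 2600 * t) * J := by ring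
        _ ≤ q := e1
    omega
  · rw [← mul_pow]
    have hM : q ^ 499 ≠ 0 := by positivity
    apply pow_lt_one₀ _ _ hM
    · have := bb_nonneg (k := 5)
      positivity
    · have e1 : (((q ^ 1000 : ℕ) : ℝ)) ^ 12 = (q : ℝ) ^ 12000 := by
        push_cast; rw [← pow_mul]
      rw [e1]
      exact hcc

end

end Pool.Agent.TH468
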