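import Pool.Agent.TH468.Raw

set_option autoImplicit false
set_option linter.unusedSectionVars false

/-!
# Local properties of the raw relation which hold with high probability
-/

namespace Pool.Agent.TH468

open Finset

noncomputable section

variable {n h r l : ℕ}

/-- raw arc from the newer vertex `c` to the older vertex `w` -/
def arr (ω : Fin n → Lab h r l) (c w : Fin n) : Prop := w < c ∧ arrL (ω c) (ω w)

/-- raw adjacency -/
def raw (ω : Fin n → Lab h r l) (u v : Fin n) : Prop := arr ω u v ∨ arr ω v u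

lemma raw_symm {ω : Fin n → Lab h r l} {u v : Fin n} (hh : raw ω u v) : raw ω v u := hh.symm

lemma raw_ne {ω : Fin n → Lab h r l} {u v : Fin n} (hh : raw ω u v) : u ≠ v := by
  rcases hh with hh | hh
  · exact ne_of_gt hh.1
  · exact ne_of_lt hh.1

lemma raw_disj {ω : Fin n → Lab h r l} {u v : Fin n} (hh : raw ω u v) :
    Disjoint (LX (ω u)) (LX (ω v)) := by
  rcases hh with hh | hh
  · exact hh.2.2
  · exact hh.2.2.symm

/-- oriented label relation -/
def rel (ω : Fin n → Lab h r l) (u v : Fin n) : Prop :=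
  if u < v then arrL (ω v) (ω u) else arrL (ω u) (ω v)

lemma rel_of_raw {ω : Fin n → Lab h r l} {u v : Fin n} (hh : raw ω u v) : rel ω u v := by
  unfold rel
  rcases hh with hh | hh
  · rw [if_neg (not_lt.mpr hh.1.le)]; exact hh.2
  · rw [if_pos hh.1]; exact hh.2

lemma rel_disj {ω : Fin n → Lab h r l} {u v : Fin n} (hh : rel ω u v) :
    Disjoint (LX (ω u)) (LX (ω v)) := by
  unfold rel at hh
  split_ifs at hh
  · exact hh.2.symm
  · exact hh.2

lemma exists_inj_of_le_card {V : Type*} {s : Finset V} {K : ℕ} (hs : K ≤ s.card) :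
    ∃ e : Fin K → V, Function.Injective e ∧ ∀ a, e a ∈ s := by
  refine ⟨fun a => (s.equivFin.symm (Fin.castLE hs a) : V), ?_, ?_⟩
  · intro a b hab
    have := s.equivFin.symm.injective (Subtype.ext hab)
    exact Fin.castLE_injective hs this
  · intro a
    exact (s.equivFin.symm (Fin.castLE hs a)).2

/-- the link of `w` below `c` has no matching with `k` edges -/
def PropR2 (k : ℕ) (ω : Fin n → Lab h r l) : Prop :=
  ∀ c w, arr ω c w → ∀ z u : Fin k → Fin n, Function.Injective z → Function.Injective u →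
    (∀ a b, z a ≠ u b) → ¬ ∀ a, (arr ω c (z a) ∧ arr ω c (u a) ∧ raw ω w (z a) ∧
      raw ω w (u a) ∧ arr ω (z a) (u a))

/-- few common neighbours with a common label -/
def PropR3 (K : ℕ) (ω : Fin n → Lab h r l) : Prop :=
  ∀ u z P, raw ω u z → P ∉ LX (ω u) → P ∉ LX (ω z) →
    ∀ e : Fin K → Fin n, Function.Injective e →
      ¬ ∀ a, (P ∈ LY (ω (e a)) ∧ raw ω (e a) u ∧ raw ω (e a) z)

/-- few common labels -/
def PropR4 (ω : Fin n → Lab h r l) : Prop :=
  ∀ u z, u ≠ z → (LY (ω u) ∩ LY (ω z)).card ≤ 4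

/-- few vertices with two given labels -/
def PropR5 (K : ℕ) (ω : Fin n → Lab h r l) : Prop :=
  ∀ P P' : Fin l, ∀ e : Fin K → Fin n, Function.Injective e →
      ¬ ∀ a, (P ∈ LX (ω (e a)) ∧ P' ∈ LY (ω (e a)))

section bounds

variable [NeZero l]

lemma prR2_config (k : ℕ) (c w : Fin n) (z u : Fin k → Fin n) :
    pr (fun ω : Fin n → Lab h r l => arr ω c w ∧ Function.Injective z ∧ Function.Injective u ∧
      (∀ a b, z a ≠ u b) ∧ ∀ a, (arr ω c (z a) ∧ arr ω c (u a) ∧ raw ω w (z a) ∧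
      raw ω w (u a) ∧ arr ω (z a) (u a))) ≤ (pp h r l ^ 5) ^ k := by
  by_cases hst : Function.Injective z ∧ Function.Injective u ∧ (∀ a b, z a ≠ u b) ∧
      (∀ a, z a ≠ c ∧ z a ≠ w ∧ u a ≠ c ∧ u a ≠ w)
  swap
  · rw [pr_of_false]
    · exact pow_nonneg (pow_nonneg pp_nonneg _) _
    · rintro ω ⟨_, h2, h3, h4, h5⟩
      apply hst
      refine ⟨h2, h3, h4, fun a => ?_⟩
      obtain ⟨g1, g2, g3, g4, g5⟩ := h5 a
      exact ⟨ne_of_lt g1.1, (raw_ne g3).symm, ne_of_lt g2.1, (raw_ne g4).symm⟩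
  obtain ⟨hz, hu, hzu, hcw⟩ := hst
  set A0 : (Fin n → Lab h r l) → Prop := fun ω => Disjoint (LX (ω c)) (LX (ω w)) with hA0
  set Q : Fin k → (Fin n → Lab h r l) → Prop := fun a ω =>
    arrL (ω c) (ω (z a)) ∧ rel ω w (z a) with hQ
  set R : Fin k → (Fin n → Lab h r l) → Prop := fun a ω =>
    arrL (ω c) (ω (u a)) ∧ rel ω w (u a) ∧ arrL (ω (z a)) (ω (u a)) with hR
  have step1 : pr (fun ω => A0 ω ∧ ∀ a ∈ (univ : Finset (Fin k)), Q a ω)
      ≤ (∏ _a ∈ (univ : Finset (Fin k)), pp h r l ^ 2) * pr A0 := by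
    apply pr_chain_single_rel z A0 Q (fun _ => pp h r l ^ 2) (fun _ => pow_nonneg pp_nonneg _)
    · intro i _ ω x hω
      have h1 : c ≠ z i := (hcw i).1.symm
      have h2 : w ≠ z i := (hcw i).2.1.symm
      simpa [hA0, Function.update_of_ne h1, Function.update_of_ne h2] using hω
    · intro i _ j _ hij ω x hω
      have h1 : c ≠ z j := (hcw j).1.symm
      have h2 : w ≠ z j := (hcw j).2.1.symm
      have h3 : z i ≠ z j := fun hh => (ne_of_lt hij) (hz hh)
      simpa [hQ, rel, Function.update_of_ne h1, Function.update_of_ne h2,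
        Function.update_of_ne h3] using hω
    · intro i _ ω hω
      have h1 : c ≠ z i := (hcw i).1.symm
      have h2 : w ≠ z i := (hcw i).2.1.symm
      simp only [hQ, rel, Function.update_of_ne h1, Function.update_of_ne h2,
        Function.update_self]
      by_cases hlt : w < z i
      · simp only [if_pos hlt]
        exact bound_Q_up _ _
      · simp only [if_neg hlt]
        exact bound_Q_down _ _ hω
  have step2 : pr (fun ω => (A0 ω ∧ ∀ a ∈ (univ : Finset (Fin k)), Q a ω) ∧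
        ∀ a ∈ (univ : Finset (Fin k)), R a ω)
      ≤ (∏ _a ∈ (univ : Finset (Fin k)), pp h r l ^ 3) *
        pr (fun ω => A0 ω ∧ ∀ a ∈ (univ : Finset (Fin k)), Q a ω) := by
    apply pr_chain_single_rel u _ R (fun _ => pp h r l ^ 3) (fun _ => pow_nonneg pp_nonneg _)
    · rintro i _ ω x ⟨hω, hω'⟩
      have h1 : c ≠ u i := (hcw i).2.2.1.symm
      have h2 : w ≠ u i := (hcw i).2.2.2.symm
      refine ⟨?_, ?_⟩
      · simpa [hA0, Function.update_of_ne h1, Function.update_of_ne h2] using hω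
      · intro a ha
        have h3 : z a ≠ u i := hzu a i
        have := hω' a ha
        simpa [hQ, rel, Function.update_of_ne h1, Function.update_of_ne h2,
          Function.update_of_ne h3] using this
    · intro i _ j _ hij ω x hω
      have h1 : c ≠ u j := (hcw j).2.2.1.symm
      have h2 : w ≠ u j := (hcw j).2.2.2.symm
      have h3 : z i ≠ u j := hzu i j
      have h4 : u i ≠ u j := fun hh => (ne_of_lt hij) (hu hh)
      simpa [hR, rel, Function.update_of_ne h1, Function.update_of_ne h2,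
        Function.update_of_ne h3, Function.update_of_ne h4] using hω
    · rintro i _ ω ⟨hω, hω'⟩
      have h1 : c ≠ u i := (hcw i).2.2.1.symm
      have h2 : w ≠ u i := (hcw i).2.2.2.symm
      have h3 : z i ≠ u i := hzu i i
      have hq := hω' i (mem_univ _)
      simp only [hR, rel, Function.update_of_ne h1, Function.update_of_ne h2,
        Function.update_of_ne h3, Function.update_self]
      by_cases hlt : w < u i
      · simp only [if_pos hlt]
        exact bound_R_up _ _ _ hq.1.2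
      · simp only [if_neg hlt]
        exact bound_R_down _ _ _ hω hq.1.2 (rel_disj hq.2)
  have step3 : pr (fun ω : Fin n → Lab h r l => arr ω c w ∧ Function.Injective z ∧
      Function.Injective u ∧
      (∀ a b, z a ≠ u b) ∧ ∀ a, (arr ω c (z a) ∧ arr ω c (u a) ∧ raw ω w (z a) ∧
      raw ω w (u a) ∧ arr ω (z a) (u a))) ≤
      pr (fun ω => (A0 ω ∧ ∀ a ∈ (univ : Finset (Fin k)), Q a ω) ∧
        ∀ a ∈ (univ : Finset (Fin k)), R a ω) := by
    apply pr_mono
    rintro ω ⟨g1, _, _, _, g5⟩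
    refine ⟨⟨g1.2.2, fun a _ => ?_⟩, fun a _ => ?_⟩
    · obtain ⟨e1, e2, e3, e4, e5⟩ := g5 a
      exact ⟨e1.2, rel_of_raw e3⟩
    · obtain ⟨e1, e2, e3, e4, e5⟩ := g5 a
      exact ⟨e2.2, rel_of_raw e4, e5.2⟩
  rw [prod_const, card_univ, Fintype.card_fin] at step1 step2
  calc _ ≤ _ := step3
    _ ≤ _ := step2
    _ ≤ (pp h r l ^ 3) ^ k * ((pp h r l ^ 2) ^ k * pr A0) :=
      mul_le_mul_of_nonneg_left step1 (pow_nonneg (pow_nonneg pp_nonneg _) _)
    _ ≤ (pp h r l ^ 3) ^ k * ((pp h r l ^ 2) ^ k * 1) := by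
      apply mul_le_mul_of_nonneg_left _ (pow_nonneg (pow_nonneg pp_nonneg _) _)
      exact mul_le_mul_of_nonneg_left (pr_le_one _) (pow_nonneg (pow_nonneg pp_nonneg _) _)
    _ = _ := by rw [mul_one, ← mul_pow]; congr 1; ring

lemma prR2 (k : ℕ) :
    pr (fun ω : Fin n → Lab h r l => ¬ PropR2 k ω)
      ≤ (n : ℝ) * ((n : ℝ) * ((n : ℝ) ^ k * ((n : ℝ) ^ k * (pp h r l ^ 5) ^ k))) := by
  have h1 : pr (fun ω : Fin n → Lab h r l => ¬ PropR2 k ω)
      ≤ pr (fun ω : Fin n → Lab h r l => ∃ c : Fin n, ∃ w : Fin n, ∃ z : Fin k → Fin n,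
        ∃ u : Fin k → Fin n, (arr ω c w ∧ Function.Injective z ∧ Function.Injective u ∧
      (∀ a b, z a ≠ u b) ∧ ∀ a, (arr ω c (z a) ∧ arr ω c (u a) ∧ raw ω w (z a) ∧
      raw ω w (u a) ∧ arr ω (z a) (u a)))) := by
    apply pr_mono
    intro ω hω
    unfold PropR2 at hω
    push Not at hω
    obtain ⟨c, w, g1, z, u, g2, g3, g4, g5⟩ := hω
    exact ⟨c, w, z, u, g1, g2, g3, g4, g5⟩
  refine h1.trans ?_
  have e1 : ∀ c w : Fin n, ∀ z : Fin k → Fin n, pr (fun ω : Fin n → Lab h r l =>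
        ∃ u : Fin k → Fin n, (arr ω c w ∧ Function.Injective z ∧ Function.Injective u ∧
      (∀ a b, z a ≠ u b) ∧ ∀ a, (arr ω c (z a) ∧ arr ω c (u a) ∧ raw ω w (z a) ∧
      raw ω w (u a) ∧ arr ω (z a) (u a)))) ≤ (n : ℝ) ^ k * (pp h r l ^ 5) ^ k := by
    intro c w z
    have := pr_exists_le_const _ _ (fun u => prR2_config (h := h) (r := r) (l := l) k c w z u)
    rw [Fintype.card_fun, Fintype.card_fin, Fintype.card_fin] at this
    push_cast at this
    exact this
  have e2 : ∀ c w : Fin n, pr (fun ω : Fin n → Lab h r l => ∃ z : Fin k → Fin n,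
        ∃ u : Fin k → Fin n, (arr ω c w ∧ Function.Injective z ∧ Function.Injective u ∧
      (∀ a b, z a ≠ u b) ∧ ∀ a, (arr ω c (z a) ∧ arr ω c (u a) ∧ raw ω w (z a) ∧
      raw ω w (u a) ∧ arr ω (z a) (u a))))
      ≤ (n : ℝ) ^ k * ((n : ℝ) ^ k * (pp h r l ^ 5) ^ k) := by
    intro c w
    have := pr_exists_le_const _ _ (e1 c w)
    rw [Fintype.card_fun, Fintype.card_fin, Fintype.card_fin] at this
    push_cast at this
    exact this
  have e3 : ∀ c : Fin n, pr (fun ω : Fin n → Lab h r l => ∃ w : Fin n, ∃ z : Fin k → Fin n,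
        ∃ u : Fin k → Fin n, (arr ω c w ∧ Function.Injective z ∧ Function.Injective u ∧
      (∀ a b, z a ≠ u b) ∧ ∀ a, (arr ω c (z a) ∧ arr ω c (u a) ∧ raw ω w (z a) ∧
      raw ω w (u a) ∧ arr ω (z a) (u a))))
      ≤ (n : ℝ) * ((n : ℝ) ^ k * ((n : ℝ) ^ k * (pp h r l ^ 5) ^ k)) := by
    intro c
    have := pr_exists_le_const _ _ (e2 c)
    rw [Fintype.card_fin] at this
    exact this
  have := pr_exists_le_const _ _ e3
  rw [Fintype.card_fin] at this
  exact this

lemma prR3_config (K : ℕ) (u z : Fin n) (P : Fin l) (e : Fin K → Fin n) :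
    pr (fun ω : Fin n → Lab h r l => PropR4 ω ∧ raw ω u z ∧ P ∉ LX (ω u) ∧ P ∉ LX (ω z) ∧
      Function.Injective e ∧ ∀ a, (P ∈ LY (ω (e a)) ∧ raw ω (e a) u ∧ raw ω (e a) z))
      ≤ qq h r l ^ K := by
  by_cases hst : u ≠ z ∧ Function.Injective e ∧ (∀ a, e a ≠ u ∧ e a ≠ z)
  swap
  · rw [pr_of_false]
    · exact pow_nonneg qq_nonneg _
    · rintro ω ⟨_, h2, h3, h4, h5, h6⟩
      apply hst
      exact ⟨raw_ne h2, h5, fun a => ⟨raw_ne (h6 a).2.1, raw_ne (h6 a).2.2⟩⟩
  obtain ⟨huz, he, hcw⟩ := hst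
  set A0 : (Fin n → Lab h r l) → Prop := fun ω => Disjoint (LX (ω u)) (LX (ω z)) ∧
    (LY (ω u) ∩ LY (ω z)).card ≤ 4 ∧ P ∉ LX (ω u) ∧ P ∉ LX (ω z) with hA0
  set B : Fin K → (Fin n → Lab h r l) → Prop := fun a ω =>
    P ∈ LY (ω (e a)) ∧ rel ω (e a) u ∧ rel ω (e a) z with hB
  have step1 : pr (fun ω => A0 ω ∧ ∀ a ∈ (univ : Finset (Fin K)), B a ω)
      ≤ (∏ _a ∈ (univ : Finset (Fin K)), qq h r l) * pr A0 := by
    apply pr_chain_single_rel e A0 B (fun _ => qq h r l) (fun _ => qq_nonneg)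
    · intro i _ ω x hω
      have h1 : u ≠ e i := (hcw i).1.symm
      have h2 : z ≠ e i := (hcw i).2.symm
      simpa [hA0, Function.update_of_ne h1, Function.update_of_ne h2] using hω
    · intro i _ j _ hij ω x hω
      have h1 : u ≠ e j := (hcw j).1.symm
      have h2 : z ≠ e j := (hcw j).2.symm
      have h3 : e i ≠ e j := fun hh => (ne_of_lt hij) (he hh)
      simpa [hB, rel, Function.update_of_ne h1, Function.update_of_ne h2,
        Function.update_of_ne h3] using hω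
    · rintro i _ ω ⟨g1, g2, g3, g4⟩
      have h1 : u ≠ e i := (hcw i).1.symm
      have h2 : z ≠ e i := (hcw i).2.symm
      simp only [hB, rel, Function.update_of_ne h1, Function.update_of_ne h2,
        Function.update_self]
      by_cases hlt : e i < u
      · by_cases hlt' : e i < z
        · simp only [if_pos hlt, if_pos hlt']
          exact bound_S_older _ _ P g1 g3 g4
        · simp only [if_pos hlt, if_neg hlt']
          exact bound_S_mid _ _ P g3
      · by_cases hlt' : e i < z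
        · simp only [if_neg hlt, if_pos hlt']
          refine le_trans (pr_mono ?_) (bound_S_mid (ω z) (ω u) P g4)
          rintro x ⟨k1, k2, k3⟩
          exact ⟨k1, k3, k2⟩
        · simp only [if_neg hlt, if_neg hlt']
          exact bound_S_newer _ _ P g2
  have step3 : pr (fun ω : Fin n → Lab h r l => PropR4 ω ∧ raw ω u z ∧ P ∉ LX (ω u) ∧
      P ∉ LX (ω z) ∧
      Function.Injective e ∧ ∀ a, (P ∈ LY (ω (e a)) ∧ raw ω (e a) u ∧ raw ω (e a) z)) ≤
      pr (fun ω => A0 ω ∧ ∀ a ∈ (univ : Finset (Fin K)), B a ω) := by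
    apply pr_mono
    rintro ω ⟨g1, g2, g3, g4, g5, g6⟩
    refine ⟨⟨raw_disj g2, g1 u z huz, g3, g4⟩, fun a _ => ?_⟩
    obtain ⟨e1, e2, e3⟩ := g6 a
    exact ⟨e1, rel_of_raw e2, rel_of_raw e3⟩
  rw [prod_const, card_univ, Fintype.card_fin] at step1
  calc _ ≤ _ := step3
    _ ≤ _ := step1
    _ ≤ qq h r l ^ K * 1 := mul_le_mul_of_nonneg_left (pr_le_one _) (pow_nonneg qq_nonneg _)
    _ = _ := mul_one _

lemma prR3 (K : ℕ) :
    pr (fun ω : Fin n → Lab h r l => PropR4 ω ∧ ¬ PropR3 K ω)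
      ≤ (n : ℝ) * ((n : ℝ) * ((l : ℝ) * ((n : ℝ) ^ K * qq h r l ^ K))) := by
  have h1 : pr (fun ω : Fin n → Lab h r l => PropR4 ω ∧ ¬ PropR3 K ω)
      ≤ pr (fun ω : Fin n → Lab h r l => ∃ u : Fin n, ∃ z : Fin n, ∃ P : Fin l,
        ∃ e : Fin K → Fin n, (PropR4 ω ∧ raw ω u z ∧ P ∉ LX (ω u) ∧ P ∉ LX (ω z) ∧
      Function.Injective e ∧ ∀ a, (P ∈ LY (ω (e a)) ∧ raw ω (e a) u ∧ raw ω (e a) z))) := by
    apply pr_mono
    rintro ω ⟨hω4, hω⟩
    unfold PropR3 at hω
    push Not at hω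
    obtain ⟨u, z, P, g1, g2, g3, e, g4, g5⟩ := hω
    exact ⟨u, z, P, e, hω4, g1, g2, g3, g4, g5⟩
  refine h1.trans ?_
  have e1 : ∀ u z : Fin n, ∀ P : Fin l, pr (fun ω : Fin n → Lab h r l =>
        ∃ e : Fin K → Fin n, (PropR4 ω ∧ raw ω u z ∧ P ∉ LX (ω u) ∧ P ∉ LX (ω z) ∧
      Function.Injective e ∧ ∀ a, (P ∈ LY (ω (e a)) ∧ raw ω (e a) u ∧ raw ω (e a) z)))
      ≤ (n : ℝ) ^ K * qq h r l ^ K := by
    intro u z P
    have := pr_exists_le_const _ _ (fun e => prR3_config (h := h) (r := r) (l := l) K u z P e)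
    rw [Fintype.card_fun, Fintype.card_fin, Fintype.card_fin] at this
    push_cast at this
    exact this
  have e2 : ∀ u z : Fin n, pr (fun ω : Fin n → Lab h r l => ∃ P : Fin l,
        ∃ e : Fin K → Fin n, (PropR4 ω ∧ raw ω u z ∧ P ∉ LX (ω u) ∧ P ∉ LX (ω z) ∧
      Function.Injective e ∧ ∀ a, (P ∈ LY (ω (e a)) ∧ raw ω (e a) u ∧ raw ω (e a) z)))
      ≤ (l : ℝ) * ((n : ℝ) ^ K * qq h r l ^ K) := by
    intro u z
    have := pr_exists_le_const _ _ (e1 u z)
    rw [Fintype.card_fin] at this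
    exact this
  have e3 : ∀ u : Fin n, pr (fun ω : Fin n → Lab h r l => ∃ z : Fin n, ∃ P : Fin l,
        ∃ e : Fin K → Fin n, (PropR4 ω ∧ raw ω u z ∧ P ∉ LX (ω u) ∧ P ∉ LX (ω z) ∧
      Function.Injective e ∧ ∀ a, (P ∈ LY (ω (e a)) ∧ raw ω (e a) u ∧ raw ω (e a) z)))
      ≤ (n : ℝ) * ((l : ℝ) * ((n : ℝ) ^ K * qq h r l ^ K)) := by
    intro u
    have := pr_exists_le_const _ _ (e2 u)
    rw [Fintype.card_fin] at this
    exact this
  have := pr_exists_le_const _ _ e3
  rw [Fintype.card_fin] at this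
  exact this

lemma prR4 :
    pr (fun ω : Fin n → Lab h r l => ¬ PropR4 ω)
      ≤ (n : ℝ) * ((n : ℝ) * ((r : ℝ) * (r : ℝ) / (l : ℝ)) ^ 5) := by
  have h1 : pr (fun ω : Fin n → Lab h r l => ¬ PropR4 ω)
      ≤ pr (fun ω : Fin n → Lab h r l => ∃ u : Fin n, ∃ z : Fin n,
        (u ≠ z ∧ 5 ≤ (LY (ω u) ∩ LY (ω z)).card)) := by
    apply pr_mono
    intro ω hω
    unfold PropR4 at hω
    push Not at hω
    obtain ⟨u, z, g1, g2⟩ := hω
    exact ⟨u, z, g1, g2⟩
  refine h1.trans ?_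
  have e0 : ∀ u z : Fin n, pr (fun ω : Fin n → Lab h r l =>
      (u ≠ z ∧ 5 ≤ (LY (ω u) ∩ LY (ω z)).card)) ≤ ((r : ℝ) * (r : ℝ) / (l : ℝ)) ^ 5 := by
    intro u z
    by_cases huz : u = z
    · rw [pr_of_false (by intro ω hh; exact hh.1 huz)]
      positivity
    · have := pr_chain_single (V := Fin n) (W := Lab h r l) (ι := Fin 1) (fun _ => u)
        (fun _ ω => 5 ≤ (LY (ω u) ∩ LY (ω z)).card) (fun _ => ((r : ℝ) * (r : ℝ) / (l : ℝ)) ^ 5)
        (fun _ => by positivity) univ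
        (by
          intro i _ j _ hij
          exact absurd (Subsingleton.elim i j) (ne_of_lt hij))
        (by
          intro i _ ω
          have h2 : z ≠ u := fun hh => huz hh.symm
          simp only [Function.update_self, Function.update_of_ne h2]
          exact bound_common (ω z))
      calc _ ≤ pr (fun ω : Fin n → Lab h r l => ∀ i ∈ (univ : Finset (Fin 1)),
            5 ≤ (LY (ω u) ∩ LY (ω z)).card) := pr_mono (fun ω hh _ _ => hh.2)
        _ ≤ _ := this
        _ = _ := by simp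
  have e1 : ∀ u : Fin n, pr (fun ω : Fin n → Lab h r l => ∃ z : Fin n,
        (u ≠ z ∧ 5 ≤ (LY (ω u) ∩ LY (ω z)).card)) ≤ (n : ℝ) * ((r : ℝ) * (r : ℝ) / (l : ℝ)) ^ 5 := by
    intro u
    have := pr_exists_le_const _ _ (e0 u)
    rw [Fintype.card_fin] at this
    exact this
  have := pr_exists_le_const _ _ e1
  rw [Fintype.card_fin] at this
  exact this

lemma prR5 (K : ℕ) :
    pr (fun ω : Fin n → Lab h r l => ¬ PropR5 K ω)
      ≤ (l : ℝ) * ((l : ℝ) * ((n : ℝ) ^ K *
        (((h : ℝ) / (l : ℝ)) * ((r : ℝ) / (l : ℝ))) ^ K)) := by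
  have h1 : pr (fun ω : Fin n → Lab h r l => ¬ PropR5 K ω)
      ≤ pr (fun ω : Fin n → Lab h r l => ∃ P : Fin l, ∃ P' : Fin l,
        ∃ e : Fin K → Fin n, (Function.Injective e ∧
          ∀ a, (P ∈ LX (ω (e a)) ∧ P' ∈ LY (ω (e a))))) := by
    apply pr_mono
    intro ω hω
    unfold PropR5 at hω
    push Not at hω
    obtain ⟨P, P', e, g1, g2⟩ := hω
    exact ⟨P, P', e, g1, g2⟩
  refine h1.trans ?_
  have e0 : ∀ P P' : Fin l, ∀ e : Fin K → Fin n, pr (fun ω : Fin n → Lab h r l =>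
      (Function.Injective e ∧ ∀ a, (P ∈ LX (ω (e a)) ∧ P' ∈ LY (ω (e a)))))
      ≤ (((h : ℝ) / (l : ℝ)) * ((r : ℝ) / (l : ℝ))) ^ K := by
    intro P P' e
    by_cases he : Function.Injective e
    swap
    · rw [pr_of_false (by intro ω hh; exact he hh.1)]
      positivity
    · have := pr_chain_single (V := Fin n) (W := Lab h r l) (ι := Fin K) e
        (fun a ω => (P ∈ LX (ω (e a)) ∧ P' ∈ LY (ω (e a))))
        (fun _ => ((h : ℝ) / (l : ℝ)) * ((r : ℝ) / (l : ℝ)))
        (fun _ => by positivity) univ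
        (by
          intro i _ j _ hij ω x hω
          have h3 : e i ≠ e j := fun hh => (ne_of_lt hij) (he hh)
          simpa [Function.update_of_ne h3] using hω)
        (by
          intro i _ ω
          simp only [Function.update_self]
          exact bound_T P P')
      rw [prod_const, card_univ, Fintype.card_fin] at this
      calc _ ≤ _ := pr_mono (fun ω hh a _ => hh.2 a)
        _ ≤ _ := this
  have e1 : ∀ P P' : Fin l, pr (fun ω : Fin n → Lab h r l =>
        ∃ e : Fin K → Fin n, (Function.Injective e ∧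
          ∀ a, (P ∈ LX (ω (e a)) ∧ P' ∈ LY (ω (e a)))))
      ≤ (n : ℝ) ^ K * (((h : ℝ) / (l : ℝ)) * ((r : ℝ) / (l : ℝ))) ^ K := by
    intro P P'
    have := pr_exists_le_const _ _ (e0 P P')
    rw [Fintype.card_fun, Fintype.card_fin, Fintype.card_fin] at this
    push_cast at this
    exact this
  have e2 : ∀ P : Fin l, pr (fun ω : Fin n → Lab h r l => ∃ P' : Fin l,
        ∃ e : Fin K → Fin n, (Function.Injective e ∧
          ∀ a, (P ∈ LX (ω (e a)) ∧ P' ∈ LY (ω (e a)))))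
      ≤ (l : ℝ) * ((n : ℝ) ^ K * (((h : ℝ) / (l : ℝ)) * ((r : ℝ) / (l : ℝ))) ^ K) := by
    intro P
    have := pr_exists_le_const _ _ (e1 P)
    rw [Fintype.card_fin] at this
    exact this
  have := pr_exists_le_const _ _ e2
  rw [Fintype.card_fin] at this
  exact this

end bounds

end

end Pool.Agent.TH468
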