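import Pool.Agent.TH468.Prob

set_option autoImplicit false
set_option linter.unusedSectionVars false

/-!
# Probability bounds for random functions into a finite label set
-/

namespace Pool.Agent.TH468

open Finset

noncomputable section

section prod

variable {α β : Type*} [Fintype α] [Fintype β]

lemma pr_prod_le [Nonempty β] (P : α → Prop) (B : α → β → Prop) (b : ℝ)
    (hB : ∀ a, P a → pr (B a) ≤ b) :
    pr (fun z : α × β => P z.1 ∧ B z.1 z.2) ≤ b * pr P := by
  have hβ : (Fintype.card β : ℝ) ≠ 0 := by exact_mod_cast Fintype.card_ne_zero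
  have hβ' : 0 < (Fintype.card β : ℝ) := lt_of_le_of_ne (by positivity) (Ne.symm hβ)
  by_cases hα : (Fintype.card α : ℝ) = 0
  · unfold pr; rw [Fintype.card_prod]; push_cast; rw [hα]; simp
  have hα' : 0 < (Fintype.card α : ℝ) := lt_of_le_of_ne (by positivity) (Ne.symm hα)
  unfold pr
  rw [Fintype.card_prod, Fintype.sum_prod_type]
  push_cast
  rw [← mul_div_assoc, div_le_div_iff₀ (by positivity) (by positivity)]
  have : ∑ x : α, ∑ y : β, ind (P x ∧ B x y) ≤ ∑ x : α, ind (P x) * (b * Fintype.card β) := by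
    apply sum_le_sum
    intro x _
    by_cases hx : P x
    · rw [ind_of hx, one_mul]
      calc ∑ y : β, ind (P x ∧ B x y) ≤ ∑ y : β, ind (B x y) :=
            sum_le_sum (fun y _ => ind_mono (fun h => h.2))
        _ = Fintype.card β * pr (B x) := (card_mul_pr _ hβ).symm
        _ ≤ _ := by
          have := hB x hx
          nlinarith
    · rw [ind_not hx]
      simp [hx, ind_not]
  rw [← sum_mul] at this
  calc (∑ x : α, ∑ y : β, ind (P x ∧ B x y)) * (Fintype.card α : ℝ)
      ≤ ((∑ x : α, ind (P x)) * (b * Fintype.card β)) * (Fintype.card α : ℝ) :=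
        mul_le_mul_of_nonneg_right this hα'.le
    _ = _ := by ring

lemma pr_fst [Nonempty β] (A : α → Prop) : pr (fun z : α × β => A z.1) = pr A := by
  have hβ : (Fintype.card β : ℝ) ≠ 0 := by exact_mod_cast Fintype.card_ne_zero
  unfold pr
  rw [Fintype.card_prod, Fintype.sum_prod_type]
  simp only [sum_const, card_univ, nsmul_eq_mul, ← mul_sum]
  push_cast
  by_cases hα : (Fintype.card α : ℝ) = 0
  · rw [hα]; simp
  · field_simp

lemma pr_snd [Nonempty α] (A : β → Prop) : pr (fun z : α × β => A z.2) = pr A := by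
  have hα : (Fintype.card α : ℝ) ≠ 0 := by exact_mod_cast Fintype.card_ne_zero
  unfold pr
  rw [Fintype.card_prod, Fintype.sum_prod_type]
  simp only [sum_const, card_univ, nsmul_eq_mul]
  push_cast
  by_cases hβ : (Fintype.card β : ℝ) = 0
  · rw [hβ]; simp
  · field_simp

end prod

section labels

variable {J Q : Type*} [Fintype J] [DecidableEq J] [Fintype Q] [DecidableEq Q] [Nonempty Q]

lemma card_Q_pos : 0 < (Fintype.card Q : ℝ) := by
  have : 0 < Fintype.card Q := Fintype.card_pos
  exact_mod_cast this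

/-- prescribed coordinates -/
lemma pr_coords {k : ℕ} (e : Fin k → J) (he : Function.Injective e) (S : Fin k → Finset Q) :
    pr (fun y : J → Q => ∀ a, y (e a) ∈ S a) ≤ ∏ a, ((S a).card : ℝ) / (Fintype.card Q : ℝ) := by
  have h := pr_chain_single (V := J) (W := Q) (ι := Fin k) e (fun a y => y (e a) ∈ S a)
    (fun a => ((S a).card : ℝ) / (Fintype.card Q : ℝ)) (fun a => by positivity) univ
    (by
      intro i _ j _ hij ω x h
      have : e i ≠ e j := fun h => (ne_of_lt hij) (he h)
      simpa [Function.update_of_ne this] using h)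
    (by
      intro i _ ω
      simp only [Function.update_self]
      exact (pr_mem (S i)).le)
  simpa using h

lemma prod_union_bound {k : ℕ} (β : ℝ) (A : (Fin k → J) → (J → Q) → Prop)
    (h : ∀ e, pr (A e) ≤ β) :
    pr (fun y : J → Q => ∃ e, A e y) ≤ (Fintype.card J : ℝ) ^ k * β := by
  have := pr_exists_le_const A β h
  rw [Fintype.card_fun, Fintype.card_fin] at this
  push_cast at this
  exact this

/-- hitting several pairwise disjoint sets -/
lemma pr_hit_disjoint {k : ℕ} (A : Fin k → Finset Q)
    (hd : ∀ a b, a ≠ b → Disjoint (A a) (A b)) :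
    pr (fun y : J → Q => ∀ a, ∃ j, y j ∈ A a)
      ≤ ∏ a, ((Fintype.card J : ℝ) * ((A a).card : ℝ) / (Fintype.card Q : ℝ)) := by
  have h1 : pr (fun y : J → Q => ∀ a, ∃ j, y j ∈ A a)
      ≤ pr (fun y : J → Q => ∃ e : Fin k → J, Function.Injective e ∧ ∀ a, y (e a) ∈ A a) := by
    apply pr_mono
    intro y hy
    choose e he using hy
    refine ⟨e, ?_, he⟩
    intro a b hab
    by_contra hne
    have := Finset.disjoint_left.mp (hd a b hne) (he a)
    apply this
    rw [hab]; exact he b
  refine h1.trans ?_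
  have h2 := prod_union_bound (J := J) (Q := Q) (k := k)
    (∏ a, ((A a).card : ℝ) / (Fintype.card Q : ℝ))
    (fun e y => Function.Injective e ∧ ∀ a, y (e a) ∈ A a) (by
      intro e
      by_cases he : Function.Injective e
      · calc _ ≤ pr (fun y : J → Q => ∀ a, y (e a) ∈ A a) := pr_mono (fun y h => h.2)
          _ ≤ _ := pr_coords e he A
      · rw [pr_of_false (by tauto)]
        exact prod_nonneg (fun _ _ => by positivity))
  refine h2.trans (le_of_eq ?_)
  have : ∀ a, ((Fintype.card J : ℝ) * ((A a).card : ℝ) / (Fintype.card Q : ℝ))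
      = (Fintype.card J : ℝ) * (((A a).card : ℝ) / (Fintype.card Q : ℝ)) := by
    intro a; ring
  simp_rw [this]
  rw [prod_mul_distrib]
  simp

lemma exists_preimages {k : ℕ} (y : J → Q) (T : Finset Q) (hT : T ⊆ univ.image y)
    (hk : k ≤ T.card) : ∃ e : Fin k → J, Function.Injective e ∧ ∀ a, y (e a) ∈ T := by
  obtain ⟨T', hT', hc⟩ := Finset.exists_subset_card_eq hk
  have h1 : ∀ a : Fin k, ∃ j : J, y j = (T'.equivFin.symm (Fin.cast hc.symm a) : Q) := by
    intro a
    have := hT (hT' (T'.equivFin.symm (Fin.cast hc.symm a)).2)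
    simpa using this
  choose e he using h1
  refine ⟨e, ?_, ?_⟩
  · intro a b hab
    have h2 := he a
    rw [hab, he b] at h2
    have h3 := T'.equivFin.symm.injective (Subtype.ext h2)
    simpa using h3.symm
  · intro a
    rw [he a]
    exact hT' (T'.equivFin.symm (Fin.cast hc.symm a)).2

/-- hitting a set in several distinct labels -/
lemma pr_many_hits (k : ℕ) (A : Finset Q) :
    pr (fun y : J → Q => k ≤ (univ.image y ∩ A).card)
      ≤ ((Fintype.card J : ℝ) * (A.card : ℝ) / (Fintype.card Q : ℝ)) ^ k := by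
  have h1 : pr (fun y : J → Q => k ≤ (univ.image y ∩ A).card)
      ≤ pr (fun y : J → Q => ∃ e : Fin k → J, Function.Injective e ∧ ∀ a, y (e a) ∈ A) := by
    apply pr_mono
    intro y hy
    obtain ⟨e, he, h⟩ := exists_preimages y (univ.image y ∩ A) inter_subset_left hy
    exact ⟨e, he, fun a => (mem_inter.mp (h a)).2⟩
  refine h1.trans ?_
  have h2 := prod_union_bound (J := J) (Q := Q) (k := k)
    (∏ _a : Fin k, (A.card : ℝ) / (Fintype.card Q : ℝ))
    (fun e y => Function.Injective e ∧ ∀ a, y (e a) ∈ A) (by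
      intro e
      by_cases he : Function.Injective e
      · calc _ ≤ pr (fun y : J → Q => ∀ a, y (e a) ∈ A) := pr_mono (fun y h => h.2)
          _ ≤ _ := pr_coords e he (fun _ => A)
      · rw [pr_of_false (by tauto)]
        exact prod_nonneg (fun _ _ => by positivity))
  refine h2.trans (le_of_eq ?_)
  rw [prod_const, card_univ, Fintype.card_fin, ← mul_pow]
  congr 1
  ring

/-- hitting a label of `G` together with `k` further labels of the set attached to it -/
lemma pr_unclean (k : ℕ) (F : Q → Finset Q) (f : ℝ) (hf : ∀ P, ((F P).card : ℝ) ≤ f) (hf0 : 0 ≤ f) :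
    pr (fun y : J → Q => ∃ P ∈ univ.image y, k + 1 ≤ (univ.image y ∩ F P).card)
      ≤ (Fintype.card J : ℝ) * ((Fintype.card J : ℝ) * f / (Fintype.card Q : ℝ)) ^ k := by
  have h1 : pr (fun y : J → Q => ∃ P ∈ univ.image y, k + 1 ≤ (univ.image y ∩ F P).card)
      ≤ pr (fun y : J → Q => ∃ i : J, ∃ e : Fin k → J,
          ((Function.Injective e ∧ ∀ a, e a ≠ i) ∧ ∀ a, y (e a) ∈ F (y i))) := by
    apply pr_mono
    rintro y ⟨P, hP, hy⟩
    obtain ⟨i, -, hi⟩ := mem_image.mp hP
    subst hi
    have hc : k ≤ ((univ.image y ∩ F (y i)).erase (y i)).card := by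
      have := Finset.pred_card_le_card_erase (s := univ.image y ∩ F (y i)) (a := y i)
      omega
    obtain ⟨e, he, h⟩ := exists_preimages y ((univ.image y ∩ F (y i)).erase (y i))
      ((erase_subset _ _).trans inter_subset_left) hc
    refine ⟨i, e, ⟨he, ?_⟩, fun a => (mem_inter.mp (mem_erase.mp (h a)).2).2⟩
    intro a ha
    exact (mem_erase.mp (h a)).1 (by rw [ha])
  refine h1.trans ?_
  have h2 : pr (fun y : J → Q => ∃ i : J, ∃ e : Fin k → J,
          ((Function.Injective e ∧ ∀ a, e a ≠ i) ∧ ∀ a, y (e a) ∈ F (y i)))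
      ≤ (Fintype.card J : ℝ) * ((Fintype.card J : ℝ) ^ k * (f / (Fintype.card Q : ℝ)) ^ k) := by
    apply pr_exists_le_const
    intro i
    apply prod_union_bound
    intro e
    by_cases he : Function.Injective e ∧ ∀ a, e a ≠ i
    · calc _ ≤ pr (fun y : J → Q => ∀ a ∈ (univ : Finset (Fin k)), y (e a) ∈ F (y i)) :=
            pr_mono (fun y h a _ => h.2 a)
        _ ≤ ∏ _a : Fin k, (f / (Fintype.card Q : ℝ)) := by
          apply pr_chain_single (V := J) (W := Q) (ι := Fin k) e (fun a y => y (e a) ∈ F (y i))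
            (fun _ => f / (Fintype.card Q : ℝ)) (fun a => by positivity) univ
          · intro a _ b _ hab ω x h
            have h3 : e a ≠ e b := fun h => (ne_of_lt hab) (he.1 h)
            have h4 : i ≠ e b := (he.2 b).symm
            simpa [Function.update_of_ne h3, Function.update_of_ne h4] using h
          · intro a _ ω
            have h4 : i ≠ e a := (he.2 a).symm
            simp only [Function.update_self, Function.update_of_ne h4]
            exact pr_mem_le _ _ (hf _)
        _ = _ := by rw [prod_const, card_univ, Fintype.card_fin]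
    · rw [pr_of_false (by tauto)]
      positivity
  refine h2.trans (le_of_eq ?_)
  rw [← mul_pow]
  congr 2
  ring

/-- few distinct labels in a large set: unlikely -/
lemma pr_few_labels (s : ℕ) (U : Finset Q) :
    pr (fun y : J → Q => (univ.image y ∩ U).card ≤ s)
      ≤ (Fintype.card Q : ℝ) ^ s *
        (((Fintype.card Q : ℝ) - U.card + s) / (Fintype.card Q : ℝ)) ^ (Fintype.card J) := by
  have h1 : pr (fun y : J → Q => (univ.image y ∩ U).card ≤ s)
      ≤ pr (fun y : J → Q => ∃ g : Fin s → Q, ∀ j, y j ∈ Uᶜ ∪ univ.image g) := by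
    apply pr_mono
    intro y hy
    set T := univ.image y ∩ U with hT
    let g : Fin s → Q := fun i => if h : (i : ℕ) < T.card then (T.equivFin.symm ⟨i, h⟩ : Q)
      else Classical.arbitrary Q
    refine ⟨g, ?_⟩
    intro j
    by_cases hj : y j ∈ U
    · have hjT : y j ∈ T := by
        rw [hT]; exact mem_inter.mpr ⟨mem_image_of_mem _ (mem_univ _), hj⟩
      apply mem_union_right
      rw [mem_image]
      have hlt : ((T.equivFin ⟨y j, hjT⟩ : Fin T.card) : ℕ) < s := lt_of_lt_of_le (Fin.is_lt _) hy
      refine ⟨⟨(T.equivFin ⟨y j, hjT⟩ : Fin T.card), hlt⟩, mem_univ _, ?_⟩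
      simp [g]
    · apply mem_union_left
      exact mem_compl.mpr hj
  refine h1.trans ?_
  have h2 := pr_exists_le_const (Ω := J → Q) (fun (g : Fin s → Q) (y : J → Q) =>
    ∀ j, y j ∈ Uᶜ ∪ univ.image g)
    ((((Fintype.card Q : ℝ) - U.card + s) / (Fintype.card Q : ℝ)) ^ (Fintype.card J)) (by
      intro g
      rw [pr_pi (fun _ : J => Uᶜ ∪ univ.image g)]
      rw [prod_const, card_univ]
      apply pow_le_pow_left₀ (by positivity)
      apply div_le_div_of_nonneg_right _ (by positivity)
      have h3 : ((Uᶜ ∪ univ.image g).card : ℝ) ≤ (Uᶜ).card + (univ.image g).card := by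
        exact_mod_cast card_union_le _ _
      have h4 : ((univ.image g).card : ℝ) ≤ s := by
        have := card_image_le (s := (univ : Finset (Fin s))) (f := g)
        rw [card_univ, Fintype.card_fin] at this
        exact_mod_cast this
      have h5 : ((Uᶜ).card : ℝ) = Fintype.card Q - U.card := by
        rw [card_compl, Nat.cast_sub (card_le_univ U)]
      linarith)
  rw [Fintype.card_fun, Fintype.card_fin] at h2
  push_cast at h2
  exact h2

/-- avoiding a set -/
lemma pr_avoid (E : Finset Q) :
    pr (fun y : J → Q => ∀ j, y j ∉ E)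
      = (((Fintype.card Q : ℝ) - E.card) / (Fintype.card Q : ℝ)) ^ (Fintype.card J) := by
  have h := pr_pi (fun _ : J => Eᶜ)
  have h1 : (fun y : J → Q => ∀ j, y j ∉ E) = (fun y : J → Q => ∀ j, y j ∈ Eᶜ) := by
    funext y; simp
  rw [h1, h, prod_const, card_univ, card_compl, Nat.cast_sub (card_le_univ E)]

/-- hitting one set -/
lemma pr_hit (A : Finset Q) :
    pr (fun y : J → Q => ∃ j, y j ∈ A)
      ≤ (Fintype.card J : ℝ) * (A.card : ℝ) / (Fintype.card Q : ℝ) := by
  have h := pr_hit_disjoint (J := J) (k := 1) (fun _ => A) (by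
    intro a b hab; exact absurd (Subsingleton.elim a b) hab)
  simpa using h

/-- hitting two sets which may intersect -/
lemma pr_hit_two (A B : Finset Q) :
    pr (fun y : J → Q => (∃ j, y j ∈ A) ∧ ∃ j, y j ∈ B)
      ≤ ((Fintype.card J : ℝ) * (A.card : ℝ) / (Fintype.card Q : ℝ))
          * ((Fintype.card J : ℝ) * (B.card : ℝ) / (Fintype.card Q : ℝ))
        + (Fintype.card J : ℝ) * ((A ∩ B).card : ℝ) / (Fintype.card Q : ℝ) := by
  have h1 : pr (fun y : J → Q => (∃ j, y j ∈ A) ∧ ∃ j, y j ∈ B)
      ≤ pr (fun y : J → Q => (∀ a : Fin 2, ∃ j, y j ∈ (![A, B \ A] : Fin 2 → Finset Q) a)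
        ∨ ∃ j, y j ∈ A ∩ B) := by
    apply pr_mono
    rintro y ⟨⟨j, hj⟩, ⟨j', hj'⟩⟩
    by_cases h : y j' ∈ A
    · right
      exact ⟨j', mem_inter.mpr ⟨h, hj'⟩⟩
    · left
      intro a
      fin_cases a
      · exact ⟨j, hj⟩
      · exact ⟨j', mem_sdiff.mpr ⟨hj', h⟩⟩
  refine h1.trans ((pr_or_le _ _).trans ?_)
  apply add_le_add
  · refine (pr_hit_disjoint _ ?_).trans ?_
    · intro a b hab
      fin_cases a <;> fin_cases b
      · exact absurd rfl hab
      · exact disjoint_sdiff
      · exact disjoint_sdiff.symm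
      · exact absurd rfl hab
    · rw [Fin.prod_univ_two]
      simp only [Matrix.cons_val_zero, Matrix.cons_val_one]
      apply mul_le_mul_of_nonneg_left _ (by positivity)
      apply div_le_div_of_nonneg_right _ (by positivity)
      apply mul_le_mul_of_nonneg_left _ (by positivity)
      exact_mod_cast card_le_card sdiff_subset
  · exact pr_hit _

end labels

end

end Pool.Agent.TH468
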