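import Mathlib

set_option autoImplicit false
set_option linter.unusedSectionVars false

/-!
# Uniform probability on finite types, resampling and a chain bound
-/

namespace Pool.Agent.TH468

open Finset

noncomputable section

open Classical in
/-- indicator of a proposition -/
def ind (p : Prop) : ℝ := if p then 1 else 0

lemma ind_of {p : Prop} (h : p) : ind p = 1 := by simp [ind, h]
lemma ind_not {p : Prop} (h : ¬ p) : ind p = 0 := by simp [ind, h]
lemma ind_nonneg (p : Prop) : 0 ≤ ind p := by unfold ind; split_ifs <;> norm_num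
lemma ind_le_one (p : Prop) : ind p ≤ 1 := by unfold ind; split_ifs <;> norm_num
lemma ind_mono {p q : Prop} (h : p → q) : ind p ≤ ind q := by
  by_cases hp : p
  · rw [ind_of hp, ind_of (h hp)]
  · rw [ind_not hp]; exact ind_nonneg q
lemma ind_or_le (p q : Prop) : ind (p ∨ q) ≤ ind p + ind q := by
  by_cases hp : p
  · rw [ind_of hp]; have := ind_nonneg q; have := ind_le_one (p ∨ q); linarith
  · by_cases hq : q
    · rw [ind_of hq]; have := ind_nonneg p; have := ind_le_one (p ∨ q); linarith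
    · rw [ind_not (by tauto)]; have := ind_nonneg q; have := ind_nonneg p; linarith

/-- Uniform probability of an event on a finite type. -/
def pr {Ω : Type*} [Fintype Ω] (A : Ω → Prop) : ℝ :=
  (∑ ω, ind (A ω)) / (Fintype.card Ω : ℝ)

section basic

variable {Ω : Type*} [Fintype Ω]

lemma pr_nonneg (A : Ω → Prop) : 0 ≤ pr A := by
  unfold pr
  exact div_nonneg (sum_nonneg (fun _ _ => ind_nonneg _)) (by positivity)

lemma pr_mono {A B : Ω → Prop} (h : ∀ ω, A ω → B ω) : pr A ≤ pr B := by
  unfold pr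
  apply div_le_div_of_nonneg_right _ (by positivity)
  exact sum_le_sum (fun ω _ => ind_mono (h ω))

lemma pr_le_one (A : Ω → Prop) : pr A ≤ 1 := by
  unfold pr
  apply div_le_one_of_le₀ _ (by positivity)
  calc ∑ ω, ind (A ω) ≤ ∑ _ω : Ω, (1:ℝ) := sum_le_sum (fun ω _ => ind_le_one _)
    _ = _ := by simp

lemma pr_of_false {A : Ω → Prop} (h : ∀ ω, ¬ A ω) : pr A = 0 := by
  unfold pr
  rw [sum_congr rfl (fun ω _ => ind_not (h ω))]; simp

lemma pr_or_le (A B : Ω → Prop) : pr (fun ω => A ω ∨ B ω) ≤ pr A + pr B := by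
  unfold pr
  rw [← add_div]
  apply div_le_div_of_nonneg_right _ (by positivity)
  rw [← sum_add_distrib]
  exact sum_le_sum (fun ω _ => ind_or_le _ _)

lemma pr_exists_mem_le {ι : Type*} (s : Finset ι) (A : ι → Ω → Prop) :
    pr (fun ω => ∃ i ∈ s, A i ω) ≤ ∑ i ∈ s, pr (A i) := by
  unfold pr
  rw [← sum_div]
  apply div_le_div_of_nonneg_right _ (by positivity)
  rw [sum_comm]
  apply sum_le_sum
  intro ω _
  by_cases h : ∃ i ∈ s, A i ω
  · obtain ⟨i, hi, hA⟩ := h
    calc ind _ ≤ 1 := ind_le_one _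
      _ = ind (A i ω) := (ind_of hA).symm
      _ ≤ ∑ i ∈ s, ind (A i ω) :=
        single_le_sum (f := fun i => ind (A i ω)) (fun j _ => ind_nonneg _) hi
  · rw [ind_not h]; exact sum_nonneg (fun _ _ => ind_nonneg _)

lemma pr_exists_mem_le_const {ι : Type*} (s : Finset ι) (A : ι → Ω → Prop) (β : ℝ)
    (h : ∀ i ∈ s, pr (A i) ≤ β) :
    pr (fun ω => ∃ i ∈ s, A i ω) ≤ s.card * β := by
  refine (pr_exists_mem_le s A).trans ?_
  calc ∑ i ∈ s, pr (A i) ≤ ∑ _i ∈ s, β := sum_le_sum h
    _ = s.card * β := by simp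

lemma pr_exists_le_const {ι : Type*} [Fintype ι] (A : ι → Ω → Prop) (β : ℝ)
    (h : ∀ i, pr (A i) ≤ β) :
    pr (fun ω => ∃ i, A i ω) ≤ (Fintype.card ι) * β := by
  have := pr_exists_mem_le_const univ A β (fun i _ => h i)
  simpa using this

lemma exists_not_of_pr_lt_one [Nonempty Ω] {A : Ω → Prop} (h : pr A < 1) : ∃ ω, ¬ A ω := by
  by_contra hcon
  push Not at hcon
  have : pr A = 1 := by
    unfold pr
    rw [sum_congr rfl (fun ω _ => ind_of (hcon ω))]
    have : (Fintype.card Ω : ℝ) ≠ 0 := by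
      exact_mod_cast Fintype.card_ne_zero
    simp [this]
  linarith

lemma card_mul_pr (A : Ω → Prop) (hne : (Fintype.card Ω : ℝ) ≠ 0) :
    (Fintype.card Ω : ℝ) * pr A = ∑ ω, ind (A ω) := by
  unfold pr; field_simp

lemma pr_eq_card (A : Ω → Prop) [DecidablePred A] :
    pr A = ((univ.filter A).card : ℝ) / (Fintype.card Ω : ℝ) := by
  unfold pr ind
  congr 1
  rw [← Finset.sum_boole]
  apply sum_congr rfl
  intro ω _
  congr

lemma pr_mem (s : Finset Ω) : pr (fun ω => ω ∈ s) = (s.card : ℝ) / (Fintype.card Ω : ℝ) := by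
  classical
  rw [pr_eq_card]
  congr 2
  congr 1
  ext; simp

lemma pr_mem_le (s : Finset Ω) (m : ℝ) (h : (s.card : ℝ) ≤ m) :
    pr (fun ω => ω ∈ s) ≤ m / (Fintype.card Ω : ℝ) := by
  rw [pr_mem]
  exact div_le_div_of_nonneg_right h (by positivity)

end basic

section resample

variable {V W : Type*} [Fintype V] [DecidableEq V] [Fintype W]

lemma piecewise_piecewise_swap (F : Finset V) (ω a : V → W) :
    F.piecewise (F.piecewise ω a) (F.piecewise a ω) = ω := by
  ext v
  by_cases hv : v ∈ F <;> simp [Finset.piecewise, hv]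

/-- resampling identity -/
lemma sum_resample (F : Finset V) (f : (V → W) → ℝ) :
    ∑ ω : V → W, ∑ a : V → W, f (F.piecewise a ω)
      = (Fintype.card (V → W) : ℝ) * ∑ ω : V → W, f ω := by
  rw [← Fintype.sum_prod_type']
  have h1 : ∑ x : (V → W) × (V → W), f (F.piecewise x.2 x.1)
      = ∑ x : (V → W) × (V → W), f x.1 := by
    refine Finset.sum_nbij' (fun x => (F.piecewise x.2 x.1, F.piecewise x.1 x.2))
      (fun x => (F.piecewise x.2 x.1, F.piecewise x.1 x.2)) (by simp) (by simp) ?_ ?_ ?_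
    · rintro ⟨ω, a⟩ _
      simp only [Prod.mk.injEq]
      exact ⟨piecewise_piecewise_swap F ω a, piecewise_piecewise_swap F a ω⟩
    · rintro ⟨ω, a⟩ _
      simp only [Prod.mk.injEq]
      exact ⟨piecewise_piecewise_swap F ω a, piecewise_piecewise_swap F a ω⟩
    · rintro ⟨ω, a⟩ _
      rfl
  rw [h1, Fintype.sum_prod_type]
  simp [Finset.mul_sum]

/-- The resampling bound: if `A` does not depend on the coordinates in `F` and, given `A`,
resampling the coordinates in `F` makes `B` true with probability at most `β`, then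
`P(A and B) ≤ β P(A)`. -/
lemma pr_and_le (F : Finset V) (A B : (V → W) → Prop) (β : ℝ)
    (hA : ∀ ω a, A ω → A (F.piecewise a ω))
    (hB : ∀ ω, A ω → pr (fun a => B (F.piecewise a ω)) ≤ β) :
    pr (fun ω => A ω ∧ B ω) ≤ β * pr A := by
  by_cases hne : (Fintype.card (V → W) : ℝ) = 0
  · unfold pr; rw [hne]; simp
  have hpos : 0 < (Fintype.card (V → W) : ℝ) := lt_of_le_of_ne (by positivity) (Ne.symm hne)
  have key : (Fintype.card (V → W) : ℝ) * ∑ ω : V → W, ind (A ω ∧ B ω)
      ≤ ∑ ω : V → W, ind (A ω) * (β * (Fintype.card (V → W) : ℝ)) := by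
    rw [← sum_resample F]
    apply sum_le_sum
    intro ω _
    by_cases hω : A ω
    · rw [ind_of hω, one_mul]
      have h1 : ∑ a : V → W, ind (A (F.piecewise a ω) ∧ B (F.piecewise a ω))
          ≤ ∑ a : V → W, ind (B (F.piecewise a ω)) := by
        apply sum_le_sum
        intro a _
        exact ind_mono (fun h => h.2)
      refine h1.trans ?_
      rw [← card_mul_pr _ hne]
      have := hB ω hω
      nlinarith
    · have h1 : ∀ a : V → W, ind (A (F.piecewise a ω) ∧ B (F.piecewise a ω)) = 0 := by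
        intro a
        apply ind_not
        rintro ⟨hc, -⟩
        apply hω
        have := hA (F.piecewise a ω) (F.piecewise ω a) hc
        rwa [piecewise_piecewise_swap] at this
      simp [h1, ind_not hω]
  rw [← Finset.sum_mul, ← card_mul_pr _ hne, ← card_mul_pr _ hne] at key
  have h3 : (Fintype.card (V → W) : ℝ)^2 * pr (fun ω => A ω ∧ B ω)
      ≤ (Fintype.card (V → W) : ℝ)^2 * (β * pr A) := by nlinarith
  exact le_of_mul_le_mul_left h3 (by positivity)

/-- number of functions whose value at each point lies in a prescribed set -/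
lemma pr_pi (S : V → Finset W) :
    pr (fun a : V → W => ∀ v, a v ∈ S v)
      = ∏ v, ((S v).card : ℝ) / (Fintype.card W : ℝ) := by
  classical
  rw [pr_eq_card]
  have h1 : (univ.filter (fun a : V → W => ∀ v, a v ∈ S v)) = Fintype.piFinset S := by
    ext a; simp [Fintype.mem_piFinset]
  rw [h1, Fintype.card_piFinset, Fintype.card_fun, Finset.prod_div_distrib]
  push_cast
  simp

/-- an event that depends on a single coordinate -/
lemma pr_marginal [Nonempty W] (v : V) (E : W → Prop) :
    pr (fun a : V → W => E (a v)) = pr E := by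
  classical
  have hW : (Fintype.card W : ℝ) ≠ 0 := by exact_mod_cast Fintype.card_ne_zero
  have h := pr_pi (fun u : V => if u = v then univ.filter E else univ)
  have h1 : (fun a : V → W => ∀ u, a u ∈ (if u = v then univ.filter E else univ))
      = (fun a : V → W => E (a v)) := by
    funext a
    apply propext
    constructor
    · intro h
      have := h v
      simpa using this
    · intro h u
      by_cases hu : u = v
      · subst hu; simp [h]
      · simp [hu]
  rw [h1] at h
  rw [h, ← Finset.mul_prod_erase univ _ (mem_univ v)]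
  have h3 : ∏ u ∈ univ.erase v, (((if u = v then univ.filter E else univ : Finset W).card : ℝ)
        / (Fintype.card W : ℝ)) = 1 := by
    apply Finset.prod_eq_one
    intro u hu
    rw [if_neg (Finset.mem_erase.mp hu).1, Finset.card_univ]
    field_simp
  rw [h3, mul_one, if_pos rfl, pr_eq_card]

/-- chain bound relative to an event, version with sets of private coordinates -/
lemma pr_chain_rel {ι : Type*} [LinearOrder ι] (F : ι → Finset V) (A : (V → W) → Prop)
    (B : ι → (V → W) → Prop)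
    (β : ι → ℝ) (hβ : ∀ i, 0 ≤ β i) (U : Finset ι)
    (hA : ∀ i ∈ U, ∀ ω a, A ω → A ((F i).piecewise a ω))
    (hloc : ∀ i ∈ U, ∀ j ∈ U, i < j → ∀ ω a, B i ω → B i ((F j).piecewise a ω))
    (hcond : ∀ i ∈ U, ∀ ω, A ω → pr (fun a => B i ((F i).piecewise a ω)) ≤ β i) :
    pr (fun ω => A ω ∧ ∀ i ∈ U, B i ω) ≤ (∏ i ∈ U, β i) * pr A := by
  induction U using Finset.induction_on_max with
  | empty => simp
  | insert a s ha ih =>
    have has : a ∉ s := fun h => lt_irrefl _ (ha a h)
    rw [Finset.prod_insert has]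
    have ih' := ih (fun i hi => hA i (mem_insert_of_mem hi))
      (fun i hi j hj => hloc i (mem_insert_of_mem hi) j (mem_insert_of_mem hj))
      (fun i hi => hcond i (mem_insert_of_mem hi))
    have h1 : pr (fun ω => (A ω ∧ ∀ i ∈ s, B i ω) ∧ B a ω)
        ≤ β a * pr (fun ω => A ω ∧ ∀ i ∈ s, B i ω) := by
      apply pr_and_le (F a)
      · rintro ω b ⟨h0, h⟩
        refine ⟨hA a (mem_insert_self _ _) ω b h0, fun i hi => ?_⟩
        exact hloc i (mem_insert_of_mem hi) a (mem_insert_self _ _) (ha i hi) ω b (h i hi)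
      · rintro ω ⟨h0, _⟩
        exact hcond a (mem_insert_self _ _) ω h0
    have h2 : pr (fun ω => A ω ∧ ∀ i ∈ insert a s, B i ω)
        ≤ pr (fun ω => (A ω ∧ ∀ i ∈ s, B i ω) ∧ B a ω) := by
      apply pr_mono
      rintro ω ⟨h0, h⟩
      exact ⟨⟨h0, fun i hi => h i (mem_insert_of_mem hi)⟩, h a (mem_insert_self _ _)⟩
    calc _ ≤ _ := h2
      _ ≤ _ := h1
      _ ≤ β a * ((∏ i ∈ s, β i) * pr A) := mul_le_mul_of_nonneg_left ih' (hβ a)
      _ = _ := by ring

/-- chain bound, version with sets of private coordinates -/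
lemma pr_chain {ι : Type*} [LinearOrder ι] (F : ι → Finset V) (B : ι → (V → W) → Prop)
    (β : ι → ℝ) (hβ : ∀ i, 0 ≤ β i) (U : Finset ι)
    (hloc : ∀ i ∈ U, ∀ j ∈ U, i < j → ∀ ω a, B i ω → B i ((F j).piecewise a ω))
    (hcond : ∀ i ∈ U, ∀ ω, pr (fun a => B i ((F i).piecewise a ω)) ≤ β i) :
    pr (fun ω => ∀ i ∈ U, B i ω) ≤ ∏ i ∈ U, β i := by
  have h := pr_chain_rel F (fun _ => True) B β hβ U (fun _ _ _ _ _ => trivial) hloc
    (fun i hi ω _ => hcond i hi ω)
  calc pr (fun ω => ∀ i ∈ U, B i ω) ≤ pr (fun ω => True ∧ ∀ i ∈ U, B i ω) :=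
        pr_mono (fun ω h => ⟨trivial, h⟩)
    _ ≤ _ := h
    _ ≤ (∏ i ∈ U, β i) * 1 :=
        mul_le_mul_of_nonneg_left (pr_le_one _) (prod_nonneg (fun i _ => hβ i))
    _ = _ := mul_one _

/-- chain bound relative to an event, version with one private coordinate for each event -/
lemma pr_chain_single_rel {ι : Type*} [LinearOrder ι] [Nonempty W] (e : ι → V)
    (A : (V → W) → Prop) (B : ι → (V → W) → Prop)
    (β : ι → ℝ) (hβ : ∀ i, 0 ≤ β i) (U : Finset ι)
    (hA : ∀ i ∈ U, ∀ ω x, A ω → A (Function.update ω (e i) x))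
    (hloc : ∀ i ∈ U, ∀ j ∈ U, i < j → ∀ ω x, B i ω → B i (Function.update ω (e j) x))
    (hcond : ∀ i ∈ U, ∀ ω, A ω → pr (fun x : W => B i (Function.update ω (e i) x)) ≤ β i) :
    pr (fun ω => A ω ∧ ∀ i ∈ U, B i ω) ≤ (∏ i ∈ U, β i) * pr A := by
  apply pr_chain_rel (fun i => {e i}) A B β hβ U
  · intro i hi ω a h
    rw [Finset.piecewise_singleton]
    exact hA i hi ω _ h
  · intro i hi j hj hij ω a h
    rw [Finset.piecewise_singleton]
    exact hloc i hi j hj hij ω _ h
  · intro i hi ω h0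
    have h1 : (fun a : V → W => B i (Finset.piecewise {e i} a ω))
        = (fun a : V → W => (fun x => B i (Function.update ω (e i) x)) (a (e i))) := by
      funext a
      rw [Finset.piecewise_singleton]
    rw [h1, pr_marginal (e i) (fun x => B i (Function.update ω (e i) x))]
    exact hcond i hi ω h0

/-- chain bound, version with one private coordinate for each event -/
lemma pr_chain_single {ι : Type*} [LinearOrder ι] [Nonempty W] (e : ι → V)
    (B : ι → (V → W) → Prop)
    (β : ι → ℝ) (hβ : ∀ i, 0 ≤ β i) (U : Finset ι)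
    (hloc : ∀ i ∈ U, ∀ j ∈ U, i < j → ∀ ω x, B i ω → B i (Function.update ω (e j) x))
    (hcond : ∀ i ∈ U, ∀ ω, pr (fun x : W => B i (Function.update ω (e i) x)) ≤ β i) :
    pr (fun ω => ∀ i ∈ U, B i ω) ≤ ∏ i ∈ U, β i := by
  have h := pr_chain_single_rel e (fun _ => True) B β hβ U (fun _ _ _ _ _ => trivial) hloc
    (fun i hi ω _ => hcond i hi ω)
  calc pr (fun ω => ∀ i ∈ U, B i ω) ≤ pr (fun ω => True ∧ ∀ i ∈ U, B i ω) :=
        pr_mono (fun ω h => ⟨trivial, h⟩)
    _ ≤ _ := h
    _ ≤ (∏ i ∈ U, β i) * 1 :=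
        mul_le_mul_of_nonneg_left (pr_le_one _) (prod_nonneg (fun i _ => hβ i))
    _ = _ := mul_one _

end resample

end

end Pool.Agent.TH468
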