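import Pool.Agent.TH468.Labels

set_option autoImplicit false
set_option linter.unusedSectionVars false

/-!
# Labels of a vertex and the raw relation
-/

namespace Pool.Agent.TH468

open Finset

noncomputable section

/-- A vertex carries `h` labels of the first kind and `r` labels of the second kind. -/
abbrev Lab (h r l : ℕ) : Type := (Fin h → Fin l) × (Fin r → Fin l)

variable {h r l : ℕ}

/-- set of labels of the first kind -/
def LX (a : Lab h r l) : Finset (Fin l) := univ.image a.1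

/-- set of labels of the second kind -/
def LY (a : Lab h r l) : Finset (Fin l) := univ.image a.2

/-- the (newer) vertex with labels `a` points to the (older) vertex with labels `b` -/
def arrL (a b : Lab h r l) : Prop := ¬ Disjoint (LX a) (LY b) ∧ Disjoint (LX a) (LX b)

lemma card_LX_le (a : Lab h r l) : (LX a).card ≤ h := by
  unfold LX; exact card_image_le.trans (by simp)

lemma card_LY_le (a : Lab h r l) : (LY a).card ≤ r := by
  unfold LY; exact card_image_le.trans (by simp)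

lemma mem_LX {a : Lab h r l} {P : Fin l} : P ∈ LX a ↔ ∃ i, a.1 i = P := by
  unfold LX; simp

lemma mem_LY {a : Lab h r l} {P : Fin l} : P ∈ LY a ↔ ∃ i, a.2 i = P := by
  unfold LY; simp

lemma not_disjoint_LY {A : Finset (Fin l)} {a : Lab h r l} :
    ¬ Disjoint A (LY a) ↔ ∃ j, a.2 j ∈ A := by
  rw [Finset.not_disjoint_iff]
  constructor
  · rintro ⟨P, hP, h2⟩
    obtain ⟨i, rfl⟩ := mem_LY.mp h2
    exact ⟨i, hP⟩
  · rintro ⟨i, hi⟩
    exact ⟨_, hi, mem_LY.mpr ⟨i, rfl⟩⟩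

lemma not_disjoint_LX {A : Finset (Fin l)} {a : Lab h r l} :
    ¬ Disjoint (LX a) A ↔ ∃ j, a.1 j ∈ A := by
  rw [Finset.not_disjoint_iff]
  constructor
  · rintro ⟨P, h2, hP⟩
    obtain ⟨i, rfl⟩ := mem_LX.mp h2
    exact ⟨i, hP⟩
  · rintro ⟨i, hi⟩
    exact ⟨_, mem_LX.mpr ⟨i, rfl⟩, hi⟩

/-- density -/
def pp (h r l : ℕ) : ℝ := (h : ℝ) * (r : ℝ) / (l : ℝ)

lemma pp_nonneg : 0 ≤ pp h r l := by unfold pp; positivity

section bounds

variable [NeZero l]

instance : Nonempty (Fin l) := ⟨0⟩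

/-- the second-kind labels hit `k` pairwise disjoint sets of size at most `h` -/
lemma prY_hits {k : ℕ} (A : Fin k → Finset (Fin l))
    (hd : ∀ a b, a ≠ b → Disjoint (A a) (A b)) (hc : ∀ a, (A a).card ≤ h) :
    pr (fun y : Fin r → Fin l => ∀ a, ∃ j, y j ∈ A a) ≤ pp h r l ^ k := by
  refine (pr_hit_disjoint A hd).trans ?_
  rw [Fintype.card_fin, Fintype.card_fin]
  calc ∏ a, ((r : ℝ) * ((A a).card : ℝ) / (l : ℝ)) ≤ ∏ _a : Fin k, pp h r l := by
        apply prod_le_prod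
        · intro a _; positivity
        · intro a _
          unfold pp
          apply div_le_div_of_nonneg_right _ (by positivity)
          have : ((A a).card : ℝ) ≤ h := by exact_mod_cast hc a
          nlinarith [(Nat.cast_nonneg r : (0:ℝ) ≤ r)]
    _ = _ := by rw [prod_const, card_univ, Fintype.card_fin]

lemma prX_hit (B : Finset (Fin l)) (hB : B.card ≤ r) :
    pr (fun x : Fin h → Fin l => ∃ j, x j ∈ B) ≤ pp h r l := by
  refine (pr_hit B).trans ?_
  rw [Fintype.card_fin, Fintype.card_fin]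
  unfold pp
  apply div_le_div_of_nonneg_right _ (by positivity)
  have : (B.card : ℝ) ≤ r := by exact_mod_cast hB
  nlinarith [(Nat.cast_nonneg h : (0:ℝ) ≤ h)]

lemma pr_lab_and (P : (Fin h → Fin l) → Prop) (R : (Fin r → Fin l) → Prop) (a b : ℝ)
    (hP : pr P ≤ a) (hR : pr R ≤ b) (hb : 0 ≤ b) :
    pr (fun z : Lab h r l => P z.1 ∧ R z.2) ≤ a * b := by
  refine (pr_prod_le P (fun _ => R) b (fun _ _ => hR)).trans ?_
  rw [mul_comm a b]
  exact mul_le_mul_of_nonneg_left hP hb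

lemma disj_two {A B : Finset (Fin l)} (hd : Disjoint A B) :
    ∀ a b : Fin 2, a ≠ b → Disjoint ((![A, B] : Fin 2 → Finset (Fin l)) a)
      ((![A, B] : Fin 2 → Finset (Fin l)) b) := by
  intro a b hab
  fin_cases a <;> fin_cases b
  · exact absurd rfl hab
  · exact hd
  · exact hd.symm
  · exact absurd rfl hab

lemma disj_three {A B C : Finset (Fin l)} (h1 : Disjoint A B) (h2 : Disjoint A C)
    (h3 : Disjoint B C) :
    ∀ a b : Fin 3, a ≠ b → Disjoint ((![A, B, C] : Fin 3 → Finset (Fin l)) a)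
      ((![A, B, C] : Fin 3 → Finset (Fin l)) b) := by
  intro a b hab
  fin_cases a <;> fin_cases b
  · exact absurd rfl hab
  · exact h1
  · exact h2
  · exact h1.symm
  · exact absurd rfl hab
  · exact h3
  · exact h2.symm
  · exact h3.symm
  · exact absurd rfl hab

lemma prY_hits_two (A B : Finset (Fin l)) (hd : Disjoint A B) (hA : A.card ≤ h)
    (hB : B.card ≤ h) :
    pr (fun y : Fin r → Fin l => (∃ j, y j ∈ A) ∧ (∃ j, y j ∈ B)) ≤ pp h r l ^ 2 := by
  refine le_trans (pr_mono ?_) (prY_hits (h := h) (r := r) ![A, B] (disj_two hd) ?_)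
  · rintro y ⟨h1, h2⟩ a
    fin_cases a
    · exact h1
    · exact h2
  · intro a
    fin_cases a
    · exact hA
    · exact hB

lemma prY_hits_three (A B C : Finset (Fin l)) (h1 : Disjoint A B) (h2 : Disjoint A C)
    (h3 : Disjoint B C) (hA : A.card ≤ h)
    (hB : B.card ≤ h) (hC : C.card ≤ h) :
    pr (fun y : Fin r → Fin l => (∃ j, y j ∈ A) ∧ (∃ j, y j ∈ B) ∧ (∃ j, y j ∈ C))
      ≤ pp h r l ^ 3 := by
  refine le_trans (pr_mono ?_) (prY_hits (h := h) (r := r) ![A, B, C] (disj_three h1 h2 h3) ?_)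
  · rintro y ⟨h1, h2, h3⟩ a
    fin_cases a
    · exact h1
    · exact h2
    · exact h3
  · intro a
    fin_cases a
    · exact hA
    · exact hB
    · exact hC

lemma prY_hit_one (A : Finset (Fin l)) (hA : A.card ≤ h) :
    pr (fun y : Fin r → Fin l => ∃ j, y j ∈ A) ≤ pp h r l := by
  refine (pr_hit A).trans ?_
  rw [Fintype.card_fin, Fintype.card_fin]
  unfold pp
  apply div_le_div_of_nonneg_right _ (by positivity)
  have : (A.card : ℝ) ≤ h := by exact_mod_cast hA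
  nlinarith [(Nat.cast_nonneg r : (0:ℝ) ≤ r)]

/-- two older-side conditions -/
lemma bound_Q_down (ac aw : Lab h r l) (hd : Disjoint (LX ac) (LX aw)) :
    pr (fun x : Lab h r l => arrL ac x ∧ arrL aw x) ≤ pp h r l ^ 2 := by
  refine le_trans (pr_mono (B := fun x : Lab h r l => (fun y : Fin r → Fin l =>
    (∃ j, y j ∈ LX ac) ∧ (∃ j, y j ∈ LX aw)) x.2) ?_) ?_
  · rintro x ⟨h1, h2⟩
    exact ⟨not_disjoint_LY.mp h1.1, not_disjoint_LY.mp h2.1⟩
  · rw [pr_snd (fun y : Fin r → Fin l => (∃ j, y j ∈ LX ac) ∧ (∃ j, y j ∈ LX aw))]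
    exact prY_hits_two _ _ hd (card_LX_le _) (card_LX_le _)

lemma bound_Q_up (ac aw : Lab h r l) :
    pr (fun x : Lab h r l => arrL ac x ∧ arrL x aw) ≤ pp h r l ^ 2 := by
  calc pr (fun x : Lab h r l => arrL ac x ∧ arrL x aw)
      ≤ pr (fun x : Lab h r l => (∃ j, x.1 j ∈ LY aw) ∧ (∃ j, x.2 j ∈ LX ac)) := by
        apply pr_mono
        rintro x ⟨h1, h2⟩
        exact ⟨not_disjoint_LX.mp h2.1, not_disjoint_LY.mp h1.1⟩
    _ ≤ pp h r l * pp h r l :=
        pr_lab_and (fun x => ∃ j, x j ∈ LY aw) (fun y => ∃ j, y j ∈ LX ac) _ _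
          (prX_hit _ (card_LY_le _)) (prY_hit_one _ (card_LX_le _)) pp_nonneg
    _ = _ := by ring

lemma bound_R_down (ac aw az : Lab h r l) (h1 : Disjoint (LX ac) (LX aw))
    (h2 : Disjoint (LX ac) (LX az)) (h3 : Disjoint (LX aw) (LX az)) :
    pr (fun x : Lab h r l => arrL ac x ∧ arrL aw x ∧ arrL az x) ≤ pp h r l ^ 3 := by
  refine le_trans (pr_mono (B := fun x : Lab h r l => (fun y : Fin r → Fin l =>
    (∃ j, y j ∈ LX ac) ∧ (∃ j, y j ∈ LX aw) ∧ (∃ j, y j ∈ LX az)) x.2) ?_) ?_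
  · rintro x ⟨h1, h2, h3⟩
    exact ⟨not_disjoint_LY.mp h1.1, not_disjoint_LY.mp h2.1, not_disjoint_LY.mp h3.1⟩
  · rw [pr_snd (fun y : Fin r → Fin l =>
      (∃ j, y j ∈ LX ac) ∧ (∃ j, y j ∈ LX aw) ∧ (∃ j, y j ∈ LX az))]
    exact prY_hits_three _ _ _ h1 h2 h3 (card_LX_le _) (card_LX_le _) (card_LX_le _)

lemma bound_R_up (ac aw az : Lab h r l) (h2 : Disjoint (LX ac) (LX az)) :
    pr (fun x : Lab h r l => arrL ac x ∧ arrL x aw ∧ arrL az x) ≤ pp h r l ^ 3 := by
  calc pr (fun x : Lab h r l => arrL ac x ∧ arrL x aw ∧ arrL az x)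
      ≤ pr (fun x : Lab h r l => (∃ j, x.1 j ∈ LY aw) ∧
          ((∃ j, x.2 j ∈ LX ac) ∧ (∃ j, x.2 j ∈ LX az))) := by
        apply pr_mono
        rintro x ⟨h1, h2, h3⟩
        exact ⟨not_disjoint_LX.mp h2.1, not_disjoint_LY.mp h1.1, not_disjoint_LY.mp h3.1⟩
    _ ≤ pp h r l * pp h r l ^ 2 :=
        pr_lab_and (fun x => ∃ j, x j ∈ LY aw)
          (fun y => (∃ j, y j ∈ LX ac) ∧ (∃ j, y j ∈ LX az)) _ _
          (prX_hit _ (card_LY_le _)) (prY_hits_two _ _ h2 (card_LX_le _) (card_LX_le _))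
          (pow_nonneg pp_nonneg _)
    _ = _ := by ring

/-- the bound `(r/l) (p^2 + 4h/l)` -/
def qq (h r l : ℕ) : ℝ := ((r : ℝ) / (l : ℝ)) * (pp h r l ^ 2 + 4 * ((h : ℝ) / (l : ℝ)))

lemma qq_nonneg : 0 ≤ qq h r l := by unfold qq; have := pp_nonneg (h := h) (r := r) (l := l); positivity

lemma rl_pp_le_qq : ((r : ℝ) / (l : ℝ)) * pp h r l ^ 2 ≤ qq h r l := by
  unfold qq
  apply mul_le_mul_of_nonneg_left _ (by positivity)
  have : 0 ≤ 4 * ((h : ℝ) / (l : ℝ)) := by positivity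
  linarith

lemma prY_hit_pt (P : Fin l) :
    pr (fun y : Fin r → Fin l => ∃ j, y j = P) ≤ (r : ℝ) / (l : ℝ) := by
  have := pr_hit (J := Fin r) ({P} : Finset (Fin l))
  simpa using this

lemma prX_hit_pt (P : Fin l) :
    pr (fun y : Fin h → Fin l => ∃ j, y j = P) ≤ (h : ℝ) / (l : ℝ) := by
  have := pr_hit (J := Fin h) ({P} : Finset (Fin l))
  simpa using this

lemma bound_S_newer (au az : Lab h r l) (P : Fin l) (hi : (LY au ∩ LY az).card ≤ 4) :
    pr (fun x : Lab h r l => P ∈ LY x ∧ arrL x au ∧ arrL x az) ≤ qq h r l := by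
  calc pr (fun x : Lab h r l => P ∈ LY x ∧ arrL x au ∧ arrL x az)
      ≤ pr (fun x : Lab h r l => ((∃ j, x.1 j ∈ LY au) ∧ (∃ j, x.1 j ∈ LY az)) ∧
          (∃ j, x.2 j = P)) := by
        apply pr_mono
        rintro x ⟨h1, h2, h3⟩
        exact ⟨⟨not_disjoint_LX.mp h2.1, not_disjoint_LX.mp h3.1⟩, mem_LY.mp h1⟩
    _ ≤ (pp h r l ^ 2 + 4 * ((h : ℝ) / (l : ℝ))) * ((r : ℝ) / (l : ℝ)) := by
        apply pr_lab_and (fun x => (∃ j, x j ∈ LY au) ∧ (∃ j, x j ∈ LY az))
          (fun y => ∃ j, y j = P)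
        · refine (pr_hit_two (LY au) (LY az)).trans ?_
          rw [Fintype.card_fin, Fintype.card_fin]
          have e1 : (h : ℝ) * ((LY au).card : ℝ) / (l : ℝ) ≤ pp h r l := by
            unfold pp
            apply div_le_div_of_nonneg_right _ (by positivity)
            have : ((LY au).card : ℝ) ≤ r := by exact_mod_cast card_LY_le au
            nlinarith [(Nat.cast_nonneg h : (0:ℝ) ≤ h)]
          have e2 : (h : ℝ) * ((LY az).card : ℝ) / (l : ℝ) ≤ pp h r l := by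
            unfold pp
            apply div_le_div_of_nonneg_right _ (by positivity)
            have : ((LY az).card : ℝ) ≤ r := by exact_mod_cast card_LY_le az
            nlinarith [(Nat.cast_nonneg h : (0:ℝ) ≤ h)]
          have e3 : (h : ℝ) * ((LY au ∩ LY az).card : ℝ) / (l : ℝ) ≤ 4 * ((h : ℝ) / (l : ℝ)) := by
            have : ((LY au ∩ LY az).card : ℝ) ≤ 4 := by exact_mod_cast hi
            rw [← mul_div_assoc]
            apply div_le_div_of_nonneg_right _ (by positivity)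
            nlinarith [(Nat.cast_nonneg h : (0:ℝ) ≤ h)]
          have e4 : (h : ℝ) * ((LY au).card : ℝ) / (l : ℝ) * ((h : ℝ) * ((LY az).card : ℝ) / (l : ℝ))
              ≤ pp h r l * pp h r l :=
            mul_le_mul e1 e2 (by positivity) pp_nonneg
          nlinarith
        · exact prY_hit_pt P
        · positivity
    _ = _ := by unfold qq; ring

lemma rh_bound (au : Lab h r l) : (r : ℝ) * ((LX au).card : ℝ) / (l : ℝ) ≤ pp h r l := by
  unfold pp
  apply div_le_div_of_nonneg_right _ (by positivity)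
  have : ((LX au).card : ℝ) ≤ h := by exact_mod_cast card_LX_le au
  nlinarith [(Nat.cast_nonneg r : (0:ℝ) ≤ r)]

lemma prY_three_pt (P : Fin l) (au az : Lab h r l) (hd : Disjoint (LX au) (LX az))
    (hu : P ∉ LX au) (hz : P ∉ LX az) :
    pr (fun y : Fin r → Fin l => (∃ j, y j = P) ∧ (∃ j, y j ∈ LX au) ∧ (∃ j, y j ∈ LX az))
      ≤ ((r : ℝ) / (l : ℝ)) * pp h r l ^ 2 := by
  refine le_trans (pr_mono ?_) ((pr_hit_disjoint (J := Fin r) (Q := Fin l) ![{P}, LX au, LX az]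
    (disj_three (disjoint_singleton_left.mpr hu) (disjoint_singleton_left.mpr hz) hd)).trans ?_)
  · rintro y ⟨h1, h2, h3⟩ a
    fin_cases a
    · obtain ⟨j, hj⟩ := h1
      exact ⟨j, by simpa using hj⟩
    · exact h2
    · exact h3
  · rw [Fin.prod_univ_three, Fintype.card_fin, Fintype.card_fin]
    have e1 := rh_bound au
    have e2 := rh_bound az
    have e4 : (r : ℝ) * ((LX au).card : ℝ) / (l : ℝ) * ((r : ℝ) * ((LX az).card : ℝ) / (l : ℝ))
        ≤ pp h r l * pp h r l :=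
      mul_le_mul e1 e2 (by positivity) pp_nonneg
    have e5 : 0 ≤ (r : ℝ) / (l : ℝ) := by positivity
    have e6 : ((![{P}, LX au, LX az] : Fin 3 → Finset (Fin l)) 0).card = 1 := by simp
    have e7 : ((![{P}, LX au, LX az] : Fin 3 → Finset (Fin l)) 1) = LX au := rfl
    have e8 : ((![{P}, LX au, LX az] : Fin 3 → Finset (Fin l)) 2) = LX az := rfl
    rw [e6, e7, e8]
    calc (r : ℝ) * ((1 : ℕ) : ℝ) / (l : ℝ) * ((r : ℝ) * ((LX au).card : ℝ) / (l : ℝ))
          * ((r : ℝ) * ((LX az).card : ℝ) / (l : ℝ))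
        = ((r : ℝ) / (l : ℝ)) * ((r : ℝ) * ((LX au).card : ℝ) / (l : ℝ)
          * ((r : ℝ) * ((LX az).card : ℝ) / (l : ℝ))) := by push_cast; ring
      _ ≤ ((r : ℝ) / (l : ℝ)) * (pp h r l * pp h r l) := mul_le_mul_of_nonneg_left e4 e5
      _ = _ := by ring

lemma prY_two_pt (P : Fin l) (au : Lab h r l) (hu : P ∉ LX au) :
    pr (fun y : Fin r → Fin l => (∃ j, y j = P) ∧ (∃ j, y j ∈ LX au))
      ≤ ((r : ℝ) / (l : ℝ)) * pp h r l := by
  refine le_trans (pr_mono ?_) ((pr_hit_disjoint (J := Fin r) (Q := Fin l) ![{P}, LX au]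
    (disj_two (disjoint_singleton_left.mpr hu))).trans ?_)
  · rintro y ⟨h1, h2⟩ a
    fin_cases a
    · obtain ⟨j, hj⟩ := h1
      exact ⟨j, by simpa using hj⟩
    · exact h2
  · rw [Fin.prod_univ_two, Fintype.card_fin, Fintype.card_fin]
    have e1 := rh_bound au
    have e5 : 0 ≤ (r : ℝ) / (l : ℝ) := by positivity
    have e6 : ((![{P}, LX au] : Fin 2 → Finset (Fin l)) 0).card = 1 := by simp
    have e7 : ((![{P}, LX au] : Fin 2 → Finset (Fin l)) 1) = LX au := rfl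
    rw [e6, e7]
    calc (r : ℝ) * ((1 : ℕ) : ℝ) / (l : ℝ) * ((r : ℝ) * ((LX au).card : ℝ) / (l : ℝ))
        = ((r : ℝ) / (l : ℝ)) * ((r : ℝ) * ((LX au).card : ℝ) / (l : ℝ)) := by
          push_cast; ring
      _ ≤ ((r : ℝ) / (l : ℝ)) * (pp h r l) := mul_le_mul_of_nonneg_left e1 e5

lemma bound_S_older (au az : Lab h r l) (P : Fin l) (hd : Disjoint (LX au) (LX az))
    (hu : P ∉ LX au) (hz : P ∉ LX az) :
    pr (fun x : Lab h r l => P ∈ LY x ∧ arrL au x ∧ arrL az x) ≤ qq h r l := by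
  refine le_trans ?_ rl_pp_le_qq
  refine le_trans (pr_mono (B := fun x : Lab h r l => (fun y : Fin r → Fin l =>
    (∃ j, y j = P) ∧ (∃ j, y j ∈ LX au) ∧ (∃ j, y j ∈ LX az)) x.2) ?_) ?_
  · rintro x ⟨h1, h2, h3⟩
    exact ⟨mem_LY.mp h1, not_disjoint_LY.mp h2.1, not_disjoint_LY.mp h3.1⟩
  · rw [pr_snd (fun y : Fin r → Fin l =>
      (∃ j, y j = P) ∧ (∃ j, y j ∈ LX au) ∧ (∃ j, y j ∈ LX az))]
    exact prY_three_pt P au az hd hu hz

lemma bound_S_mid (au az : Lab h r l) (P : Fin l) (hu : P ∉ LX au) :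
    pr (fun x : Lab h r l => P ∈ LY x ∧ arrL au x ∧ arrL x az) ≤ qq h r l := by
  refine le_trans ?_ rl_pp_le_qq
  calc pr (fun x : Lab h r l => P ∈ LY x ∧ arrL au x ∧ arrL x az)
      ≤ pr (fun x : Lab h r l => (∃ j, x.1 j ∈ LY az) ∧
          ((∃ j, x.2 j = P) ∧ (∃ j, x.2 j ∈ LX au))) := by
        apply pr_mono
        rintro x ⟨h1, h2, h3⟩
        exact ⟨not_disjoint_LX.mp h3.1, mem_LY.mp h1, not_disjoint_LY.mp h2.1⟩
    _ ≤ pp h r l * (((r : ℝ) / (l : ℝ)) * pp h r l) :=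
        pr_lab_and (fun x => ∃ j, x j ∈ LY az)
          (fun y => (∃ j, y j = P) ∧ (∃ j, y j ∈ LX au)) _ _
          (prX_hit _ (card_LY_le _)) (prY_two_pt P au hu)
          (by have := pp_nonneg (h := h) (r := r) (l := l); positivity)
    _ = _ := by ring

lemma bound_T (P P' : Fin l) :
    pr (fun x : Lab h r l => P ∈ LX x ∧ P' ∈ LY x) ≤ ((h : ℝ) / (l : ℝ)) * ((r : ℝ) / (l : ℝ)) := by
  calc pr (fun x : Lab h r l => P ∈ LX x ∧ P' ∈ LY x)
      ≤ pr (fun x : Lab h r l => (∃ j, x.1 j = P) ∧ (∃ j, x.2 j = P')) := by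
        apply pr_mono
        rintro x ⟨h1, h2⟩
        exact ⟨mem_LX.mp h1, mem_LY.mp h2⟩
    _ ≤ _ := by
        apply pr_lab_and (fun x => ∃ j, x j = P) (fun y => ∃ j, y j = P')
        · exact prX_hit_pt P
        · exact prY_hit_pt P'
        · positivity

lemma bound_common (a : Lab h r l) :
    pr (fun x : Lab h r l => 5 ≤ (LY x ∩ LY a).card) ≤ ((r : ℝ) * (r : ℝ) / (l : ℝ)) ^ 5 := by
  have h0 : pr (fun x : Lab h r l => 5 ≤ (LY x ∩ LY a).card)
      ≤ pr (fun x : Lab h r l => (fun y : Fin r → Fin l => 5 ≤ (univ.image y ∩ LY a).card) x.2) :=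
    pr_mono (fun x hx => hx)
  rw [pr_snd (fun y : Fin r → Fin l => 5 ≤ (univ.image y ∩ LY a).card)] at h0
  refine h0.trans ((pr_many_hits 5 (LY a)).trans ?_)
  rw [Fintype.card_fin, Fintype.card_fin]
  apply pow_le_pow_left₀ (by positivity)
  apply div_le_div_of_nonneg_right _ (by positivity)
  have : ((LY a).card : ℝ) ≤ r := by exact_mod_cast card_LY_le a
  nlinarith [(Nat.cast_nonneg r : (0:ℝ) ≤ r)]

end bounds

end

end Pool.Agent.TH468
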