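import Pool.Agent.TH468.Coll

set_option autoImplicit false
set_option linter.unusedSectionVars false

/-!
# Deterministic consequences: bounded covers of links, sparse conflicts, many colliding pairs
-/

namespace Pool.Agent.TH468

open Finset

noncomputable section

section cover

variable {V : Type*} [DecidableEq V]

/-- a relation without a matching of size `k` has a small cover -/
lemma exists_cover (E : V → V → Prop) (hE : ∀ x, ¬ E x x) (k : ℕ)
    (hk : ∀ z u : Fin k → V, Function.Injective z → Function.Injective u →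
      (∀ a b, z a ≠ u b) → ¬ ∀ a, E (z a) (u a)) :
    ∃ C : Finset V, C.card ≤ 2 * k ∧ (∀ v ∈ C, ∃ v', E v v' ∨ E v' v) ∧
      ∀ x y, E x y → x ∈ C ∨ y ∈ C := by
  induction k with
  | zero =>
    exfalso
    refine hk Fin.elim0 Fin.elim0 (fun a => Fin.elim0 a) (fun a => Fin.elim0 a)
      (fun a => Fin.elim0 a) (fun a => Fin.elim0 a)
  | succ k ih =>
    by_cases hno : ∀ z u : Fin k → V, Function.Injective z → Function.Injective u →
      (∀ a b, z a ≠ u b) → ¬ ∀ a, E (z a) (u a)
    · obtain ⟨C, h1, h2, h3⟩ := ih hno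
      exact ⟨C, by omega, h2, h3⟩
    · push Not at hno
      obtain ⟨z, u, hz, hu, hzu, hE'⟩ := hno
      refine ⟨univ.image z ∪ univ.image u, ?_, ?_, ?_⟩
      · have e1 := card_union_le (univ.image z) (univ.image u)
        have e2 : (univ.image z).card ≤ k := card_image_le.trans (by simp)
        have e3 : (univ.image u).card ≤ k := card_image_le.trans (by simp)
        omega
      · intro v hv
        rw [mem_union] at hv
        rcases hv with hv | hv
        · obtain ⟨a, _, rfl⟩ := mem_image.mp hv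
          exact ⟨u a, Or.inl (hE' a)⟩
        · obtain ⟨a, _, rfl⟩ := mem_image.mp hv
          exact ⟨z a, Or.inr (hE' a)⟩
      · intro x y hxy
        by_contra hcon
        push Not at hcon
        obtain ⟨hx, hy⟩ := hcon
        rw [mem_union, not_or] at hx hy
        have hx1 : ∀ a, z a ≠ x := fun a ha => hx.1 (mem_image.mpr ⟨a, mem_univ _, ha⟩)
        have hx2 : ∀ a, u a ≠ x := fun a ha => hx.2 (mem_image.mpr ⟨a, mem_univ _, ha⟩)
        have hy1 : ∀ a, z a ≠ y := fun a ha => hy.1 (mem_image.mpr ⟨a, mem_univ _, ha⟩)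
        have hy2 : ∀ a, u a ≠ y := fun a ha => hy.2 (mem_image.mpr ⟨a, mem_univ _, ha⟩)
        have hxyne : x ≠ y := by rintro rfl; exact hE _ hxy
        refine hk (Fin.cons x z) (Fin.cons y u) ?_ ?_ ?_ ?_
        · rw [Fin.cons_injective_iff]
          exact ⟨by rintro ⟨a, ha⟩; exact hx1 a ha, hz⟩
        · rw [Fin.cons_injective_iff]
          exact ⟨by rintro ⟨a, ha⟩; exact hy2 a ha, hu⟩
        · intro a b
          refine Fin.cases ?_ ?_ a
          · refine Fin.cases ?_ ?_ b
            · simpa using hxyne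
            · intro b; simpa using (hx2 b).symm
          · intro a
            refine Fin.cases ?_ ?_ b
            · simpa using hy1 a
            · intro b; simpa using hzu a b
        · intro a
          refine Fin.cases ?_ ?_ a
          · simpa using hxy
          · intro a; simpa using hE' a

/-- independent set in a conflict relation of bounded degree -/
lemma exists_indep (conf : V → V → Prop) (hrefl : ∀ v, conf v v) (hsymm : ∀ v w, conf v w → conf w v)
    (D : ℕ) (T : Finset V) [DecidableRel conf]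
    (hD : ∀ w ∈ T, (T.filter (fun w' => conf w w')).card ≤ D) :
    ∃ I ⊆ T, (∀ w ∈ I, ∀ w' ∈ I, w ≠ w' → ¬ conf w w') ∧ T.card ≤ D * I.card := by
  induction T using Finset.strongInduction with
  | H T ih =>
    by_cases hT : T = ∅
    · subst hT
      exact ⟨∅, by simp, by simp, by simp⟩
    · obtain ⟨w, hw⟩ := Finset.nonempty_iff_ne_empty.mpr hT
      have hlt : T.filter (fun w' => ¬ conf w w') ⊂ T := by
        refine ⟨filter_subset _ _, ?_⟩
        intro hsub
        have := hsub hw
        rw [mem_filter] at this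
        exact this.2 (hrefl w)
      obtain ⟨I, hI, hIc, hIcard⟩ := ih _ hlt (by
        intro v hv
        refine (card_le_card ?_).trans (hD v (filter_subset _ _ hv))
        exact filter_subset_filter _ (filter_subset _ _))
      have hwI : w ∉ I := by
        intro h
        have := hI h
        rw [mem_filter] at this
        exact this.2 (hrefl w)
      refine ⟨insert w I, ?_, ?_, ?_⟩
      · intro v hv
        rw [mem_insert] at hv
        rcases hv with rfl | hv
        · exact hw
        · exact filter_subset _ _ (hI hv)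
      · intro v hv v' hv' hne
        rw [mem_insert] at hv hv'
        rcases hv with rfl | hv
        · rcases hv' with rfl | hv'
          · exact absurd rfl hne
          · exact (mem_filter.mp (hI hv')).2
        · rcases hv' with rfl | hv'
          · intro hc
            exact (mem_filter.mp (hI hv)).2 (hsymm _ _ hc)
          · exact hIc v hv v' hv' hne
      · rw [card_insert_of_notMem hwI]
        have h1 := card_filter_add_card_filter_not (s := T) (fun w' => conf w w')
        have h2 := hD w hw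
        have h3 : D * (I.card + 1) = D * I.card + D := by ring
        omega

end cover

variable {N n h r l : ℕ}

/-- link relation -/
def LE (ω : Fin n → Lab h r l) (c w z u : Fin n) : Prop :=
  arr ω c z ∧ arr ω c u ∧ raw ω w z ∧ raw ω w u ∧ raw ω z u

lemma exists_link_cover {k : ℕ} {ω : Fin n → Lab h r l} (h2 : PropR2 k ω) (c w : Fin n) :
    ∃ C : Finset (Fin n), C.card ≤ 2 * k ∧ (∀ v ∈ C, arr ω c w ∧ ∃ v', LE ω c w v v') ∧
      (arr ω c w → ∀ z u, LE ω c w z u → z ∈ C ∨ u ∈ C) := by
  by_cases hcw : arr ω c w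
  · obtain ⟨C, g1, g2, g3⟩ := exists_cover
      (fun z u => arr ω c z ∧ arr ω c u ∧ raw ω w z ∧ raw ω w u ∧ arr ω z u)
      (by intro x hx; exact lt_irrefl _ hx.2.2.2.2.1) k
      (fun z u hz hu hzu => h2 c w hcw z u hz hu hzu)
    refine ⟨C, g1, ?_, ?_⟩
    · intro v hv
      refine ⟨hcw, ?_⟩
      obtain ⟨v', hv' | hv'⟩ := g2 v hv
      · obtain ⟨e1, e2, e3, e4, e5⟩ := hv'
        exact ⟨v', e1, e2, e3, e4, Or.inl e5⟩
      · obtain ⟨e1, e2, e3, e4, e5⟩ := hv'
        exact ⟨v', e2, e1, e4, e3, Or.inr e5⟩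
    · intro _ z u hzu
      obtain ⟨e1, e2, e3, e4, e5⟩ := hzu
      rcases e5 with e5 | e5
      · exact g3 z u ⟨e1, e2, e3, e4, e5⟩
      · exact (g3 u z ⟨e2, e1, e4, e3, e5⟩).symm
  · exact ⟨∅, by simp, by simp, fun hh => absurd hh hcw⟩

/-- the data of covers of all links -/
structure Covers (k : ℕ) (ω : Fin n → Lab h r l) where
  /-- the cover -/
  cov : Fin n → Fin n → Finset (Fin n)
  /-- small -/
  card_le : ∀ c w, (cov c w).card ≤ 2 * k
  /-- members are in the link -/
  mem : ∀ c w v, v ∈ cov c w → arr ω c w ∧ ∃ v', LE ω c w v v'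
  /-- covering -/
  covers : ∀ c w, arr ω c w → ∀ z u, LE ω c w z u → z ∈ cov c w ∨ u ∈ cov c w

lemma exists_covers {k : ℕ} {ω : Fin n → Lab h r l} (h2 : PropR2 k ω) : Nonempty (Covers k ω) := by
  choose C g1 g2 g3 using exists_link_cover h2
  exact ⟨⟨C, g1, g2, g3⟩⟩

section conflicts

variable {k K : ℕ} {ω : Fin n → Lab h r l} (C : Covers k ω)

lemma cov_ne {c w v : Fin n} (hv : v ∈ C.cov c w) : v ≠ w := by
  obtain ⟨_, v', _, _, h3, _⟩ := C.mem c w v hv
  exact (raw_ne h3).symm

/-- few vertices with label `P` have `v` in their cover -/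
lemma count_cov (h3 : PropR3 K ω) (hK : 1 ≤ K) (c v : Fin n) (P : Fin l) (hP : P ∈ LX (ω c)) :
    (univ.filter (fun w => P ∈ LY (ω w) ∧ v ∈ C.cov c w)).card ≤ 2 * k + 2 * k * K := by
  classical
  by_cases hne : ∃ w, v ∈ C.cov c w
  swap
  · push Not at hne
    rw [filter_false_of_mem]
    · simp
    · intro w _ hw
      exact hne w hw.2
  have hcv : arr ω c v := by
    obtain ⟨w, hw⟩ := hne
    obtain ⟨_, v', hh, _⟩ := C.mem c w v hw
    exact hh
  have hPv : P ∉ LX (ω v) := fun hh => (Finset.disjoint_left.mp hcv.2.2) hP hh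
  have hsub : univ.filter (fun w => P ∈ LY (ω w) ∧ v ∈ C.cov c w)
      ⊆ C.cov c v ∪ (C.cov c v).biUnion (fun v' => univ.filter (fun w =>
        (P ∈ LY (ω w) ∧ raw ω w v ∧ raw ω w v') ∧ (arr ω c v' ∧ raw ω v v'))) := by
    intro w hw
    simp only [mem_filter, mem_univ, true_and] at hw
    obtain ⟨hPw, hvw⟩ := hw
    obtain ⟨hcw, v', e1, e2, e3, e4, e5⟩ := C.mem c w v hvw
    have hLE : LE ω c v w v' := ⟨hcw, e2, raw_symm e3, e5, e4⟩
    rcases C.covers c v hcv w v' hLE with hc | hc
    · exact mem_union_left _ hc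
    · apply mem_union_right
      rw [mem_biUnion]
      refine ⟨v', hc, ?_⟩
      simp only [mem_filter, mem_univ, true_and]
      exact ⟨⟨hPw, e3, e4⟩, e2, e5⟩
  have hK' : ∀ v' ∈ C.cov c v, (univ.filter (fun w =>
        (P ∈ LY (ω w) ∧ raw ω w v ∧ raw ω w v') ∧ (arr ω c v' ∧ raw ω v v'))).card ≤ K := by
    intro v' _
    by_contra hcon
    push Not at hcon
    obtain ⟨e, he, hmem⟩ := exists_inj_of_le_card hcon.le
    simp only [mem_filter, mem_univ, true_and] at hmem
    have h0 := hmem ⟨0, hK⟩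
    have hPv' : P ∉ LX (ω v') := fun hh => (Finset.disjoint_left.mp h0.2.1.2.2) hP hh
    exact h3 v v' P h0.2.2 hPv hPv' e he (fun a => (hmem a).1)
  calc _ ≤ _ := card_le_card hsub
    _ ≤ _ := card_union_le _ _
    _ ≤ 2 * k + (C.cov c v).card * K := by
      apply add_le_add (C.card_le c v)
      refine card_biUnion_le.trans ?_
      calc _ ≤ ∑ _v' ∈ C.cov c v, K := sum_le_sum hK'
        _ = _ := by simp
    _ ≤ _ := by
      have := C.card_le c v
      gcongr

/-- support of a vertex `w` for the pair `c1, c2` -/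
def supp (c1 c2 w : Fin n) : Finset (Fin n) := insert w (C.cov c1 w ∪ C.cov c2 w)

lemma supp_card (c1 c2 w : Fin n) : (supp C c1 c2 w).card ≤ 1 + 4 * k := by
  unfold supp
  have h1 := card_insert_le w (C.cov c1 w ∪ C.cov c2 w)
  have h2 := card_union_le (C.cov c1 w) (C.cov c2 w)
  have h3 := C.card_le c1 w
  have h4 := C.card_le c2 w
  omega

/-- the conflict bound -/
def Dc (k K : ℕ) : ℕ := (1 + 4 * k) * (1 + 2 * (2 * k + 2 * k * K))

lemma conflict_card (h3 : PropR3 K ω) (hK : 1 ≤ K) (c1 c2 : Fin n) (P : Fin l)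
    (hP1 : P ∈ LX (ω c1)) (hP2 : P ∈ LX (ω c2)) (T : Finset (Fin n))
    (hT : ∀ w ∈ T, P ∈ LY (ω w)) (w : Fin n) [DecidablePred fun w' =>
      ¬ Disjoint (supp C c1 c2 w) (supp C c1 c2 w')] :
    (T.filter (fun w' => ¬ Disjoint (supp C c1 c2 w) (supp C c1 c2 w'))).card ≤ Dc k K := by
  classical
  have hsub : T.filter (fun w' => ¬ Disjoint (supp C c1 c2 w) (supp C c1 c2 w'))
      ⊆ (supp C c1 c2 w).biUnion (fun v => insert v
        (univ.filter (fun w' => P ∈ LY (ω w') ∧ v ∈ C.cov c1 w') ∪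
          univ.filter (fun w' => P ∈ LY (ω w') ∧ v ∈ C.cov c2 w'))) := by
    intro w' hw'
    rw [mem_filter] at hw'
    obtain ⟨hw'T, hnd⟩ := hw'
    rw [Finset.not_disjoint_iff] at hnd
    obtain ⟨v, hv, hv'⟩ := hnd
    rw [mem_biUnion]
    refine ⟨v, hv, ?_⟩
    unfold supp at hv'
    rw [mem_insert, mem_union] at hv'
    rw [mem_insert, mem_union]
    rcases hv' with hv' | hv' | hv'
    · left; exact hv'.symm
    · right; left
      simp only [mem_filter, mem_univ, true_and]
      exact ⟨hT w' hw'T, hv'⟩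
    · right; right
      simp only [mem_filter, mem_univ, true_and]
      exact ⟨hT w' hw'T, hv'⟩
  calc _ ≤ _ := card_le_card hsub
    _ ≤ _ := card_biUnion_le
    _ ≤ ∑ _v ∈ supp C c1 c2 w, (1 + 2 * (2 * k + 2 * k * K)) := by
      apply sum_le_sum
      intro v _
      have e1 := card_insert_le v (univ.filter (fun w' => P ∈ LY (ω w') ∧ v ∈ C.cov c1 w') ∪
          univ.filter (fun w' => P ∈ LY (ω w') ∧ v ∈ C.cov c2 w'))
      have e2 := card_union_le (univ.filter (fun w' => P ∈ LY (ω w') ∧ v ∈ C.cov c1 w'))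
          (univ.filter (fun w' => P ∈ LY (ω w') ∧ v ∈ C.cov c2 w'))
      have e3 := count_cov C h3 hK c1 v P hP1
      have e4 := count_cov C h3 hK c2 v P hP2
      omega
    _ = (supp C c1 c2 w).card * (1 + 2 * (2 * k + 2 * k * K)) := by simp
    _ ≤ _ := by
      unfold Dc
      exact Nat.mul_le_mul_right _ (supp_card C c1 c2 w)

/-- few vertices with second-kind label `P` share a first-kind label with the clean vertex `c` -/
lemma sib_card {K5 k1 L : ℕ} (h5 : PropR5 K5 ω) (σ : Fin N → Fin n)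
    (hσ : Function.Injective σ) (c : Fin n) (P : Fin l) (hP : P ∈ LX (ω c))
    (hc : cleanL k1 (fset L (ω ∘ σ)) (ω c)) :
    ((tset L (ω ∘ σ) P).filter (fun i => ¬ Disjoint (LX (ω c)) (LX (ω (σ i))))).card
      ≤ k1 * K5 := by
  classical
  have hsub : (tset L (ω ∘ σ) P).filter (fun i => ¬ Disjoint (LX (ω c)) (LX (ω (σ i))))
      ⊆ (LX (ω c) ∩ fset L (ω ∘ σ) P).biUnion (fun Q =>
        univ.filter (fun i => Q ∈ LX (ω (σ i)) ∧ P ∈ LY (ω (σ i)))) := by
    intro i hi
    rw [mem_filter] at hi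
    obtain ⟨hiT, hnd⟩ := hi
    rw [Finset.not_disjoint_iff] at hnd
    obtain ⟨Q, hQ1, hQ2⟩ := hnd
    rw [mem_biUnion]
    refine ⟨Q, ?_, ?_⟩
    · rw [mem_inter]
      refine ⟨hQ1, ?_⟩
      unfold fset
      rw [mem_biUnion]
      exact ⟨i, hiT, hQ2⟩
    · simp only [mem_filter, mem_univ, true_and]
      refine ⟨hQ2, ?_⟩
      simp only [tset, mem_filter, mem_univ, true_and] at hiT
      exact hiT.1
  calc _ ≤ _ := card_le_card hsub
    _ ≤ _ := card_biUnion_le
    _ ≤ ∑ _Q ∈ LX (ω c) ∩ fset L (ω ∘ σ) P, K5 := by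
      apply sum_le_sum
      intro Q _
      by_contra hcon
      push Not at hcon
      obtain ⟨e, he, hmem⟩ := exists_inj_of_le_card hcon.le
      simp only [mem_filter, mem_univ, true_and] at hmem
      exact h5 Q P (fun a => σ (e a)) (fun a b hab => he (hσ hab)) hmem
    _ = (LX (ω c) ∩ fset L (ω ∘ σ) P).card * K5 := by simp
    _ ≤ _ := Nat.mul_le_mul_right _ (hc P hP)

/-- one colliding pair, with its conflict-free set -/
lemma exists_pair {K5 k1 s2 L : ℕ} (h1 : PropR1 N L k1 s2 ω) (h3 : PropR3 K ω) (hK : 1 ≤ K)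
    (h5 : PropR5 K5 ω) (σ τ : Fin N → Fin n) (hσ : Function.Injective σ)
    (hτ : Function.Injective τ) (hlt : ∀ i j, σ i < τ j) :
    ∃ i j, i ≠ j ∧ ∃ I : Finset (Fin n), (∀ w ∈ I, (∃ i', w = σ i') ∧ arr ω (τ i) w ∧
      arr ω (τ j) w) ∧ (∀ w ∈ I, ∀ w' ∈ I, w ≠ w' →
        Disjoint (supp C (τ i) (τ j) w) (supp C (τ i) (τ j) w')) ∧
      L ≤ Dc k K * I.card + 2 * (k1 * K5) := by
  classical
  obtain ⟨i, j, hij, ri, rj, P, hP, hPi, hPj⟩ := h1 σ τ hσ hτ (fun i j => ne_of_lt (hlt i j))
  refine ⟨i, j, hij, ?_⟩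
  set T := tset L (ω ∘ σ) P with hT
  have hTc : T.card = L := tset_card_eq hP
  set A := T.filter (fun i' => ¬ Disjoint (LX (ω (τ i))) (LX (ω (σ i')))) with hA
  set B := T.filter (fun i' => ¬ Disjoint (LX (ω (τ j))) (LX (ω (σ i')))) with hB
  have hAc : A.card ≤ k1 * K5 := sib_card h5 σ hσ (τ i) P hPi ri.1
  have hBc : B.card ≤ k1 * K5 := sib_card h5 σ hσ (τ j) P hPj rj.1
  set T0 := (T \ (A ∪ B)).image σ with hT0
  have hT0c : L ≤ T0.card + 2 * (k1 * K5) := by
    rw [hT0, card_image_of_injective _ hσ]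
    have e1 := card_union_le A B
    have e2 := le_card_sdiff (A ∪ B) T
    omega
  have hT0mem : ∀ w ∈ T0, P ∈ LY (ω w) ∧ (∃ i', w = σ i') ∧ arr ω (τ i) w ∧ arr ω (τ j) w := by
    intro w hw
    rw [hT0, mem_image] at hw
    obtain ⟨i', hi', rfl⟩ := hw
    rw [mem_sdiff, mem_union, not_or] at hi'
    obtain ⟨hiT, hiA, hiB⟩ := hi'
    have hPY : P ∈ LY (ω (σ i')) := by
      rw [hT] at hiT
      simp only [tset, mem_filter, mem_univ, true_and] at hiT
      exact hiT.1
    have hdA : Disjoint (LX (ω (τ i))) (LX (ω (σ i'))) := by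
      by_contra hcon
      exact hiA (by rw [hA, mem_filter]; exact ⟨hiT, hcon⟩)
    have hdB : Disjoint (LX (ω (τ j))) (LX (ω (σ i'))) := by
      by_contra hcon
      exact hiB (by rw [hB, mem_filter]; exact ⟨hiT, hcon⟩)
    refine ⟨hPY, ⟨i', rfl⟩, ⟨hlt i' i, ?_, hdA⟩, ⟨hlt i' j, ?_, hdB⟩⟩
    · rw [Finset.not_disjoint_iff]; exact ⟨P, hPi, hPY⟩
    · rw [Finset.not_disjoint_iff]; exact ⟨P, hPj, hPY⟩
  obtain ⟨I, hI, hIc, hIcard⟩ := exists_indep
    (fun w w' => ¬ Disjoint (supp C (τ i) (τ j) w) (supp C (τ i) (τ j) w'))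
    (by
      intro v
      rw [Finset.not_disjoint_iff]
      exact ⟨v, by simp [supp], by simp [supp]⟩)
    (by intro v w hh hd; exact hh hd.symm) (Dc k K) T0
    (by
      intro w _
      exact conflict_card C h3 hK (τ i) (τ j) P hPi hPj T0 (fun w hw => (hT0mem w hw).1) w)
  refine ⟨I, ?_, ?_, ?_⟩
  · intro w hw
    exact (hT0mem w (hI hw)).2
  · intro w hw w' hw' hne
    have := hIc w hw w' hw' hne
    exact not_not.mp this
  · omega

/-- a family of disjoint colliding pairs inside `S` -/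
structure Pairs (S : Finset (Fin n)) (m J : ℕ) where
  /-- first vertices -/
  c1 : Fin m → Fin n
  /-- second vertices -/
  c2 : Fin m → Fin n
  /-- common older neighbours -/
  I : Fin m → Finset (Fin n)
  inj1 : Function.Injective c1
  inj2 : Function.Injective c2
  ne : ∀ a b, c1 a ≠ c2 b
  mem1 : ∀ a, c1 a ∈ S
  mem2 : ∀ a, c2 a ∈ S
  sub : ∀ a, ∀ w ∈ I a, w ∈ S
  arr1 : ∀ a, ∀ w ∈ I a, arr ω (c1 a) w
  arr2 : ∀ a, ∀ w ∈ I a, arr ω (c2 a) w
  disj : ∀ a, ∀ w ∈ I a, ∀ w' ∈ I a, w ≠ w' →
    Disjoint (supp C (c1 a) (c2 a) w) (supp C (c1 a) (c2 a) w')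
  big : ∀ a, J ≤ (I a).card

lemma exists_pairs {M K5 k1 s2 L J : ℕ} (h1 : PropR1 (4 * M) L k1 s2 ω) (h3 : PropR3 K ω)
    (hK : 1 ≤ K) (h5 : PropR5 K5 ω) (hL : Dc k K * J + 2 * (k1 * K5) ≤ L) (hD : 0 < Dc k K)
    (S : Finset (Fin n)) (hS : S.card = 12 * M) :
    Nonempty (Pairs C S (2 * M) J) := by
  classical
  -- enumerate `S`
  set f := S.orderEmbOfFin hS with hf
  set σ : Fin (4 * M) → Fin n := fun i => f (Fin.castLE (by omega) i) with hσ
  have hσinj : Function.Injective σ := by
    intro a b hab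
    exact Fin.castLE_injective _ (f.injective hab)
  set S2 : Finset (Fin n) := univ.image (fun i : Fin (8 * M) =>
    f ⟨4 * M + i, by omega⟩) with hS2
  have hS2c : S2.card = 8 * M := by
    rw [hS2, card_image_of_injective _ (by
      intro a b hab
      have := f.injective hab
      simp only [Fin.mk.injEq] at this
      exact Fin.ext (by omega)), card_univ, Fintype.card_fin]
  have hS2S : ∀ v ∈ S2, v ∈ S := by
    intro v hv
    obtain ⟨i, _, rfl⟩ := mem_image.mp hv
    exact S.orderEmbOfFin_mem hS _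
  have hlt : ∀ i, ∀ v ∈ S2, σ i < v := by
    intro i v hv
    obtain ⟨j, _, rfl⟩ := mem_image.mp hv
    rw [hσ]
    simp only
    rw [f.lt_iff_lt, Fin.lt_def]
    simp only [Fin.val_castLE]
    omega
  -- build the pairs one by one
  have key : ∀ m, m ≤ 2 * M → ∃ c1 c2 : Fin m → Fin n, ∃ I : Fin m → Finset (Fin n),
      Function.Injective c1 ∧ Function.Injective c2 ∧ (∀ a b, c1 a ≠ c2 b) ∧
      (∀ a, c1 a ∈ S2) ∧ (∀ a, c2 a ∈ S2) ∧ (∀ a, ∀ w ∈ I a, w ∈ S) ∧
      (∀ a, ∀ w ∈ I a, arr ω (c1 a) w) ∧ (∀ a, ∀ w ∈ I a, arr ω (c2 a) w) ∧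
      (∀ a, ∀ w ∈ I a, ∀ w' ∈ I a, w ≠ w' →
        Disjoint (supp C (c1 a) (c2 a) w) (supp C (c1 a) (c2 a) w')) ∧
      (∀ a, J ≤ (I a).card) := by
    intro m
    induction m with
    | zero =>
      intro _
      exact ⟨Fin.elim0, Fin.elim0, Fin.elim0, fun a => Fin.elim0 a, fun a => Fin.elim0 a,
        fun a => Fin.elim0 a, fun a => Fin.elim0 a, fun a => Fin.elim0 a, fun a => Fin.elim0 a,
        fun a => Fin.elim0 a, fun a => Fin.elim0 a, fun a => Fin.elim0 a, fun a => Fin.elim0 a⟩
    | succ m ih =>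
      intro hm
      obtain ⟨c1, c2, I, g1, g2, g3, g4, g5, g6, g7, g8, g9, g10⟩ := ih (by omega)
      set used := univ.image c1 ∪ univ.image c2 with hused
      have hu : used.card ≤ 2 * m := by
        have e1 : used.card ≤ (univ.image c1).card + (univ.image c2).card := card_union_le _ _
        have e2 : (univ.image c1).card ≤ m := card_image_le.trans (by simp)
        have e3 : (univ.image c2).card ≤ m := card_image_le.trans (by simp)
        omega
      have hrem : 4 * M ≤ (S2 \ used).card := by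
        have := le_card_sdiff used S2
        omega
      obtain ⟨τ, hτ, hτmem⟩ := exists_inj_of_le_card hrem
      obtain ⟨i, j, hij, I0, k1', k2', k3'⟩ := exists_pair C h1 h3 hK h5 σ τ hσinj hτ (by
        intro i j
        exact hlt i (τ j) (mem_sdiff.mp (hτmem j)).1)
      have hni : ∀ i, (∀ a, c1 a ≠ τ i) ∧ ∀ a, c2 a ≠ τ i := by
        intro i
        have := (mem_sdiff.mp (hτmem i)).2
        rw [hused, mem_union, not_or] at this
        exact ⟨fun a ha => this.1 (mem_image.mpr ⟨a, mem_univ _, ha⟩),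
          fun a ha => this.2 (mem_image.mpr ⟨a, mem_univ _, ha⟩)⟩
      have hτij : τ i ≠ τ j := fun hh => hij (hτ hh)
      refine ⟨Fin.cons (τ i) c1, Fin.cons (τ j) c2, Fin.cons I0 I, ?_, ?_, ?_, ?_, ?_, ?_, ?_, ?_,
        ?_, ?_⟩
      · rw [Fin.cons_injective_iff]
        exact ⟨by rintro ⟨a, ha⟩; exact (hni i).1 a ha, g1⟩
      · rw [Fin.cons_injective_iff]
        exact ⟨by rintro ⟨a, ha⟩; exact (hni j).2 a ha, g2⟩
      · intro a b
        refine Fin.cases ?_ ?_ a
        · refine Fin.cases ?_ ?_ b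
          · simpa using hτij
          · intro b; simpa using ((hni i).2 b).symm
        · intro a
          refine Fin.cases ?_ ?_ b
          · simpa using (hni j).1 a
          · intro b; simpa using g3 a b
      · intro a
        refine Fin.cases ?_ ?_ a
        · simpa using (mem_sdiff.mp (hτmem i)).1
        · intro a; simpa using g4 a
      · intro a
        refine Fin.cases ?_ ?_ a
        · simpa using (mem_sdiff.mp (hτmem j)).1
        · intro a; simpa using g5 a
      · intro a
        refine Fin.cases ?_ ?_ a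
        · simp only [Fin.cons_zero]
          intro w hw
          obtain ⟨⟨i', rfl⟩, _⟩ := k1' w hw
          exact S.orderEmbOfFin_mem hS _
        · intro a; simpa using g6 a
      · intro a
        refine Fin.cases ?_ ?_ a
        · simp only [Fin.cons_zero]
          intro w hw
          exact (k1' w hw).2.1
        · intro a; simpa using g7 a
      · intro a
        refine Fin.cases ?_ ?_ a
        · simp only [Fin.cons_zero]
          intro w hw
          exact (k1' w hw).2.2
        · intro a; simpa using g8 a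
      · intro a
        refine Fin.cases ?_ ?_ a
        · simp only [Fin.cons_zero]
          exact k2'
        · intro a; simpa using g9 a
      · intro a
        refine Fin.cases ?_ ?_ a
        · simp only [Fin.cons_zero]
          have : Dc k K * J ≤ Dc k K * I0.card := by omega
          exact Nat.le_of_mul_le_mul_left this hD
        · intro a; simpa using g10 a
  obtain ⟨c1, c2, I, g1, g2, g3, g4, g5, g6, g7, g8, g9, g10⟩ := key (2 * M) le_rfl
  exact ⟨⟨c1, c2, I, g1, g2, g3, fun a => hS2S _ (g4 a), fun a => hS2S _ (g5 a), g6, g7, g8, g9,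
    g10⟩⟩

end conflicts

end

end Pool.Agent.TH468
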